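import Pool.Agent.Lib.Pbbea99G.E11.Data
import Pool.Agent.Lib.Pbbea99G.Piece

/-!
# MP_bbea99_co: closure of the templates
-/

namespace MPbbea99G.E11

open MPbbea99S MPbbea99T MPbbea99G Finset

mutual

theorem C06_3_p0 : allN (fun j => chkV1 P V lk 0x100000001000d000100430043000040004000400040004000400040004000400040004000 (0 + j)) 49 = true := by decide +kernel

theorem C06_3_p1 : allN (fun j => chkV1 P V lk 0x100000001000d000100430043000040004000400040004000400040004000400040004000 (49 + j)) 48 = true := by decide +kernel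

theorem C06_2_p0 : allN (fun j => chkV1 P V lk 0x100000001000b000100190019000040004000400040004000400040004000400040004000 (0 + j)) 49 = true := by decide +kernel

theorem C06_2_p1 : allN (fun j => chkV1 P V lk 0x100000001000b000100190019000040004000400040004000400040004000400040004000 (49 + j)) 48 = true := by decide +kernel

theorem C06_1_p0 : allN (fun j => chkV1 P V lk 0x1000000010009000100050005000040004000400040004000400040004000400040004000 (0 + j)) 33 = true := by decide +kernel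

theorem C06_1_p1 : allN (fun j => chkV1 P V lk 0x1000000010009000100050005000040004000400040004000400040004000400040004000 (33 + j)) 33 = true := by decide +kernel

theorem C06_1_p2 : allN (fun j => chkV1 P V lk 0x1000000010009000100050005000040004000400040004000400040004000400040004000 (66 + j)) 31 = true := by decide +kernel

theorem C06_6_p0 : allN (fun j => chkV1 P V lk 0x100000001000b000100130013000040004000400040004000400040004000400040004000 (0 + j)) 49 = true := by decide +kernel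

theorem C06_6_p1 : allN (fun j => chkV1 P V lk 0x100000001000b000100130013000040004000400040004000400040004000400040004000 (49 + j)) 48 = true := by decide +kernel

end

theorem allC06 :
    (allTr (chkV P V lk) tr_2020_2021 = true) ∧
    ((chkV P V lk) 0x100000001000b000100190019000040004000400040004000400040004000400040004000 = true) ∧
    ((chkV P V lk) 0x100000001000d000100430043000040004000400040004000400040004000400040004000 = true) ∧
    ((chkV P V lk) 0x100000001000d0001003a003a000040004000400040004000400040004000400040004000 = true) ∧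
    ((chkV P V lk) 0x100000001000d000100160016000040004000400040004000400040004000400040004000 = true) ∧
    ((chkV P V lk) 0x100000001000b000100130013000040004000400040004000400040004000400040004000 = true) ∧
    (allTr (chkV P V lk) tr_1462_1463 = true) ∧
    (allTr (chkV P V lk) tr_249_256 = true) ∧
    (allTr (chkV P V lk) tr_794_802 = true) ∧
    (allTr (chkV P V lk) tr_1050_1057 = true) ∧
    (allTr (chkV P V lk) tr_1881_1882 = true) ∧
    (allTr (chkV P V lk) tr_1877_1878 = true) ∧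
    ((chkV P V lk) 0xd0001004f00330001400040014001400040003ffd400040003fff40004002 = true) ∧
    (allTr (chkV P V lk) tr_1468_1469 = true) ∧
    (allTr (chkV P V lk) tr_1910_1911 = true) ∧
    (allTr (chkV P V lk) tr_1609_1610 = true) ∧
    (allTr (chkV P V lk) tr_1563_1564 = true) ∧
    (allTr (chkV P V lk) tr_1402_1403 = true) ∧
    ((chkV P V lk) 0x100000000000800020006000600014000400140013ffe40003ffe40014001400040004000 = true) ∧
    (allTr (chkV P V lk) tr_1657_1658 = true) ∧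
    (allTr (chkV P V lk) tr_1526_1527 = true) ∧
    (allTr (chkV P V lk) tr_1392_1393 = true) ∧
    (allTr (chkV P V lk) tr_1745_1746 = true) ∧
    (allTr (chkV P V lk) tr_1964_1965 = true) ∧
    (allTr (chkV P V lk) tr_1855_1856 = true) ∧
    ((chkV P V lk) 0x100000000000b0002002e002e00014000400140013ffe40003ffe40014001400040004000 = true) ∧
    (allTr (chkV P V lk) tr_1931_1932 = true) ∧
    ((chkV P V lk) 0xc00010058004f0002400040014000400040003ffd4000400140023fff4000 = true) ∧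
    (allTr (chkV P V lk) tr_1648_1649 = true) ∧
    (allTr (chkV P V lk) tr_1696_1697 = true) ∧
    (allTr (chkV P V lk) tr_1538_1539 = true) ∧
    (allTr (chkV P V lk) tr_1801_1802 = true) ∧
    (allTr (chkV P V lk) tr_737_744 = true) ∧
    (allTr (chkV P V lk) tr_1191_1195 = true) ∧
    (allTr (chkV P V lk) tr_1644_1645 = true) ∧
    ((chkV P V lk) 0x100000000000d0002005b005b00014000400140013ffe40003ffe40014001400040004000 = true) ∧
    (allTr (chkV P V lk) tr_1758_1759 = true) ∧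
    (allTr (chkV P V lk) tr_745_760 = true) ∧
    (allTr (chkV P V lk) tr_1505_1506 = true) ∧
    (allTr (chkV P V lk) tr_1980_1981 = true) ∧
    (allTr (chkV P V lk) tr_976_991 = true) ∧
    (allTr (chkV P V lk) tr_1720_1721 = true) ∧
    ((chkV P V lk) 0x10000000000080002004f004f00024000400140013ffe40003ffe40014001400040004000 = true) ∧
    (allTr (chkV P V lk) tr_447_454 = true) ∧
    (allTr (chkV P V lk) tr_1935_1936 = true) ∧
    (allTr (chkV P V lk) tr_1743_1744 = true) ∧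
    ((chkV P V lk) 0x100000000000d0002005e005e00014000400140013ffe40003ffe40014001400040004000 = true) ∧
    ((chkV P V lk) 0x1000a00000018000c00003fff40024000400040023fff40003fff40003fff4000 = true) ∧
    (allTr (chkV P V lk) tr_1646_1647 = true) ∧
    (allTr (chkV P V lk) tr_1739_1740 = true) ∧
    (allTr (chkV P V lk) tr_1954_1955 = true) ∧
    ((chkV P V lk) 0x1000c0000004d00320000400240003fff3fff3fff3fff40004002400040004000 = true) ∧
    (allTr (chkV P V lk) tr_1997_1998 = true) ∧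
    ((chkV P V lk) 0x1000b0000002d001800003fff4002400040023fff3fff40004000400040003fff = true) ∧
    ((chkV P V lk) 0x100000000000d0002002d002d00014000400140013ffe40003ffe40014001400040004000 = true) ∧
    ((chkV P V lk) 0x100000000000500020033003300024000400140013ffe40003ffe40014001400040004000 = true) ∧
    (allTr (chkV P V lk) tr_237_240 = true) ∧
    ((chkV P V lk) 0xc0001001f006600014000400340003ffe3fff3ffe400040013fff40024000 = true) ∧
    (allTr (chkV P V lk) tr_893_901 = true) ∧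
    ((chkV P V lk) 0xa00010024001200013fff400040013ffe40003ffe40004000400240004002 = true) ∧
    (allTr (chkV P V lk) tr_1214_1215 = true) ∧
    ((chkV P V lk) 0x80001000a001900013fff400140013ffd400240004000400140003fff4000 = true) ∧
    ((chkV P V lk) 0xa0001002d003a00024000400040003ffd3fff3ffe40034001400040004002 = true) ∧
    ((chkV P V lk) 0xd00010016006300024000400140033ffe3fff3ffd40004000400040024000 = true) ∧
    ((chkV P V lk) 0x900000033002a00023fff40003fff400040043ffd40014001400140003ffe = true) ∧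
    ((chkV P V lk) 0x20062004e0006400240023ffe3ffd40003ffe40014001400140004000 = true) :=
  ⟨allTr_mk (chkV_of (by decide +kernel) (rng_cons C06_1_p0 rfl (rng_cons C06_1_p1 rfl (rng_cons C06_1_p2 rfl (rng_end (Nat.le_of_eq rfl)))))) rfl rfl,
  chkV_of (by decide +kernel) (rng_cons C06_2_p0 rfl (rng_cons C06_2_p1 rfl (rng_end (Nat.le_of_eq rfl)))),
  chkV_of (by decide +kernel) (rng_cons C06_3_p0 rfl (rng_cons C06_3_p1 rfl (rng_end (Nat.le_of_eq rfl)))),
  by decide +kernel,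
  by decide +kernel,
  chkV_of (by decide +kernel) (rng_cons C06_6_p0 rfl (rng_cons C06_6_p1 rfl (rng_end (Nat.le_of_eq rfl)))),
  by decide +kernel,
  by decide +kernel,
  by decide +kernel,
  by decide +kernel,
  by decide +kernel,
  by decide +kernel,
  by decide +kernel,
  by decide +kernel,
  by decide +kernel,
  by decide +kernel,
  by decide +kernel,
  by decide +kernel,
  by decide +kernel,
  by decide +kernel,
  by decide +kernel,
  by decide +kernel,
  by decide +kernel,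
  by decide +kernel,
  by decide +kernel,
  by decide +kernel,
  by decide +kernel,
  by decide +kernel,
  by decide +kernel,
  by decide +kernel,
  by decide +kernel,
  by decide +kernel,
  by decide +kernel,
  by decide +kernel,
  by decide +kernel,
  by decide +kernel,
  by decide +kernel,
  by decide +kernel,
  by decide +kernel,
  by decide +kernel,
  by decide +kernel,
  by decide +kernel,
  by decide +kernel,
  by decide +kernel,
  by decide +kernel,
  by decide +kernel,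
  by decide +kernel,
  by decide +kernel,
  by decide +kernel,
  by decide +kernel,
  by decide +kernel,
  by decide +kernel,
  by decide +kernel,
  by decide +kernel,
  by decide +kernel,
  by decide +kernel,
  by decide +kernel,
  by decide +kernel,
  by decide +kernel,
  by decide +kernel,
  by decide +kernel,
  by decide +kernel,
  by decide +kernel,
  by decide +kernel,
  by decide +kernel,
  by decide +kernel⟩

theorem c_2020_2021 : allTr (chkV P V lk) tr_2020_2021 = true := allC06.1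

theorem ck_2041 : (chkV P V lk) 0x100000001000b000100190019000040004000400040004000400040004000400040004000 = true := allC06.2.1

theorem ck_2099 : (chkV P V lk) 0x100000001000d000100430043000040004000400040004000400040004000400040004000 = true := allC06.2.2.1

theorem ck_2091 : (chkV P V lk) 0x100000001000d0001003a003a000040004000400040004000400040004000400040004000 = true := allC06.2.2.2.1

theorem ck_2080 : (chkV P V lk) 0x100000001000d000100160016000040004000400040004000400040004000400040004000 = true := allC06.2.2.2.2.1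

theorem ck_2035 : (chkV P V lk) 0x100000001000b000100130013000040004000400040004000400040004000400040004000 = true := allC06.2.2.2.2.2.1

theorem c_1462_1463 : allTr (chkV P V lk) tr_1462_1463 = true := allC06.2.2.2.2.2.2.1

theorem c_249_256 : allTr (chkV P V lk) tr_249_256 = true := allC06.2.2.2.2.2.2.2.1

theorem c_794_802 : allTr (chkV P V lk) tr_794_802 = true := allC06.2.2.2.2.2.2.2.2.1

theorem c_1050_1057 : allTr (chkV P V lk) tr_1050_1057 = true := allC06.2.2.2.2.2.2.2.2.2.1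

theorem c_1881_1882 : allTr (chkV P V lk) tr_1881_1882 = true := allC06.2.2.2.2.2.2.2.2.2.2.1

theorem c_1877_1878 : allTr (chkV P V lk) tr_1877_1878 = true := allC06.2.2.2.2.2.2.2.2.2.2.2.1

theorem ck_1236 : (chkV P V lk) 0xd0001004f00330001400040014001400040003ffd400040003fff40004002 = true := allC06.2.2.2.2.2.2.2.2.2.2.2.2.1

theorem c_1468_1469 : allTr (chkV P V lk) tr_1468_1469 = true := allC06.2.2.2.2.2.2.2.2.2.2.2.2.2.1

theorem c_1910_1911 : allTr (chkV P V lk) tr_1910_1911 = true := allC06.2.2.2.2.2.2.2.2.2.2.2.2.2.2.1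

theorem c_1609_1610 : allTr (chkV P V lk) tr_1609_1610 = true := allC06.2.2.2.2.2.2.2.2.2.2.2.2.2.2.2.1

theorem c_1563_1564 : allTr (chkV P V lk) tr_1563_1564 = true := allC06.2.2.2.2.2.2.2.2.2.2.2.2.2.2.2.2.1

theorem c_1402_1403 : allTr (chkV P V lk) tr_1402_1403 = true := allC06.2.2.2.2.2.2.2.2.2.2.2.2.2.2.2.2.2.1

theorem ck_1631 : (chkV P V lk) 0x100000000000800020006000600014000400140013ffe40003ffe40014001400040004000 = true := allC06.2.2.2.2.2.2.2.2.2.2.2.2.2.2.2.2.2.2.1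

theorem c_1657_1658 : allTr (chkV P V lk) tr_1657_1658 = true := allC06.2.2.2.2.2.2.2.2.2.2.2.2.2.2.2.2.2.2.2.1

theorem c_1526_1527 : allTr (chkV P V lk) tr_1526_1527 = true := allC06.2.2.2.2.2.2.2.2.2.2.2.2.2.2.2.2.2.2.2.2.1

theorem c_1392_1393 : allTr (chkV P V lk) tr_1392_1393 = true := allC06.2.2.2.2.2.2.2.2.2.2.2.2.2.2.2.2.2.2.2.2.2.1

theorem c_1745_1746 : allTr (chkV P V lk) tr_1745_1746 = true := allC06.2.2.2.2.2.2.2.2.2.2.2.2.2.2.2.2.2.2.2.2.2.2.1

theorem c_1964_1965 : allTr (chkV P V lk) tr_1964_1965 = true := allC06.2.2.2.2.2.2.2.2.2.2.2.2.2.2.2.2.2.2.2.2.2.2.2.1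

theorem c_1855_1856 : allTr (chkV P V lk) tr_1855_1856 = true := allC06.2.2.2.2.2.2.2.2.2.2.2.2.2.2.2.2.2.2.2.2.2.2.2.2.1

theorem ck_1860 : (chkV P V lk) 0x100000000000b0002002e002e00014000400140013ffe40003ffe40014001400040004000 = true := allC06.2.2.2.2.2.2.2.2.2.2.2.2.2.2.2.2.2.2.2.2.2.2.2.2.2.1

theorem c_1931_1932 : allTr (chkV P V lk) tr_1931_1932 = true := allC06.2.2.2.2.2.2.2.2.2.2.2.2.2.2.2.2.2.2.2.2.2.2.2.2.2.2.1

theorem ck_1091 : (chkV P V lk) 0xc00010058004f0002400040014000400040003ffd4000400140023fff4000 = true := allC06.2.2.2.2.2.2.2.2.2.2.2.2.2.2.2.2.2.2.2.2.2.2.2.2.2.2.2.1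

theorem c_1648_1649 : allTr (chkV P V lk) tr_1648_1649 = true := allC06.2.2.2.2.2.2.2.2.2.2.2.2.2.2.2.2.2.2.2.2.2.2.2.2.2.2.2.2.1

theorem c_1696_1697 : allTr (chkV P V lk) tr_1696_1697 = true := allC06.2.2.2.2.2.2.2.2.2.2.2.2.2.2.2.2.2.2.2.2.2.2.2.2.2.2.2.2.2.1

theorem c_1538_1539 : allTr (chkV P V lk) tr_1538_1539 = true := allC06.2.2.2.2.2.2.2.2.2.2.2.2.2.2.2.2.2.2.2.2.2.2.2.2.2.2.2.2.2.2.1

theorem c_1801_1802 : allTr (chkV P V lk) tr_1801_1802 = true := allC06.2.2.2.2.2.2.2.2.2.2.2.2.2.2.2.2.2.2.2.2.2.2.2.2.2.2.2.2.2.2.2.1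

theorem c_737_744 : allTr (chkV P V lk) tr_737_744 = true := allC06.2.2.2.2.2.2.2.2.2.2.2.2.2.2.2.2.2.2.2.2.2.2.2.2.2.2.2.2.2.2.2.2.1

theorem c_1191_1195 : allTr (chkV P V lk) tr_1191_1195 = true := allC06.2.2.2.2.2.2.2.2.2.2.2.2.2.2.2.2.2.2.2.2.2.2.2.2.2.2.2.2.2.2.2.2.2.1

theorem c_1644_1645 : allTr (chkV P V lk) tr_1644_1645 = true := allC06.2.2.2.2.2.2.2.2.2.2.2.2.2.2.2.2.2.2.2.2.2.2.2.2.2.2.2.2.2.2.2.2.2.2.1

theorem ck_2002 : (chkV P V lk) 0x100000000000d0002005b005b00014000400140013ffe40003ffe40014001400040004000 = true := allC06.2.2.2.2.2.2.2.2.2.2.2.2.2.2.2.2.2.2.2.2.2.2.2.2.2.2.2.2.2.2.2.2.2.2.2.1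

theorem c_1758_1759 : allTr (chkV P V lk) tr_1758_1759 = true := allC06.2.2.2.2.2.2.2.2.2.2.2.2.2.2.2.2.2.2.2.2.2.2.2.2.2.2.2.2.2.2.2.2.2.2.2.2.1

theorem c_745_760 : allTr (chkV P V lk) tr_745_760 = true := allC06.2.2.2.2.2.2.2.2.2.2.2.2.2.2.2.2.2.2.2.2.2.2.2.2.2.2.2.2.2.2.2.2.2.2.2.2.2.1

theorem c_1505_1506 : allTr (chkV P V lk) tr_1505_1506 = true := allC06.2.2.2.2.2.2.2.2.2.2.2.2.2.2.2.2.2.2.2.2.2.2.2.2.2.2.2.2.2.2.2.2.2.2.2.2.2.2.1

theorem c_1980_1981 : allTr (chkV P V lk) tr_1980_1981 = true := allC06.2.2.2.2.2.2.2.2.2.2.2.2.2.2.2.2.2.2.2.2.2.2.2.2.2.2.2.2.2.2.2.2.2.2.2.2.2.2.2.1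

theorem c_976_991 : allTr (chkV P V lk) tr_976_991 = true := allC06.2.2.2.2.2.2.2.2.2.2.2.2.2.2.2.2.2.2.2.2.2.2.2.2.2.2.2.2.2.2.2.2.2.2.2.2.2.2.2.2.1

theorem c_1720_1721 : allTr (chkV P V lk) tr_1720_1721 = true := allC06.2.2.2.2.2.2.2.2.2.2.2.2.2.2.2.2.2.2.2.2.2.2.2.2.2.2.2.2.2.2.2.2.2.2.2.2.2.2.2.2.2.1

theorem ck_1680 : (chkV P V lk) 0x10000000000080002004f004f00024000400140013ffe40003ffe40014001400040004000 = true := allC06.2.2.2.2.2.2.2.2.2.2.2.2.2.2.2.2.2.2.2.2.2.2.2.2.2.2.2.2.2.2.2.2.2.2.2.2.2.2.2.2.2.2.1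

theorem c_447_454 : allTr (chkV P V lk) tr_447_454 = true := allC06.2.2.2.2.2.2.2.2.2.2.2.2.2.2.2.2.2.2.2.2.2.2.2.2.2.2.2.2.2.2.2.2.2.2.2.2.2.2.2.2.2.2.2.1

theorem c_1935_1936 : allTr (chkV P V lk) tr_1935_1936 = true := allC06.2.2.2.2.2.2.2.2.2.2.2.2.2.2.2.2.2.2.2.2.2.2.2.2.2.2.2.2.2.2.2.2.2.2.2.2.2.2.2.2.2.2.2.2.1

theorem c_1743_1744 : allTr (chkV P V lk) tr_1743_1744 = true := allC06.2.2.2.2.2.2.2.2.2.2.2.2.2.2.2.2.2.2.2.2.2.2.2.2.2.2.2.2.2.2.2.2.2.2.2.2.2.2.2.2.2.2.2.2.2.1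

theorem ck_2006 : (chkV P V lk) 0x100000000000d0002005e005e00014000400140013ffe40003ffe40014001400040004000 = true := allC06.2.2.2.2.2.2.2.2.2.2.2.2.2.2.2.2.2.2.2.2.2.2.2.2.2.2.2.2.2.2.2.2.2.2.2.2.2.2.2.2.2.2.2.2.2.2.1

theorem ck_1300 : (chkV P V lk) 0x1000a00000018000c00003fff40024000400040023fff40003fff40003fff4000 = true := allC06.2.2.2.2.2.2.2.2.2.2.2.2.2.2.2.2.2.2.2.2.2.2.2.2.2.2.2.2.2.2.2.2.2.2.2.2.2.2.2.2.2.2.2.2.2.2.2.1

theorem c_1646_1647 : allTr (chkV P V lk) tr_1646_1647 = true := allC06.2.2.2.2.2.2.2.2.2.2.2.2.2.2.2.2.2.2.2.2.2.2.2.2.2.2.2.2.2.2.2.2.2.2.2.2.2.2.2.2.2.2.2.2.2.2.2.2.1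

theorem c_1739_1740 : allTr (chkV P V lk) tr_1739_1740 = true := allC06.2.2.2.2.2.2.2.2.2.2.2.2.2.2.2.2.2.2.2.2.2.2.2.2.2.2.2.2.2.2.2.2.2.2.2.2.2.2.2.2.2.2.2.2.2.2.2.2.2.1

theorem c_1954_1955 : allTr (chkV P V lk) tr_1954_1955 = true := allC06.2.2.2.2.2.2.2.2.2.2.2.2.2.2.2.2.2.2.2.2.2.2.2.2.2.2.2.2.2.2.2.2.2.2.2.2.2.2.2.2.2.2.2.2.2.2.2.2.2.2.1

theorem ck_1380 : (chkV P V lk) 0x1000c0000004d00320000400240003fff3fff3fff3fff40004002400040004000 = true := allC06.2.2.2.2.2.2.2.2.2.2.2.2.2.2.2.2.2.2.2.2.2.2.2.2.2.2.2.2.2.2.2.2.2.2.2.2.2.2.2.2.2.2.2.2.2.2.2.2.2.2.2.1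

theorem c_1997_1998 : allTr (chkV P V lk) tr_1997_1998 = true := allC06.2.2.2.2.2.2.2.2.2.2.2.2.2.2.2.2.2.2.2.2.2.2.2.2.2.2.2.2.2.2.2.2.2.2.2.2.2.2.2.2.2.2.2.2.2.2.2.2.2.2.2.2.1

theorem ck_1327 : (chkV P V lk) 0x1000b0000002d001800003fff4002400040023fff3fff40004000400040003fff = true := allC06.2.2.2.2.2.2.2.2.2.2.2.2.2.2.2.2.2.2.2.2.2.2.2.2.2.2.2.2.2.2.2.2.2.2.2.2.2.2.2.2.2.2.2.2.2.2.2.2.2.2.2.2.2.1

theorem ck_1979 : (chkV P V lk) 0x100000000000d0002002d002d00014000400140013ffe40003ffe40014001400040004000 = true := allC06.2.2.2.2.2.2.2.2.2.2.2.2.2.2.2.2.2.2.2.2.2.2.2.2.2.2.2.2.2.2.2.2.2.2.2.2.2.2.2.2.2.2.2.2.2.2.2.2.2.2.2.2.2.2.1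

theorem ck_1518 : (chkV P V lk) 0x100000000000500020033003300024000400140013ffe40003ffe40014001400040004000 = true := allC06.2.2.2.2.2.2.2.2.2.2.2.2.2.2.2.2.2.2.2.2.2.2.2.2.2.2.2.2.2.2.2.2.2.2.2.2.2.2.2.2.2.2.2.2.2.2.2.2.2.2.2.2.2.2.2.1

theorem c_237_240 : allTr (chkV P V lk) tr_237_240 = true := allC06.2.2.2.2.2.2.2.2.2.2.2.2.2.2.2.2.2.2.2.2.2.2.2.2.2.2.2.2.2.2.2.2.2.2.2.2.2.2.2.2.2.2.2.2.2.2.2.2.2.2.2.2.2.2.2.2.1

theorem ck_1033 : (chkV P V lk) 0xc0001001f006600014000400340003ffe3fff3ffe400040013fff40024000 = true := allC06.2.2.2.2.2.2.2.2.2.2.2.2.2.2.2.2.2.2.2.2.2.2.2.2.2.2.2.2.2.2.2.2.2.2.2.2.2.2.2.2.2.2.2.2.2.2.2.2.2.2.2.2.2.2.2.2.2.1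

theorem c_893_901 : allTr (chkV P V lk) tr_893_901 = true := allC06.2.2.2.2.2.2.2.2.2.2.2.2.2.2.2.2.2.2.2.2.2.2.2.2.2.2.2.2.2.2.2.2.2.2.2.2.2.2.2.2.2.2.2.2.2.2.2.2.2.2.2.2.2.2.2.2.2.2.1

theorem ck_810 : (chkV P V lk) 0xa00010024001200013fff400040013ffe40003ffe40004000400240004002 = true := allC06.2.2.2.2.2.2.2.2.2.2.2.2.2.2.2.2.2.2.2.2.2.2.2.2.2.2.2.2.2.2.2.2.2.2.2.2.2.2.2.2.2.2.2.2.2.2.2.2.2.2.2.2.2.2.2.2.2.2.2.1

theorem c_1214_1215 : allTr (chkV P V lk) tr_1214_1215 = true := allC06.2.2.2.2.2.2.2.2.2.2.2.2.2.2.2.2.2.2.2.2.2.2.2.2.2.2.2.2.2.2.2.2.2.2.2.2.2.2.2.2.2.2.2.2.2.2.2.2.2.2.2.2.2.2.2.2.2.2.2.2.1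

theorem ck_554 : (chkV P V lk) 0x80001000a001900013fff400140013ffd400240004000400140003fff4000 = true := allC06.2.2.2.2.2.2.2.2.2.2.2.2.2.2.2.2.2.2.2.2.2.2.2.2.2.2.2.2.2.2.2.2.2.2.2.2.2.2.2.2.2.2.2.2.2.2.2.2.2.2.2.2.2.2.2.2.2.2.2.2.2.1

theorem ck_835 : (chkV P V lk) 0xa0001002d003a00024000400040003ffd3fff3ffe40034001400040004002 = true := allC06.2.2.2.2.2.2.2.2.2.2.2.2.2.2.2.2.2.2.2.2.2.2.2.2.2.2.2.2.2.2.2.2.2.2.2.2.2.2.2.2.2.2.2.2.2.2.2.2.2.2.2.2.2.2.2.2.2.2.2.2.2.2.1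

theorem ck_1174 : (chkV P V lk) 0xd00010016006300024000400140033ffe3fff3ffd40004000400040024000 = true := allC06.2.2.2.2.2.2.2.2.2.2.2.2.2.2.2.2.2.2.2.2.2.2.2.2.2.2.2.2.2.2.2.2.2.2.2.2.2.2.2.2.2.2.2.2.2.2.2.2.2.2.2.2.2.2.2.2.2.2.2.2.2.2.2.1

theorem ck_661 : (chkV P V lk) 0x900000033002a00023fff40003fff400040043ffd40014001400140003ffe = true := allC06.2.2.2.2.2.2.2.2.2.2.2.2.2.2.2.2.2.2.2.2.2.2.2.2.2.2.2.2.2.2.2.2.2.2.2.2.2.2.2.2.2.2.2.2.2.2.2.2.2.2.2.2.2.2.2.2.2.2.2.2.2.2.2.2.1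

theorem ck_66 : (chkV P V lk) 0x20062004e0006400240023ffe3ffd40003ffe40014001400140004000 = true := allC06.2.2.2.2.2.2.2.2.2.2.2.2.2.2.2.2.2.2.2.2.2.2.2.2.2.2.2.2.2.2.2.2.2.2.2.2.2.2.2.2.2.2.2.2.2.2.2.2.2.2.2.2.2.2.2.2.2.2.2.2.2.2.2.2.2

end MPbbea99G.E11
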