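import Pool.Agent.Lib.Pbbea99G.E11.Data
import Pool.Agent.Lib.Pbbea99G.Piece

/-!
# MP_bbea99_co: closure of the templates
-/

namespace MPbbea99G.E11

open MPbbea99S MPbbea99T MPbbea99G Finset

mutual

theorem C07_6_p0 : allN (fun j => chkV1 P V lk 0x100000001000d0001001b001b000040004000400040004000400040004000400040004000 (0 + j)) 49 = true := by decide +kernel

theorem C07_6_p1 : allN (fun j => chkV1 P V lk 0x100000001000d0001001b001b000040004000400040004000400040004000400040004000 (49 + j)) 48 = true := by decide +kernel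

theorem C07_2_p0 : allN (fun j => chkV1 P V lk 0x100000001000d000100480048000040004000400040004000400040004000400040004000 (0 + j)) 49 = true := by decide +kernel

theorem C07_2_p1 : allN (fun j => chkV1 P V lk 0x100000001000d000100480048000040004000400040004000400040004000400040004000 (49 + j)) 48 = true := by decide +kernel

theorem C07_3_p0 : allN (fun j => chkV1 P V lk 0x100000001000c000100330033000040004000400040004000400040004000400040004000 (0 + j)) 49 = true := by decide +kernel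

theorem C07_3_p1 : allN (fun j => chkV1 P V lk 0x100000001000c000100330033000040004000400040004000400040004000400040004000 (49 + j)) 48 = true := by decide +kernel

theorem C07_4_p0 : allN (fun j => chkV1 P V lk 0x100000001000c000100270027000040004000400040004000400040004000400040004000 (0 + j)) 49 = true := by decide +kernel

theorem C07_4_p1 : allN (fun j => chkV1 P V lk 0x100000001000c000100270027000040004000400040004000400040004000400040004000 (49 + j)) 48 = true := by decide +kernel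

theorem C07_1_p0 : allN (fun j => chkV1 P V lk 0x100000001000a0001000b000b000040004000400040004000400040004000400040004000 (0 + j)) 33 = true := by decide +kernel

theorem C07_1_p1 : allN (fun j => chkV1 P V lk 0x100000001000a0001000b000b000040004000400040004000400040004000400040004000 (33 + j)) 33 = true := by decide +kernel

theorem C07_1_p2 : allN (fun j => chkV1 P V lk 0x100000001000a0001000b000b000040004000400040004000400040004000400040004000 (66 + j)) 31 = true := by decide +kernel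

end

theorem allC07 :
    (allTr (chkV P V lk) tr_2026_2027 = true) ∧
    (allTr (chkV P V lk) tr_2104_2105 = true) ∧
    (allTr (chkV P V lk) tr_2071_2072 = true) ∧
    (allTr (chkV P V lk) tr_2059_2060 = true) ∧
    (allTr (chkV P V lk) tr_2067_2068 = true) ∧
    ((chkV P V lk) 0x100000001000d0001001b001b000040004000400040004000400040004000400040004000 = true) ∧
    ((chkV P V lk) 0x1000000010001000300010001400040014000400040003ffd4000400140023fff4000 = true) ∧
    (allTr (chkV P V lk) tr_588_595 = true) ∧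
    (allTr (chkV P V lk) tr_852_859 = true) ∧
    (allTr (chkV P V lk) tr_1241_1256 = true) ∧
    (allTr (chkV P V lk) tr_1546_1547 = true) ∧
    ((chkV P V lk) 0x100000000000c0002004a004a00024000400140013ffe40003ffe40014001400040004000 = true) ∧
    (allTr (chkV P V lk) tr_1088_1091 = true) ∧
    ((chkV P V lk) 0x100000000000b00020008000800024000400140013ffe40003ffe40014001400040004000 = true) ∧
    ((chkV P V lk) 0x100000000000a00020065006500014000400140013ffe40003ffe40014001400040004000 = true) ∧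
    (allTr (chkV P V lk) tr_1571_1572 = true) ∧
    (allTr (chkV P V lk) tr_1511_1512 = true) ∧
    ((chkV P V lk) 0x100000000000b0002002f002f00014000400140013ffe40003ffe40014001400040004000 = true) ∧
    ((chkV P V lk) 0x100000000000d00020051005100024000400140013ffe40003ffe40014001400040004000 = true) ∧
    ((chkV P V lk) 0x100000000000d0002000d000d00014000400140013ffe40003ffe40014001400040004000 = true) ∧
    (allTr (chkV P V lk) tr_1687_1688 = true) ∧
    (allTr (chkV P V lk) tr_918_925 = true) ∧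
    (allTr (chkV P V lk) tr_1921_1922 = true) ∧
    ((chkV P V lk) 0x100000000000d0002002a002a00024000400140013ffe40003ffe40014001400040004000 = true) ∧
    (allTr (chkV P V lk) tr_1826_1827 = true) ∧
    ((chkV P V lk) 0x100000000000b00020020002000024000400140013ffe40003ffe40014001400040004000 = true) ∧
    ((chkV P V lk) 0x100000000000600020042004200014000400140013ffe40003ffe40014001400040004000 = true) ∧
    (allTr (chkV P V lk) tr_1617_1618 = true) ∧
    (allTr (chkV P V lk) tr_1369_1370 = true) ∧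
    (allTr (chkV P V lk) tr_1865_1866 = true) ∧
    (allTr (chkV P V lk) tr_1725_1726 = true) ∧
    ((chkV P V lk) 0x100000000000c0002003a003a00024000400140013ffe40003ffe40014001400040004000 = true) ∧
    ((chkV P V lk) 0x1000b0000001f001000003fff3fff3fff40004002400040004000400240003fff = true) ∧
    (allTr (chkV P V lk) tr_1398_1399 = true) ∧
    (allTr (chkV P V lk) tr_1439_1440 = true) ∧
    (allTr (chkV P V lk) tr_1844_1845 = true) ∧
    (allTr (chkV P V lk) tr_1278_1279 = true) ∧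
    (allTr (chkV P V lk) tr_1307_1308 = true) ∧
    (allTr (chkV P V lk) tr_951_954 = true) ∧
    (allTr (chkV P V lk) tr_1892_1893 = true) ∧
    ((chkV P V lk) 0x10000000000040002001a001a00024000400140013ffe40003ffe40014001400040004000 = true) ∧
    (allTr (chkV P V lk) tr_1710_1711 = true) ∧
    (allTr (chkV P V lk) tr_1947_1948 = true) ∧
    ((chkV P V lk) 0x1000d00000062004e0000400240003fff3fff400040023fff4000400040003fff = true) ∧
    (allTr (chkV P V lk) tr_827_835 = true) ∧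
    (allTr (chkV P V lk) tr_1332_1333 = true) ∧
    (allTr (chkV P V lk) tr_844_851 = true) ∧
    (allTr (chkV P V lk) tr_1663_1664 = true) ∧
    ((chkV P V lk) 0x100000000000a00020004000400014000400140013ffe40003ffe40014001400040004000 = true) ∧
    ((chkV P V lk) 0x100000000000d0002002f002f00024000400140013ffe40003ffe40014001400040004000 = true) ∧
    (allTr (chkV P V lk) tr_1309_1310 = true) ∧
    (allTr (chkV P V lk) tr_1704_1705 = true) ∧
    ((chkV P V lk) 0x100000000000b00020057005700024000400140013ffe40003ffe40014001400040004000 = true) ∧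
    ((chkV P V lk) 0x1000d0000000b000500003fff3fff4002400040023fff3fff4000400040004000 = true) ∧
    (allTr (chkV P V lk) tr_1075_1079 = true) ∧
    (allTr (chkV P V lk) tr_340_343 = true) ∧
    (allTr (chkV P V lk) tr_1615_1616 = true) ∧
    ((chkV P V lk) 0xb00010012000800023fff400140013ffe3fff4000400140003fff40004002 = true) ∧
    ((chkV P V lk) 0x400010008001500024000400140013ffd3fff4000400140033fff3fff4000 = true) ∧
    ((chkV P V lk) 0x500010014002900014000400340003ffe3fff3ffe400040013fff40024000 = true) ∧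
    ((chkV P V lk) 0xc00010022003f00013fff400140013ffe40003ffd40004003400040023fff = true) ∧
    ((chkV P V lk) 0xb0001004d003200014002400140003ffd3fff3ffd40014003400040004000 = true) ∧
    ((chkV P V lk) 0x10000000000020007000300034000400140023ffe40003ffe400140003ffd40014002 = true) ∧
    ((chkV P V lk) 0x800010060004600023fff400340033ffd40003ffe400040013fff40004000 = true) ∧
    ((chkV P V lk) 0x800000010006a00014000400040003fff40043ffd400140033ffe40003ffe = true) :=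
  ⟨allTr_mk (chkV_of (by decide +kernel) (rng_cons C07_1_p0 rfl (rng_cons C07_1_p1 rfl (rng_cons C07_1_p2 rfl (rng_end (Nat.le_of_eq rfl)))))) rfl rfl,
  allTr_mk (chkV_of (by decide +kernel) (rng_cons C07_2_p0 rfl (rng_cons C07_2_p1 rfl (rng_end (Nat.le_of_eq rfl))))) rfl rfl,
  allTr_mk (chkV_of (by decide +kernel) (rng_cons C07_3_p0 rfl (rng_cons C07_3_p1 rfl (rng_end (Nat.le_of_eq rfl))))) rfl rfl,
  allTr_mk (chkV_of (by decide +kernel) (rng_cons C07_4_p0 rfl (rng_cons C07_4_p1 rfl (rng_end (Nat.le_of_eq rfl))))) rfl rfl,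
  by decide +kernel,
  chkV_of (by decide +kernel) (rng_cons C07_6_p0 rfl (rng_cons C07_6_p1 rfl (rng_end (Nat.le_of_eq rfl)))),
  by decide +kernel,
  by decide +kernel,
  by decide +kernel,
  by decide +kernel,
  by decide +kernel,
  by decide +kernel,
  by decide +kernel,
  by decide +kernel,
  by decide +kernel,
  by decide +kernel,
  by decide +kernel,
  by decide +kernel,
  by decide +kernel,
  by decide +kernel,
  by decide +kernel,
  by decide +kernel,
  by decide +kernel,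
  by decide +kernel,
  by decide +kernel,
  by decide +kernel,
  by decide +kernel,
  by decide +kernel,
  by decide +kernel,
  by decide +kernel,
  by decide +kernel,
  by decide +kernel,
  by decide +kernel,
  by decide +kernel,
  by decide +kernel,
  by decide +kernel,
  by decide +kernel,
  by decide +kernel,
  by decide +kernel,
  by decide +kernel,
  by decide +kernel,
  by decide +kernel,
  by decide +kernel,
  by decide +kernel,
  by decide +kernel,
  by decide +kernel,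
  by decide +kernel,
  by decide +kernel,
  by decide +kernel,
  by decide +kernel,
  by decide +kernel,
  by decide +kernel,
  by decide +kernel,
  by decide +kernel,
  by decide +kernel,
  by decide +kernel,
  by decide +kernel,
  by decide +kernel,
  by decide +kernel,
  by decide +kernel,
  by decide +kernel,
  by decide +kernel,
  by decide +kernel,
  by decide +kernel,
  by decide +kernel⟩

theorem c_2026_2027 : allTr (chkV P V lk) tr_2026_2027 = true := allC07.1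

theorem c_2104_2105 : allTr (chkV P V lk) tr_2104_2105 = true := allC07.2.1

theorem c_2071_2072 : allTr (chkV P V lk) tr_2071_2072 = true := allC07.2.2.1

theorem c_2059_2060 : allTr (chkV P V lk) tr_2059_2060 = true := allC07.2.2.2.1

theorem c_2067_2068 : allTr (chkV P V lk) tr_2067_2068 = true := allC07.2.2.2.2.1

theorem ck_2085 : (chkV P V lk) 0x100000001000d0001001b001b000040004000400040004000400040004000400040004000 = true := allC07.2.2.2.2.2.1

theorem ck_1456 : (chkV P V lk) 0x1000000010001000300010001400040014000400040003ffd4000400140023fff4000 = true := allC07.2.2.2.2.2.2.1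

theorem c_588_595 : allTr (chkV P V lk) tr_588_595 = true := allC07.2.2.2.2.2.2.2.1

theorem c_852_859 : allTr (chkV P V lk) tr_852_859 = true := allC07.2.2.2.2.2.2.2.2.1

theorem c_1241_1256 : allTr (chkV P V lk) tr_1241_1256 = true := allC07.2.2.2.2.2.2.2.2.2.1

theorem c_1546_1547 : allTr (chkV P V lk) tr_1546_1547 = true := allC07.2.2.2.2.2.2.2.2.2.2.1

theorem ck_1934 : (chkV P V lk) 0x100000000000c0002004a004a00024000400140013ffe40003ffe40014001400040004000 = true := allC07.2.2.2.2.2.2.2.2.2.2.2.1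

theorem c_1088_1091 : allTr (chkV P V lk) tr_1088_1091 = true := allC07.2.2.2.2.2.2.2.2.2.2.2.2.1

theorem ck_1823 : (chkV P V lk) 0x100000000000b00020008000800024000400140013ffe40003ffe40014001400040004000 = true := allC07.2.2.2.2.2.2.2.2.2.2.2.2.2.1

theorem ck_1816 : (chkV P V lk) 0x100000000000a00020065006500014000400140013ffe40003ffe40014001400040004000 = true := allC07.2.2.2.2.2.2.2.2.2.2.2.2.2.2.1

theorem c_1571_1572 : allTr (chkV P V lk) tr_1571_1572 = true := allC07.2.2.2.2.2.2.2.2.2.2.2.2.2.2.2.1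

theorem c_1511_1512 : allTr (chkV P V lk) tr_1511_1512 = true := allC07.2.2.2.2.2.2.2.2.2.2.2.2.2.2.2.2.1

theorem ck_1862 : (chkV P V lk) 0x100000000000b0002002f002f00014000400140013ffe40003ffe40014001400040004000 = true := allC07.2.2.2.2.2.2.2.2.2.2.2.2.2.2.2.2.2.1

theorem ck_1990 : (chkV P V lk) 0x100000000000d00020051005100024000400140013ffe40003ffe40014001400040004000 = true := allC07.2.2.2.2.2.2.2.2.2.2.2.2.2.2.2.2.2.2.1

theorem ck_1952 : (chkV P V lk) 0x100000000000d0002000d000d00014000400140013ffe40003ffe40014001400040004000 = true := allC07.2.2.2.2.2.2.2.2.2.2.2.2.2.2.2.2.2.2.2.1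

theorem c_1687_1688 : allTr (chkV P V lk) tr_1687_1688 = true := allC07.2.2.2.2.2.2.2.2.2.2.2.2.2.2.2.2.2.2.2.2.1

theorem c_918_925 : allTr (chkV P V lk) tr_918_925 = true := allC07.2.2.2.2.2.2.2.2.2.2.2.2.2.2.2.2.2.2.2.2.2.1

theorem c_1921_1922 : allTr (chkV P V lk) tr_1921_1922 = true := allC07.2.2.2.2.2.2.2.2.2.2.2.2.2.2.2.2.2.2.2.2.2.2.1

theorem ck_1975 : (chkV P V lk) 0x100000000000d0002002a002a00024000400140013ffe40003ffe40014001400040004000 = true := allC07.2.2.2.2.2.2.2.2.2.2.2.2.2.2.2.2.2.2.2.2.2.2.2.1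

theorem c_1826_1827 : allTr (chkV P V lk) tr_1826_1827 = true := allC07.2.2.2.2.2.2.2.2.2.2.2.2.2.2.2.2.2.2.2.2.2.2.2.2.1

theorem ck_1837 : (chkV P V lk) 0x100000000000b00020020002000024000400140013ffe40003ffe40014001400040004000 = true := allC07.2.2.2.2.2.2.2.2.2.2.2.2.2.2.2.2.2.2.2.2.2.2.2.2.2.1

theorem ck_1553 : (chkV P V lk) 0x100000000000600020042004200014000400140013ffe40003ffe40014001400040004000 = true := allC07.2.2.2.2.2.2.2.2.2.2.2.2.2.2.2.2.2.2.2.2.2.2.2.2.2.2.1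

theorem c_1617_1618 : allTr (chkV P V lk) tr_1617_1618 = true := allC07.2.2.2.2.2.2.2.2.2.2.2.2.2.2.2.2.2.2.2.2.2.2.2.2.2.2.2.1

theorem c_1369_1370 : allTr (chkV P V lk) tr_1369_1370 = true := allC07.2.2.2.2.2.2.2.2.2.2.2.2.2.2.2.2.2.2.2.2.2.2.2.2.2.2.2.2.1

theorem c_1865_1866 : allTr (chkV P V lk) tr_1865_1866 = true := allC07.2.2.2.2.2.2.2.2.2.2.2.2.2.2.2.2.2.2.2.2.2.2.2.2.2.2.2.2.2.1

theorem c_1725_1726 : allTr (chkV P V lk) tr_1725_1726 = true := allC07.2.2.2.2.2.2.2.2.2.2.2.2.2.2.2.2.2.2.2.2.2.2.2.2.2.2.2.2.2.2.1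

theorem ck_1911 : (chkV P V lk) 0x100000000000c0002003a003a00024000400140013ffe40003ffe40014001400040004000 = true := allC07.2.2.2.2.2.2.2.2.2.2.2.2.2.2.2.2.2.2.2.2.2.2.2.2.2.2.2.2.2.2.2.1

theorem ck_1312 : (chkV P V lk) 0x1000b0000001f001000003fff3fff3fff40004002400040004000400240003fff = true := allC07.2.2.2.2.2.2.2.2.2.2.2.2.2.2.2.2.2.2.2.2.2.2.2.2.2.2.2.2.2.2.2.2.1

theorem c_1398_1399 : allTr (chkV P V lk) tr_1398_1399 = true := allC07.2.2.2.2.2.2.2.2.2.2.2.2.2.2.2.2.2.2.2.2.2.2.2.2.2.2.2.2.2.2.2.2.2.1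

theorem c_1439_1440 : allTr (chkV P V lk) tr_1439_1440 = true := allC07.2.2.2.2.2.2.2.2.2.2.2.2.2.2.2.2.2.2.2.2.2.2.2.2.2.2.2.2.2.2.2.2.2.2.1

theorem c_1844_1845 : allTr (chkV P V lk) tr_1844_1845 = true := allC07.2.2.2.2.2.2.2.2.2.2.2.2.2.2.2.2.2.2.2.2.2.2.2.2.2.2.2.2.2.2.2.2.2.2.2.1

theorem c_1278_1279 : allTr (chkV P V lk) tr_1278_1279 = true := allC07.2.2.2.2.2.2.2.2.2.2.2.2.2.2.2.2.2.2.2.2.2.2.2.2.2.2.2.2.2.2.2.2.2.2.2.2.1

theorem c_1307_1308 : allTr (chkV P V lk) tr_1307_1308 = true := allC07.2.2.2.2.2.2.2.2.2.2.2.2.2.2.2.2.2.2.2.2.2.2.2.2.2.2.2.2.2.2.2.2.2.2.2.2.2.1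

theorem c_951_954 : allTr (chkV P V lk) tr_951_954 = true := allC07.2.2.2.2.2.2.2.2.2.2.2.2.2.2.2.2.2.2.2.2.2.2.2.2.2.2.2.2.2.2.2.2.2.2.2.2.2.2.1

theorem c_1892_1893 : allTr (chkV P V lk) tr_1892_1893 = true := allC07.2.2.2.2.2.2.2.2.2.2.2.2.2.2.2.2.2.2.2.2.2.2.2.2.2.2.2.2.2.2.2.2.2.2.2.2.2.2.2.1

theorem ck_1487 : (chkV P V lk) 0x10000000000040002001a001a00024000400140013ffe40003ffe40014001400040004000 = true := allC07.2.2.2.2.2.2.2.2.2.2.2.2.2.2.2.2.2.2.2.2.2.2.2.2.2.2.2.2.2.2.2.2.2.2.2.2.2.2.2.2.1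

theorem c_1710_1711 : allTr (chkV P V lk) tr_1710_1711 = true := allC07.2.2.2.2.2.2.2.2.2.2.2.2.2.2.2.2.2.2.2.2.2.2.2.2.2.2.2.2.2.2.2.2.2.2.2.2.2.2.2.2.2.1

theorem c_1947_1948 : allTr (chkV P V lk) tr_1947_1948 = true := allC07.2.2.2.2.2.2.2.2.2.2.2.2.2.2.2.2.2.2.2.2.2.2.2.2.2.2.2.2.2.2.2.2.2.2.2.2.2.2.2.2.2.2.1

theorem ck_1438 : (chkV P V lk) 0x1000d00000062004e0000400240003fff3fff400040023fff4000400040003fff = true := allC07.2.2.2.2.2.2.2.2.2.2.2.2.2.2.2.2.2.2.2.2.2.2.2.2.2.2.2.2.2.2.2.2.2.2.2.2.2.2.2.2.2.2.2.1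

theorem c_827_835 : allTr (chkV P V lk) tr_827_835 = true := allC07.2.2.2.2.2.2.2.2.2.2.2.2.2.2.2.2.2.2.2.2.2.2.2.2.2.2.2.2.2.2.2.2.2.2.2.2.2.2.2.2.2.2.2.2.1

theorem c_1332_1333 : allTr (chkV P V lk) tr_1332_1333 = true := allC07.2.2.2.2.2.2.2.2.2.2.2.2.2.2.2.2.2.2.2.2.2.2.2.2.2.2.2.2.2.2.2.2.2.2.2.2.2.2.2.2.2.2.2.2.2.1

theorem c_844_851 : allTr (chkV P V lk) tr_844_851 = true := allC07.2.2.2.2.2.2.2.2.2.2.2.2.2.2.2.2.2.2.2.2.2.2.2.2.2.2.2.2.2.2.2.2.2.2.2.2.2.2.2.2.2.2.2.2.2.2.1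

theorem c_1663_1664 : allTr (chkV P V lk) tr_1663_1664 = true := allC07.2.2.2.2.2.2.2.2.2.2.2.2.2.2.2.2.2.2.2.2.2.2.2.2.2.2.2.2.2.2.2.2.2.2.2.2.2.2.2.2.2.2.2.2.2.2.2.1

theorem ck_1761 : (chkV P V lk) 0x100000000000a00020004000400014000400140013ffe40003ffe40014001400040004000 = true := allC07.2.2.2.2.2.2.2.2.2.2.2.2.2.2.2.2.2.2.2.2.2.2.2.2.2.2.2.2.2.2.2.2.2.2.2.2.2.2.2.2.2.2.2.2.2.2.2.2.1

theorem ck_1983 : (chkV P V lk) 0x100000000000d0002002f002f00024000400140013ffe40003ffe40014001400040004000 = true := allC07.2.2.2.2.2.2.2.2.2.2.2.2.2.2.2.2.2.2.2.2.2.2.2.2.2.2.2.2.2.2.2.2.2.2.2.2.2.2.2.2.2.2.2.2.2.2.2.2.2.1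

theorem c_1309_1310 : allTr (chkV P V lk) tr_1309_1310 = true := allC07.2.2.2.2.2.2.2.2.2.2.2.2.2.2.2.2.2.2.2.2.2.2.2.2.2.2.2.2.2.2.2.2.2.2.2.2.2.2.2.2.2.2.2.2.2.2.2.2.2.2.1

theorem c_1704_1705 : allTr (chkV P V lk) tr_1704_1705 = true := allC07.2.2.2.2.2.2.2.2.2.2.2.2.2.2.2.2.2.2.2.2.2.2.2.2.2.2.2.2.2.2.2.2.2.2.2.2.2.2.2.2.2.2.2.2.2.2.2.2.2.2.2.1

theorem ck_1876 : (chkV P V lk) 0x100000000000b00020057005700024000400140013ffe40003ffe40014001400040004000 = true := allC07.2.2.2.2.2.2.2.2.2.2.2.2.2.2.2.2.2.2.2.2.2.2.2.2.2.2.2.2.2.2.2.2.2.2.2.2.2.2.2.2.2.2.2.2.2.2.2.2.2.2.2.2.1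

theorem ck_1388 : (chkV P V lk) 0x1000d0000000b000500003fff3fff4002400040023fff3fff4000400040004000 = true := allC07.2.2.2.2.2.2.2.2.2.2.2.2.2.2.2.2.2.2.2.2.2.2.2.2.2.2.2.2.2.2.2.2.2.2.2.2.2.2.2.2.2.2.2.2.2.2.2.2.2.2.2.2.2.1

theorem c_1075_1079 : allTr (chkV P V lk) tr_1075_1079 = true := allC07.2.2.2.2.2.2.2.2.2.2.2.2.2.2.2.2.2.2.2.2.2.2.2.2.2.2.2.2.2.2.2.2.2.2.2.2.2.2.2.2.2.2.2.2.2.2.2.2.2.2.2.2.2.2.1

theorem c_340_343 : allTr (chkV P V lk) tr_340_343 = true := allC07.2.2.2.2.2.2.2.2.2.2.2.2.2.2.2.2.2.2.2.2.2.2.2.2.2.2.2.2.2.2.2.2.2.2.2.2.2.2.2.2.2.2.2.2.2.2.2.2.2.2.2.2.2.2.2.1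

theorem c_1615_1616 : allTr (chkV P V lk) tr_1615_1616 = true := allC07.2.2.2.2.2.2.2.2.2.2.2.2.2.2.2.2.2.2.2.2.2.2.2.2.2.2.2.2.2.2.2.2.2.2.2.2.2.2.2.2.2.2.2.2.2.2.2.2.2.2.2.2.2.2.2.2.1

theorem ck_909 : (chkV P V lk) 0xb00010012000800023fff400140013ffe3fff4000400140003fff40004002 = true := allC07.2.2.2.2.2.2.2.2.2.2.2.2.2.2.2.2.2.2.2.2.2.2.2.2.2.2.2.2.2.2.2.2.2.2.2.2.2.2.2.2.2.2.2.2.2.2.2.2.2.2.2.2.2.2.2.2.2.1

theorem ck_165 : (chkV P V lk) 0x400010008001500024000400140013ffd3fff4000400140033fff3fff4000 = true := allC07.2.2.2.2.2.2.2.2.2.2.2.2.2.2.2.2.2.2.2.2.2.2.2.2.2.2.2.2.2.2.2.2.2.2.2.2.2.2.2.2.2.2.2.2.2.2.2.2.2.2.2.2.2.2.2.2.2.2.1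

theorem ck_240 : (chkV P V lk) 0x500010014002900014000400340003ffe3fff3ffe400040013fff40024000 = true := allC07.2.2.2.2.2.2.2.2.2.2.2.2.2.2.2.2.2.2.2.2.2.2.2.2.2.2.2.2.2.2.2.2.2.2.2.2.2.2.2.2.2.2.2.2.2.2.2.2.2.2.2.2.2.2.2.2.2.2.2.1

theorem ck_1041 : (chkV P V lk) 0xc00010022003f00013fff400140013ffe40003ffd40004003400040023fff = true := allC07.2.2.2.2.2.2.2.2.2.2.2.2.2.2.2.2.2.2.2.2.2.2.2.2.2.2.2.2.2.2.2.2.2.2.2.2.2.2.2.2.2.2.2.2.2.2.2.2.2.2.2.2.2.2.2.2.2.2.2.2.1

theorem ck_967 : (chkV P V lk) 0xb0001004d003200014002400140003ffd3fff3ffd40014003400040004000 = true := allC07.2.2.2.2.2.2.2.2.2.2.2.2.2.2.2.2.2.2.2.2.2.2.2.2.2.2.2.2.2.2.2.2.2.2.2.2.2.2.2.2.2.2.2.2.2.2.2.2.2.2.2.2.2.2.2.2.2.2.2.2.2.1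

theorem ck_1446 : (chkV P V lk) 0x10000000000020007000300034000400140023ffe40003ffe400140003ffd40014002 = true := allC07.2.2.2.2.2.2.2.2.2.2.2.2.2.2.2.2.2.2.2.2.2.2.2.2.2.2.2.2.2.2.2.2.2.2.2.2.2.2.2.2.2.2.2.2.2.2.2.2.2.2.2.2.2.2.2.2.2.2.2.2.2.2.1

theorem ck_628 : (chkV P V lk) 0x800010060004600023fff400340033ffd40003ffe400040013fff40004000 = true := allC07.2.2.2.2.2.2.2.2.2.2.2.2.2.2.2.2.2.2.2.2.2.2.2.2.2.2.2.2.2.2.2.2.2.2.2.2.2.2.2.2.2.2.2.2.2.2.2.2.2.2.2.2.2.2.2.2.2.2.2.2.2.2.2.1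

theorem ck_528 : (chkV P V lk) 0x800000010006a00014000400040003fff40043ffd400140033ffe40003ffe = true := allC07.2.2.2.2.2.2.2.2.2.2.2.2.2.2.2.2.2.2.2.2.2.2.2.2.2.2.2.2.2.2.2.2.2.2.2.2.2.2.2.2.2.2.2.2.2.2.2.2.2.2.2.2.2.2.2.2.2.2.2.2.2.2.2.2

end MPbbea99G.E11
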