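import Pool.Agent.Lib.Pbbea99G.E11.Data
import Pool.Agent.Lib.Pbbea99G.Piece

/-!
# MP_bbea99_co: closure of the templates
-/

namespace MPbbea99G.E11

open MPbbea99S MPbbea99T MPbbea99G Finset

mutual

theorem C13_3_p0 : allN (fun j => chkV1 P V lk 0x100000001000c000100310031000040004000400040004000400040004000400040004000 (0 + j)) 49 = true := by decide +kernel

theorem C13_3_p1 : allN (fun j => chkV1 P V lk 0x100000001000c000100310031000040004000400040004000400040004000400040004000 (49 + j)) 48 = true := by decide +kernel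

theorem C13_2_p0 : allN (fun j => chkV1 P V lk 0x100000001000a000100080008000040004000400040004000400040004000400040004000 (0 + j)) 49 = true := by decide +kernel

theorem C13_2_p1 : allN (fun j => chkV1 P V lk 0x100000001000a000100080008000040004000400040004000400040004000400040004000 (49 + j)) 48 = true := by decide +kernel

theorem C13_5_p0 : allN (fun j => chkV1 P V lk 0x100000001000d000100420042000040004000400040004000400040004000400040004000 (0 + j)) 49 = true := by decide +kernel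

theorem C13_5_p1 : allN (fun j => chkV1 P V lk 0x100000001000d000100420042000040004000400040004000400040004000400040004000 (49 + j)) 48 = true := by decide +kernel

theorem C13_1_p0 : allN (fun j => chkV1 P V lk 0x100010007000000010000000040003fff3fff4002400040023fff3fff400040004000 (0 + j)) 33 = true := by decide +kernel

theorem C13_1_p1 : allN (fun j => chkV1 P V lk 0x100010007000000010000000040003fff3fff4002400040023fff3fff400040004000 (33 + j)) 33 = true := by decide +kernel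

theorem C13_1_p2 : allN (fun j => chkV1 P V lk 0x100010007000000010000000040003fff3fff4002400040023fff3fff400040004000 (66 + j)) 31 = true := by decide +kernel

theorem C13_6_p0 : allN (fun j => chkV1 P V lk 0x100000001000c000100250025000040004000400040004000400040004000400040004000 (0 + j)) 49 = true := by decide +kernel

theorem C13_6_p1 : allN (fun j => chkV1 P V lk 0x100000001000c000100250025000040004000400040004000400040004000400040004000 (49 + j)) 48 = true := by decide +kernel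

end

theorem allC13 :
    (allTr (chkV P V lk) tr_1460_1461 = true) ∧
    ((chkV P V lk) 0x100000001000a000100080008000040004000400040004000400040004000400040004000 = true) ∧
    (allTr (chkV P V lk) tr_2069_2070 = true) ∧
    (allTr (chkV P V lk) tr_2090_2091 = true) ∧
    (allTr (chkV P V lk) tr_2098_2099 = true) ∧
    (allTr (chkV P V lk) tr_2057_2058 = true) ∧
    ((chkV P V lk) 0x100000001000d000100500050000040004000400040004000400040004000400040004000 = true) ∧
    ((chkV P V lk) 0xd0001003b002100024000400040013ffe3fff400040034000400040003fff = true) ∧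
    (allTr (chkV P V lk) tr_133_149 = true) ∧
    (allTr (chkV P V lk) tr_761_793 = true) ∧
    (allTr (chkV P V lk) tr_245_248 = true) ∧
    ((chkV P V lk) 0x1000d00000055004800003fff400040023fff4000400040003fff400240003fff = true) ∧
    (allTr (chkV P V lk) tr_1478_1479 = true) ∧
    ((chkV P V lk) 0x100000000000700020051005100014000400140013ffe40003ffe40014001400040004000 = true) ∧
    (allTr (chkV P V lk) tr_1464_1465 = true) ∧
    (allTr (chkV P V lk) tr_1737_1738 = true) ∧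
    (allTr (chkV P V lk) tr_1619_1620 = true) ∧
    (allTr (chkV P V lk) tr_1420_1421 = true) ∧
    ((chkV P V lk) 0x100000000000900020021002100014000400140013ffe40003ffe40014001400040004000 = true) ∧
    ((chkV P V lk) 0x100000000000a0002003d003d00024000400140013ffe40003ffe40014001400040004000 = true) ∧
    ((chkV P V lk) 0x100000000000700020061006100024000400140013ffe40003ffe40014001400040004000 = true) ∧
    (allTr (chkV P V lk) tr_1579_1580 = true) ∧
    ((chkV P V lk) 0x1000c00000047002e000040024000400040023fff40003fff40003fff40003fff = true) ∧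
    (allTr (chkV P V lk) tr_1042_1049 = true) ∧
    (allTr (chkV P V lk) tr_1406_1407 = true) ∧
    (allTr (chkV P V lk) tr_1885_1886 = true) ∧
    (allTr (chkV P V lk) tr_1805_1806 = true) ∧
    (allTr (chkV P V lk) tr_1939_1940 = true) ∧
    ((chkV P V lk) 0x100000000000c00020019001900024000400140013ffe40003ffe40014001400040004000 = true) ∧
    (allTr (chkV P V lk) tr_1822_1823 = true) ∧
    (allTr (chkV P V lk) tr_1587_1588 = true) ∧
    ((chkV P V lk) 0x100000000000c0002003f003f00014000400140013ffe40003ffe40014001400040004000 = true) ∧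
    (allTr (chkV P V lk) tr_695_703 = true) ∧
    ((chkV P V lk) 0x100000000000d00020029002900024000400140013ffe40003ffe40014001400040004000 = true) ∧
    (allTr (chkV P V lk) tr_1776_1777 = true) ∧
    (allTr (chkV P V lk) tr_1429_1430 = true) ∧
    (allTr (chkV P V lk) tr_1828_1829 = true) ∧
    (allTr (chkV P V lk) tr_1299_1300 = true) ∧
    ((chkV P V lk) 0x100000000000700020027002700014000400140013ffe40003ffe40014001400040004000 = true) ∧
    ((chkV P V lk) 0x10000000000070002002d002d00024000400140013ffe40003ffe40014001400040004000 = true) ∧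
    ((chkV P V lk) 0x100000000000300020008000800014000400140013ffe40003ffe40014001400040004000 = true) ∧
    (allTr (chkV P V lk) tr_1675_1676 = true) ∧
    ((chkV P V lk) 0x100000000000700020001000100024000400140013ffe40003ffe40014001400040004000 = true) ∧
    ((chkV P V lk) 0x100000000000600020012001200024000400140013ffe40003ffe40014001400040004000 = true) ∧
    (allTr (chkV P V lk) tr_1677_1678 = true) ∧
    ((chkV P V lk) 0x100000000000800020019001900014000400140013ffe40003ffe40014001400040004000 = true) ∧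
    (allTr (chkV P V lk) tr_906_909 = true) ∧
    ((chkV P V lk) 0x1000b00000028001500004000400040003fff3fff4002400040023fff3fff4000 = true) ∧
    (allTr (chkV P V lk) tr_1780_1781 = true) ∧
    (allTr (chkV P V lk) tr_1908_1909 = true) ∧
    ((chkV P V lk) 0x10000000000090002001e001e00014000400140013ffe40003ffe40014001400040004000 = true) ∧
    (allTr (chkV P V lk) tr_1474_1475 = true) ∧
    (allTr (chkV P V lk) tr_1613_1614 = true) ∧
    ((chkV P V lk) 0x100000000000a00020046004600024000400140013ffe40003ffe40014001400040004000 = true) ∧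
    ((chkV P V lk) 0x100000000000600020035003500014000400140013ffe40003ffe40014001400040004000 = true) ∧
    (allTr (chkV P V lk) tr_1519_1520 = true) ∧
    (allTr (chkV P V lk) tr_1749_1750 = true) ∧
    ((chkV P V lk) 0x600010023001300023fff400140033ffe40003ffe400340013fff3fff3fff = true) ∧
    ((chkV P V lk) 0xc00010056003800014002400140013ffe40023ffe400040003fff3fff4000 = true) ∧
    ((chkV P V lk) 0xb00010066005200014002400040003ffe40003ffe400140003fff40024000 = true) ∧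
    ((chkV P V lk) 0x900010039003400014000400140013ffd3fff4000400140033fff3fff4000 = true) ∧
    (allTr (chkV P V lk) tr_1150_1153 = true) ∧
    ((chkV P V lk) 0xc0001002d003a00014000400040003ffd3fff3ffe40034001400040004002 = true) ∧
    ((chkV P V lk) 0x70001004f005700024000400140013ffe3fff3ffd4003400140023fff3fff = true) ∧
    ((chkV P V lk) 0x600000066002100053fff400240033ffd3fff4000400240003fff40003fff = true) ∧
    ((chkV P V lk) 0xd0001004f0068001340043fff40013ffb40003ffe40023fff3fff40034000 = true) :=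
  ⟨allTr_mk (chkV_of (by decide +kernel) (rng_cons C13_1_p0 rfl (rng_cons C13_1_p1 rfl (rng_cons C13_1_p2 rfl (rng_end (Nat.le_of_eq rfl)))))) rfl rfl,
  chkV_of (by decide +kernel) (rng_cons C13_2_p0 rfl (rng_cons C13_2_p1 rfl (rng_end (Nat.le_of_eq rfl)))),
  allTr_mk (chkV_of (by decide +kernel) (rng_cons C13_3_p0 rfl (rng_cons C13_3_p1 rfl (rng_end (Nat.le_of_eq rfl))))) rfl rfl,
  by decide +kernel,
  allTr_mk (chkV_of (by decide +kernel) (rng_cons C13_5_p0 rfl (rng_cons C13_5_p1 rfl (rng_end (Nat.le_of_eq rfl))))) rfl rfl,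
  allTr_mk (chkV_of (by decide +kernel) (rng_cons C13_6_p0 rfl (rng_cons C13_6_p1 rfl (rng_end (Nat.le_of_eq rfl))))) rfl rfl,
  by decide +kernel,
  by decide +kernel,
  by decide +kernel,
  by decide +kernel,
  by decide +kernel,
  by decide +kernel,
  by decide +kernel,
  by decide +kernel,
  by decide +kernel,
  by decide +kernel,
  by decide +kernel,
  by decide +kernel,
  by decide +kernel,
  by decide +kernel,
  by decide +kernel,
  by decide +kernel,
  by decide +kernel,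
  by decide +kernel,
  by decide +kernel,
  by decide +kernel,
  by decide +kernel,
  by decide +kernel,
  by decide +kernel,
  by decide +kernel,
  by decide +kernel,
  by decide +kernel,
  by decide +kernel,
  by decide +kernel,
  by decide +kernel,
  by decide +kernel,
  by decide +kernel,
  by decide +kernel,
  by decide +kernel,
  by decide +kernel,
  by decide +kernel,
  by decide +kernel,
  by decide +kernel,
  by decide +kernel,
  by decide +kernel,
  by decide +kernel,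
  by decide +kernel,
  by decide +kernel,
  by decide +kernel,
  by decide +kernel,
  by decide +kernel,
  by decide +kernel,
  by decide +kernel,
  by decide +kernel,
  by decide +kernel,
  by decide +kernel,
  by decide +kernel,
  by decide +kernel,
  by decide +kernel,
  by decide +kernel,
  by decide +kernel,
  by decide +kernel,
  by decide +kernel,
  by decide +kernel,
  by decide +kernel,
  by decide +kernel⟩

theorem c_1460_1461 : allTr (chkV P V lk) tr_1460_1461 = true := allC13.1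

theorem ck_2023 : (chkV P V lk) 0x100000001000a000100080008000040004000400040004000400040004000400040004000 = true := allC13.2.1

theorem c_2069_2070 : allTr (chkV P V lk) tr_2069_2070 = true := allC13.2.2.1

theorem c_2090_2091 : allTr (chkV P V lk) tr_2090_2091 = true := allC13.2.2.2.1

theorem c_2098_2099 : allTr (chkV P V lk) tr_2098_2099 = true := allC13.2.2.2.2.1

theorem c_2057_2058 : allTr (chkV P V lk) tr_2057_2058 = true := allC13.2.2.2.2.2.1

theorem ck_2111 : (chkV P V lk) 0x100000001000d000100500050000040004000400040004000400040004000400040004000 = true := allC13.2.2.2.2.2.2.1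

theorem ck_1195 : (chkV P V lk) 0xd0001003b002100024000400040013ffe3fff400040034000400040003fff = true := allC13.2.2.2.2.2.2.2.1

theorem c_133_149 : allTr (chkV P V lk) tr_133_149 = true := allC13.2.2.2.2.2.2.2.2.1

theorem c_761_793 : allTr (chkV P V lk) tr_761_793 = true := allC13.2.2.2.2.2.2.2.2.2.1

theorem c_245_248 : allTr (chkV P V lk) tr_245_248 = true := allC13.2.2.2.2.2.2.2.2.2.2.1

theorem ck_1424 : (chkV P V lk) 0x1000d00000055004800003fff400040023fff4000400040003fff400240003fff = true := allC13.2.2.2.2.2.2.2.2.2.2.2.1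

theorem c_1478_1479 : allTr (chkV P V lk) tr_1478_1479 = true := allC13.2.2.2.2.2.2.2.2.2.2.2.2.1

theorem ck_1603 : (chkV P V lk) 0x100000000000700020051005100014000400140013ffe40003ffe40014001400040004000 = true := allC13.2.2.2.2.2.2.2.2.2.2.2.2.2.1

theorem c_1464_1465 : allTr (chkV P V lk) tr_1464_1465 = true := allC13.2.2.2.2.2.2.2.2.2.2.2.2.2.2.1

theorem c_1737_1738 : allTr (chkV P V lk) tr_1737_1738 = true := allC13.2.2.2.2.2.2.2.2.2.2.2.2.2.2.2.1

theorem c_1619_1620 : allTr (chkV P V lk) tr_1619_1620 = true := allC13.2.2.2.2.2.2.2.2.2.2.2.2.2.2.2.2.1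

theorem c_1420_1421 : allTr (chkV P V lk) tr_1420_1421 = true := allC13.2.2.2.2.2.2.2.2.2.2.2.2.2.2.2.2.2.1

theorem ck_1717 : (chkV P V lk) 0x100000000000900020021002100014000400140013ffe40003ffe40014001400040004000 = true := allC13.2.2.2.2.2.2.2.2.2.2.2.2.2.2.2.2.2.2.1

theorem ck_1798 : (chkV P V lk) 0x100000000000a0002003d003d00024000400140013ffe40003ffe40014001400040004000 = true := allC13.2.2.2.2.2.2.2.2.2.2.2.2.2.2.2.2.2.2.2.1

theorem ck_1623 : (chkV P V lk) 0x100000000000700020061006100024000400140013ffe40003ffe40014001400040004000 = true := allC13.2.2.2.2.2.2.2.2.2.2.2.2.2.2.2.2.2.2.2.2.1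

theorem c_1579_1580 : allTr (chkV P V lk) tr_1579_1580 = true := allC13.2.2.2.2.2.2.2.2.2.2.2.2.2.2.2.2.2.2.2.2.2.1

theorem ck_1374 : (chkV P V lk) 0x1000c00000047002e000040024000400040023fff40003fff40003fff40003fff = true := allC13.2.2.2.2.2.2.2.2.2.2.2.2.2.2.2.2.2.2.2.2.2.2.1

theorem c_1042_1049 : allTr (chkV P V lk) tr_1042_1049 = true := allC13.2.2.2.2.2.2.2.2.2.2.2.2.2.2.2.2.2.2.2.2.2.2.2.1

theorem c_1406_1407 : allTr (chkV P V lk) tr_1406_1407 = true := allC13.2.2.2.2.2.2.2.2.2.2.2.2.2.2.2.2.2.2.2.2.2.2.2.2.1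

theorem c_1885_1886 : allTr (chkV P V lk) tr_1885_1886 = true := allC13.2.2.2.2.2.2.2.2.2.2.2.2.2.2.2.2.2.2.2.2.2.2.2.2.2.1

theorem c_1805_1806 : allTr (chkV P V lk) tr_1805_1806 = true := allC13.2.2.2.2.2.2.2.2.2.2.2.2.2.2.2.2.2.2.2.2.2.2.2.2.2.2.1

theorem c_1939_1940 : allTr (chkV P V lk) tr_1939_1940 = true := allC13.2.2.2.2.2.2.2.2.2.2.2.2.2.2.2.2.2.2.2.2.2.2.2.2.2.2.2.1

theorem ck_1901 : (chkV P V lk) 0x100000000000c00020019001900024000400140013ffe40003ffe40014001400040004000 = true := allC13.2.2.2.2.2.2.2.2.2.2.2.2.2.2.2.2.2.2.2.2.2.2.2.2.2.2.2.2.1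

theorem c_1822_1823 : allTr (chkV P V lk) tr_1822_1823 = true := allC13.2.2.2.2.2.2.2.2.2.2.2.2.2.2.2.2.2.2.2.2.2.2.2.2.2.2.2.2.2.1

theorem c_1587_1588 : allTr (chkV P V lk) tr_1587_1588 = true := allC13.2.2.2.2.2.2.2.2.2.2.2.2.2.2.2.2.2.2.2.2.2.2.2.2.2.2.2.2.2.2.1

theorem ck_1917 : (chkV P V lk) 0x100000000000c0002003f003f00014000400140013ffe40003ffe40014001400040004000 = true := allC13.2.2.2.2.2.2.2.2.2.2.2.2.2.2.2.2.2.2.2.2.2.2.2.2.2.2.2.2.2.2.2.1

theorem c_695_703 : allTr (chkV P V lk) tr_695_703 = true := allC13.2.2.2.2.2.2.2.2.2.2.2.2.2.2.2.2.2.2.2.2.2.2.2.2.2.2.2.2.2.2.2.2.1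

theorem ck_1973 : (chkV P V lk) 0x100000000000d00020029002900024000400140013ffe40003ffe40014001400040004000 = true := allC13.2.2.2.2.2.2.2.2.2.2.2.2.2.2.2.2.2.2.2.2.2.2.2.2.2.2.2.2.2.2.2.2.2.1

theorem c_1776_1777 : allTr (chkV P V lk) tr_1776_1777 = true := allC13.2.2.2.2.2.2.2.2.2.2.2.2.2.2.2.2.2.2.2.2.2.2.2.2.2.2.2.2.2.2.2.2.2.2.1

theorem c_1429_1430 : allTr (chkV P V lk) tr_1429_1430 = true := allC13.2.2.2.2.2.2.2.2.2.2.2.2.2.2.2.2.2.2.2.2.2.2.2.2.2.2.2.2.2.2.2.2.2.2.2.1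

theorem c_1828_1829 : allTr (chkV P V lk) tr_1828_1829 = true := allC13.2.2.2.2.2.2.2.2.2.2.2.2.2.2.2.2.2.2.2.2.2.2.2.2.2.2.2.2.2.2.2.2.2.2.2.2.1

theorem c_1299_1300 : allTr (chkV P V lk) tr_1299_1300 = true := allC13.2.2.2.2.2.2.2.2.2.2.2.2.2.2.2.2.2.2.2.2.2.2.2.2.2.2.2.2.2.2.2.2.2.2.2.2.2.1

theorem ck_1588 : (chkV P V lk) 0x100000000000700020027002700014000400140013ffe40003ffe40014001400040004000 = true := allC13.2.2.2.2.2.2.2.2.2.2.2.2.2.2.2.2.2.2.2.2.2.2.2.2.2.2.2.2.2.2.2.2.2.2.2.2.2.2.1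

theorem ck_1597 : (chkV P V lk) 0x10000000000070002002d002d00024000400140013ffe40003ffe40014001400040004000 = true := allC13.2.2.2.2.2.2.2.2.2.2.2.2.2.2.2.2.2.2.2.2.2.2.2.2.2.2.2.2.2.2.2.2.2.2.2.2.2.2.2.1

theorem ck_1467 : (chkV P V lk) 0x100000000000300020008000800014000400140013ffe40003ffe40014001400040004000 = true := allC13.2.2.2.2.2.2.2.2.2.2.2.2.2.2.2.2.2.2.2.2.2.2.2.2.2.2.2.2.2.2.2.2.2.2.2.2.2.2.2.2.1

theorem c_1675_1676 : allTr (chkV P V lk) tr_1675_1676 = true := allC13.2.2.2.2.2.2.2.2.2.2.2.2.2.2.2.2.2.2.2.2.2.2.2.2.2.2.2.2.2.2.2.2.2.2.2.2.2.2.2.2.2.1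

theorem ck_1568 : (chkV P V lk) 0x100000000000700020001000100024000400140013ffe40003ffe40014001400040004000 = true := allC13.2.2.2.2.2.2.2.2.2.2.2.2.2.2.2.2.2.2.2.2.2.2.2.2.2.2.2.2.2.2.2.2.2.2.2.2.2.2.2.2.2.2.1

theorem ck_1525 : (chkV P V lk) 0x100000000000600020012001200024000400140013ffe40003ffe40014001400040004000 = true := allC13.2.2.2.2.2.2.2.2.2.2.2.2.2.2.2.2.2.2.2.2.2.2.2.2.2.2.2.2.2.2.2.2.2.2.2.2.2.2.2.2.2.2.2.1

theorem c_1677_1678 : allTr (chkV P V lk) tr_1677_1678 = true := allC13.2.2.2.2.2.2.2.2.2.2.2.2.2.2.2.2.2.2.2.2.2.2.2.2.2.2.2.2.2.2.2.2.2.2.2.2.2.2.2.2.2.2.2.2.1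

theorem ck_1647 : (chkV P V lk) 0x100000000000800020019001900014000400140013ffe40003ffe40014001400040004000 = true := allC13.2.2.2.2.2.2.2.2.2.2.2.2.2.2.2.2.2.2.2.2.2.2.2.2.2.2.2.2.2.2.2.2.2.2.2.2.2.2.2.2.2.2.2.2.2.1

theorem c_906_909 : allTr (chkV P V lk) tr_906_909 = true := allC13.2.2.2.2.2.2.2.2.2.2.2.2.2.2.2.2.2.2.2.2.2.2.2.2.2.2.2.2.2.2.2.2.2.2.2.2.2.2.2.2.2.2.2.2.2.2.1

theorem ck_1322 : (chkV P V lk) 0x1000b00000028001500004000400040003fff3fff4002400040023fff3fff4000 = true := allC13.2.2.2.2.2.2.2.2.2.2.2.2.2.2.2.2.2.2.2.2.2.2.2.2.2.2.2.2.2.2.2.2.2.2.2.2.2.2.2.2.2.2.2.2.2.2.2.1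

theorem c_1780_1781 : allTr (chkV P V lk) tr_1780_1781 = true := allC13.2.2.2.2.2.2.2.2.2.2.2.2.2.2.2.2.2.2.2.2.2.2.2.2.2.2.2.2.2.2.2.2.2.2.2.2.2.2.2.2.2.2.2.2.2.2.2.2.1

theorem c_1908_1909 : allTr (chkV P V lk) tr_1908_1909 = true := allC13.2.2.2.2.2.2.2.2.2.2.2.2.2.2.2.2.2.2.2.2.2.2.2.2.2.2.2.2.2.2.2.2.2.2.2.2.2.2.2.2.2.2.2.2.2.2.2.2.2.1

theorem ck_1711 : (chkV P V lk) 0x10000000000090002001e001e00014000400140013ffe40003ffe40014001400040004000 = true := allC13.2.2.2.2.2.2.2.2.2.2.2.2.2.2.2.2.2.2.2.2.2.2.2.2.2.2.2.2.2.2.2.2.2.2.2.2.2.2.2.2.2.2.2.2.2.2.2.2.2.2.1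

theorem c_1474_1475 : allTr (chkV P V lk) tr_1474_1475 = true := allC13.2.2.2.2.2.2.2.2.2.2.2.2.2.2.2.2.2.2.2.2.2.2.2.2.2.2.2.2.2.2.2.2.2.2.2.2.2.2.2.2.2.2.2.2.2.2.2.2.2.2.2.1

theorem c_1613_1614 : allTr (chkV P V lk) tr_1613_1614 = true := allC13.2.2.2.2.2.2.2.2.2.2.2.2.2.2.2.2.2.2.2.2.2.2.2.2.2.2.2.2.2.2.2.2.2.2.2.2.2.2.2.2.2.2.2.2.2.2.2.2.2.2.2.2.1

theorem ck_1808 : (chkV P V lk) 0x100000000000a00020046004600024000400140013ffe40003ffe40014001400040004000 = true := allC13.2.2.2.2.2.2.2.2.2.2.2.2.2.2.2.2.2.2.2.2.2.2.2.2.2.2.2.2.2.2.2.2.2.2.2.2.2.2.2.2.2.2.2.2.2.2.2.2.2.2.2.2.2.1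

theorem ck_1537 : (chkV P V lk) 0x100000000000600020035003500014000400140013ffe40003ffe40014001400040004000 = true := allC13.2.2.2.2.2.2.2.2.2.2.2.2.2.2.2.2.2.2.2.2.2.2.2.2.2.2.2.2.2.2.2.2.2.2.2.2.2.2.2.2.2.2.2.2.2.2.2.2.2.2.2.2.2.2.1

theorem c_1519_1520 : allTr (chkV P V lk) tr_1519_1520 = true := allC13.2.2.2.2.2.2.2.2.2.2.2.2.2.2.2.2.2.2.2.2.2.2.2.2.2.2.2.2.2.2.2.2.2.2.2.2.2.2.2.2.2.2.2.2.2.2.2.2.2.2.2.2.2.2.2.1

theorem c_1749_1750 : allTr (chkV P V lk) tr_1749_1750 = true := allC13.2.2.2.2.2.2.2.2.2.2.2.2.2.2.2.2.2.2.2.2.2.2.2.2.2.2.2.2.2.2.2.2.2.2.2.2.2.2.2.2.2.2.2.2.2.2.2.2.2.2.2.2.2.2.2.2.1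

theorem ck_335 : (chkV P V lk) 0x600010023001300023fff400140033ffe40003ffe400340013fff3fff3fff = true := allC13.2.2.2.2.2.2.2.2.2.2.2.2.2.2.2.2.2.2.2.2.2.2.2.2.2.2.2.2.2.2.2.2.2.2.2.2.2.2.2.2.2.2.2.2.2.2.2.2.2.2.2.2.2.2.2.2.2.1

theorem ck_1087 : (chkV P V lk) 0xc00010056003800014002400140013ffe40023ffe400040003fff3fff4000 = true := allC13.2.2.2.2.2.2.2.2.2.2.2.2.2.2.2.2.2.2.2.2.2.2.2.2.2.2.2.2.2.2.2.2.2.2.2.2.2.2.2.2.2.2.2.2.2.2.2.2.2.2.2.2.2.2.2.2.2.2.1

theorem ck_975 : (chkV P V lk) 0xb00010066005200014002400040003ffe40003ffe400140003fff40024000 = true := allC13.2.2.2.2.2.2.2.2.2.2.2.2.2.2.2.2.2.2.2.2.2.2.2.2.2.2.2.2.2.2.2.2.2.2.2.2.2.2.2.2.2.2.2.2.2.2.2.2.2.2.2.2.2.2.2.2.2.2.2.1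

theorem ck_711 : (chkV P V lk) 0x900010039003400014000400140013ffd3fff4000400140033fff3fff4000 = true := allC13.2.2.2.2.2.2.2.2.2.2.2.2.2.2.2.2.2.2.2.2.2.2.2.2.2.2.2.2.2.2.2.2.2.2.2.2.2.2.2.2.2.2.2.2.2.2.2.2.2.2.2.2.2.2.2.2.2.2.2.2.1

theorem c_1150_1153 : allTr (chkV P V lk) tr_1150_1153 = true := allC13.2.2.2.2.2.2.2.2.2.2.2.2.2.2.2.2.2.2.2.2.2.2.2.2.2.2.2.2.2.2.2.2.2.2.2.2.2.2.2.2.2.2.2.2.2.2.2.2.2.2.2.2.2.2.2.2.2.2.2.2.2.1

theorem ck_1066 : (chkV P V lk) 0xc0001002d003a00014000400040003ffd3fff3ffe40034001400040004002 = true := allC13.2.2.2.2.2.2.2.2.2.2.2.2.2.2.2.2.2.2.2.2.2.2.2.2.2.2.2.2.2.2.2.2.2.2.2.2.2.2.2.2.2.2.2.2.2.2.2.2.2.2.2.2.2.2.2.2.2.2.2.2.2.2.1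

theorem ck_495 : (chkV P V lk) 0x70001004f005700024000400140013ffe3fff3ffd4003400140023fff3fff = true := allC13.2.2.2.2.2.2.2.2.2.2.2.2.2.2.2.2.2.2.2.2.2.2.2.2.2.2.2.2.2.2.2.2.2.2.2.2.2.2.2.2.2.2.2.2.2.2.2.2.2.2.2.2.2.2.2.2.2.2.2.2.2.2.2.1

theorem ck_314 : (chkV P V lk) 0x600000066002100053fff400240033ffd3fff4000400240003fff40003fff = true := allC13.2.2.2.2.2.2.2.2.2.2.2.2.2.2.2.2.2.2.2.2.2.2.2.2.2.2.2.2.2.2.2.2.2.2.2.2.2.2.2.2.2.2.2.2.2.2.2.2.2.2.2.2.2.2.2.2.2.2.2.2.2.2.2.2.1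

theorem ck_1240 : (chkV P V lk) 0xd0001004f0068001340043fff40013ffb40003ffe40023fff3fff40034000 = true := allC13.2.2.2.2.2.2.2.2.2.2.2.2.2.2.2.2.2.2.2.2.2.2.2.2.2.2.2.2.2.2.2.2.2.2.2.2.2.2.2.2.2.2.2.2.2.2.2.2.2.2.2.2.2.2.2.2.2.2.2.2.2.2.2.2.2

end MPbbea99G.E11
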