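import Pool.Agent.Lib.Pbbea99G.E11.Hyp
import Pool.Agent.Lib.Pbbea99G.E11.Out
import Pool.Agent.Lib.Pbbea99G.E11.C00
import Pool.Agent.Lib.Pbbea99G.E11.C01
import Pool.Agent.Lib.Pbbea99G.E11.C02
import Pool.Agent.Lib.Pbbea99G.E11.C03
import Pool.Agent.Lib.Pbbea99G.E11.C04
import Pool.Agent.Lib.Pbbea99G.E11.C05
import Pool.Agent.Lib.Pbbea99G.E11.C06
import Pool.Agent.Lib.Pbbea99G.E11.C07
import Pool.Agent.Lib.Pbbea99G.E11.C08
import Pool.Agent.Lib.Pbbea99G.E11.C09
import Pool.Agent.Lib.Pbbea99G.E11.C10
import Pool.Agent.Lib.Pbbea99G.E11.C11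
import Pool.Agent.Lib.Pbbea99G.E11.C12
import Pool.Agent.Lib.Pbbea99G.E11.C13
import Pool.Agent.Lib.Pbbea99G.E11.C14
import Pool.Agent.Lib.Pbbea99G.E11.C15
import Pool.Agent.Lib.Pbbea99G.E11.C16
import Pool.Agent.Lib.Pbbea99G.E11.O00
import Pool.Agent.Lib.Pbbea99G.E11.O01
import Pool.Agent.Lib.Pbbea99G.E11.O02
import Pool.Agent.Lib.Pbbea99G.E11.O03
import Pool.Agent.Lib.Pbbea99G.E11.O04
import Pool.Agent.Lib.Pbbea99G.E11.O05
import Pool.Agent.Lib.Pbbea99G.E11.O06
import Pool.Agent.Lib.Pbbea99G.E11.O07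
import Pool.Agent.Lib.Pbbea99G.E11.O08
import Pool.Agent.Lib.Pbbea99G.E11.O09
import Pool.Agent.Lib.Pbbea99G.E11.O10
import Pool.Agent.Lib.Pbbea99G.E11.O11
import Pool.Agent.Lib.Pbbea99G.E11.O12

/-!
# MP_bbea99_co: the word on 11 letters
-/

namespace MPbbea99G.E11

open MPbbea99S MPbbea99T MPbbea99G Finset

theorem c_1290_1292 : allTr (chkV P V lk) tr_1290_1292 = true := allTr_mk ck_1291 c_1290_1291 rfl

theorem c_1323_1325 : allTr (chkV P V lk) tr_1323_1325 = true := allTr_mk ck_1324 c_1323_1324 rfl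

theorem c_1356_1358 : allTr (chkV P V lk) tr_1356_1358 = true := allTr_mk ck_1357 c_1356_1357 rfl

theorem c_1455_1457 : allTr (chkV P V lk) tr_1455_1457 = true := allTr_mk ck_1456 c_1455_1456 rfl

theorem c_1488_1490 : allTr (chkV P V lk) tr_1488_1490 = true := allTr_mk ck_1489 c_1488_1489 rfl

theorem c_1521_1523 : allTr (chkV P V lk) tr_1521_1523 = true := allTr_mk ck_1522 c_1521_1522 rfl

theorem c_1554_1556 : allTr (chkV P V lk) tr_1554_1556 = true := allTr_mk ck_1555 c_1554_1555 rfl

theorem c_1587_1589 : allTr (chkV P V lk) tr_1587_1589 = true := allTr_mk ck_1588 c_1587_1588 rfl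

theorem c_1604_1606 : allTr (chkV P V lk) tr_1604_1606 = true := allTr_mk ck_1605 c_1604_1605 rfl

theorem c_1654_1656 : allTr (chkV P V lk) tr_1654_1656 = true := allTr_mk ck_1655 c_1654_1655 rfl

theorem c_1687_1689 : allTr (chkV P V lk) tr_1687_1689 = true := allTr_mk ck_1688 c_1687_1688 rfl

theorem c_1720_1722 : allTr (chkV P V lk) tr_1720_1722 = true := allTr_mk ck_1721 c_1720_1721 rfl

theorem c_1786_1788 : allTr (chkV P V lk) tr_1786_1788 = true := allTr_mk ck_1787 c_1786_1787 rfl

theorem c_1819_1821 : allTr (chkV P V lk) tr_1819_1821 = true := allTr_mk ck_1820 c_1819_1820 rfl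

theorem c_1852_1854 : allTr (chkV P V lk) tr_1852_1854 = true := allTr_mk ck_1853 c_1852_1853 rfl

theorem c_1885_1887 : allTr (chkV P V lk) tr_1885_1887 = true := allTr_mk ck_1886 c_1885_1886 rfl

theorem c_1951_1953 : allTr (chkV P V lk) tr_1951_1953 = true := allTr_mk ck_1952 c_1951_1952 rfl

theorem c_1984_1986 : allTr (chkV P V lk) tr_1984_1986 = true := allTr_mk ck_1985 c_1984_1985 rfl

theorem c_2017_2019 : allTr (chkV P V lk) tr_2017_2019 = true := allTr_mk ck_2018 c_2017_2018 rfl

theorem c_2050_2052 : allTr (chkV P V lk) tr_2050_2052 = true := allTr_mk ck_2051 c_2050_2051 rfl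

theorem c_2083_2085 : allTr (chkV P V lk) tr_2083_2085 = true := allTr_mk ck_2084 c_2083_2084 rfl

theorem c_1154_1157 : allTr (chkV P V lk) tr_1154_1157 = true := allTr_mk ck_1155 c_1154_1155 c_1156_1157

theorem c_1212_1215 : allTr (chkV P V lk) tr_1212_1215 = true := allTr_mk ck_1213 c_1212_1213 c_1214_1215

theorem c_1278_1281 : allTr (chkV P V lk) tr_1278_1281 = true := allTr_mk ck_1279 c_1278_1279 c_1280_1281

theorem c_1282_1285 : allTr (chkV P V lk) tr_1282_1285 = true := allTr_mk ck_1283 c_1282_1283 c_1284_1285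

theorem c_1286_1289 : allTr (chkV P V lk) tr_1286_1289 = true := allTr_mk ck_1287 c_1286_1287 c_1288_1289

theorem c_1295_1298 : allTr (chkV P V lk) tr_1295_1298 = true := allTr_mk ck_1296 c_1295_1296 c_1297_1298

theorem c_1299_1302 : allTr (chkV P V lk) tr_1299_1302 = true := allTr_mk ck_1300 c_1299_1300 c_1301_1302

theorem c_1303_1306 : allTr (chkV P V lk) tr_1303_1306 = true := allTr_mk ck_1304 c_1303_1304 c_1305_1306

theorem c_1307_1310 : allTr (chkV P V lk) tr_1307_1310 = true := allTr_mk ck_1308 c_1307_1308 c_1309_1310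

theorem c_1311_1314 : allTr (chkV P V lk) tr_1311_1314 = true := allTr_mk ck_1312 c_1311_1312 c_1313_1314

theorem c_1315_1318 : allTr (chkV P V lk) tr_1315_1318 = true := allTr_mk ck_1316 c_1315_1316 c_1317_1318

theorem c_1319_1322 : allTr (chkV P V lk) tr_1319_1322 = true := allTr_mk ck_1320 c_1319_1320 c_1321_1322

theorem c_1328_1331 : allTr (chkV P V lk) tr_1328_1331 = true := allTr_mk ck_1329 c_1328_1329 c_1330_1331

theorem c_1332_1335 : allTr (chkV P V lk) tr_1332_1335 = true := allTr_mk ck_1333 c_1332_1333 c_1334_1335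

theorem c_1336_1339 : allTr (chkV P V lk) tr_1336_1339 = true := allTr_mk ck_1337 c_1336_1337 c_1338_1339

theorem c_1340_1343 : allTr (chkV P V lk) tr_1340_1343 = true := allTr_mk ck_1341 c_1340_1341 c_1342_1343

theorem c_1344_1347 : allTr (chkV P V lk) tr_1344_1347 = true := allTr_mk ck_1345 c_1344_1345 c_1346_1347

theorem c_1348_1351 : allTr (chkV P V lk) tr_1348_1351 = true := allTr_mk ck_1349 c_1348_1349 c_1350_1351

theorem c_1352_1355 : allTr (chkV P V lk) tr_1352_1355 = true := allTr_mk ck_1353 c_1352_1353 c_1354_1355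

theorem c_1361_1364 : allTr (chkV P V lk) tr_1361_1364 = true := allTr_mk ck_1362 c_1361_1362 c_1363_1364

theorem c_1365_1368 : allTr (chkV P V lk) tr_1365_1368 = true := allTr_mk ck_1366 c_1365_1366 c_1367_1368

theorem c_1369_1372 : allTr (chkV P V lk) tr_1369_1372 = true := allTr_mk ck_1370 c_1369_1370 c_1371_1372

theorem c_1373_1376 : allTr (chkV P V lk) tr_1373_1376 = true := allTr_mk ck_1374 c_1373_1374 c_1375_1376

theorem c_1377_1380 : allTr (chkV P V lk) tr_1377_1380 = true := allTr_mk ck_1378 c_1377_1378 c_1379_1380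

theorem c_1381_1384 : allTr (chkV P V lk) tr_1381_1384 = true := allTr_mk ck_1382 c_1381_1382 c_1383_1384

theorem c_1385_1388 : allTr (chkV P V lk) tr_1385_1388 = true := allTr_mk ck_1386 c_1385_1386 c_1387_1388

theorem c_1394_1397 : allTr (chkV P V lk) tr_1394_1397 = true := allTr_mk ck_1395 c_1394_1395 c_1396_1397

theorem c_1398_1401 : allTr (chkV P V lk) tr_1398_1401 = true := allTr_mk ck_1399 c_1398_1399 c_1400_1401

theorem c_1402_1405 : allTr (chkV P V lk) tr_1402_1405 = true := allTr_mk ck_1403 c_1402_1403 c_1404_1405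

theorem c_1406_1409 : allTr (chkV P V lk) tr_1406_1409 = true := allTr_mk ck_1407 c_1406_1407 c_1408_1409

theorem c_1410_1413 : allTr (chkV P V lk) tr_1410_1413 = true := allTr_mk ck_1411 c_1410_1411 c_1412_1413

theorem c_1414_1417 : allTr (chkV P V lk) tr_1414_1417 = true := allTr_mk ck_1415 c_1414_1415 c_1416_1417

theorem c_1418_1421 : allTr (chkV P V lk) tr_1418_1421 = true := allTr_mk ck_1419 c_1418_1419 c_1420_1421

theorem c_1427_1430 : allTr (chkV P V lk) tr_1427_1430 = true := allTr_mk ck_1428 c_1427_1428 c_1429_1430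

theorem c_1431_1434 : allTr (chkV P V lk) tr_1431_1434 = true := allTr_mk ck_1432 c_1431_1432 c_1433_1434

theorem c_1435_1438 : allTr (chkV P V lk) tr_1435_1438 = true := allTr_mk ck_1436 c_1435_1436 c_1437_1438

theorem c_1439_1442 : allTr (chkV P V lk) tr_1439_1442 = true := allTr_mk ck_1440 c_1439_1440 c_1441_1442

theorem c_1460_1463 : allTr (chkV P V lk) tr_1460_1463 = true := allTr_mk ck_1461 c_1460_1461 c_1462_1463

theorem c_1464_1467 : allTr (chkV P V lk) tr_1464_1467 = true := allTr_mk ck_1465 c_1464_1465 c_1466_1467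

theorem c_1468_1471 : allTr (chkV P V lk) tr_1468_1471 = true := allTr_mk ck_1469 c_1468_1469 c_1470_1471

theorem c_1472_1475 : allTr (chkV P V lk) tr_1472_1475 = true := allTr_mk ck_1473 c_1472_1473 c_1474_1475

theorem c_1476_1479 : allTr (chkV P V lk) tr_1476_1479 = true := allTr_mk ck_1477 c_1476_1477 c_1478_1479

theorem c_1480_1483 : allTr (chkV P V lk) tr_1480_1483 = true := allTr_mk ck_1481 c_1480_1481 c_1482_1483

theorem c_1484_1487 : allTr (chkV P V lk) tr_1484_1487 = true := allTr_mk ck_1485 c_1484_1485 c_1486_1487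

theorem c_1493_1496 : allTr (chkV P V lk) tr_1493_1496 = true := allTr_mk ck_1494 c_1493_1494 c_1495_1496

theorem c_1497_1500 : allTr (chkV P V lk) tr_1497_1500 = true := allTr_mk ck_1498 c_1497_1498 c_1499_1500

theorem c_1501_1504 : allTr (chkV P V lk) tr_1501_1504 = true := allTr_mk ck_1502 c_1501_1502 c_1503_1504

theorem c_1505_1508 : allTr (chkV P V lk) tr_1505_1508 = true := allTr_mk ck_1506 c_1505_1506 c_1507_1508

theorem c_1509_1512 : allTr (chkV P V lk) tr_1509_1512 = true := allTr_mk ck_1510 c_1509_1510 c_1511_1512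

theorem c_1513_1516 : allTr (chkV P V lk) tr_1513_1516 = true := allTr_mk ck_1514 c_1513_1514 c_1515_1516

theorem c_1517_1520 : allTr (chkV P V lk) tr_1517_1520 = true := allTr_mk ck_1518 c_1517_1518 c_1519_1520

theorem c_1526_1529 : allTr (chkV P V lk) tr_1526_1529 = true := allTr_mk ck_1527 c_1526_1527 c_1528_1529

theorem c_1530_1533 : allTr (chkV P V lk) tr_1530_1533 = true := allTr_mk ck_1531 c_1530_1531 c_1532_1533

theorem c_1534_1537 : allTr (chkV P V lk) tr_1534_1537 = true := allTr_mk ck_1535 c_1534_1535 c_1536_1537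

theorem c_1538_1541 : allTr (chkV P V lk) tr_1538_1541 = true := allTr_mk ck_1539 c_1538_1539 c_1540_1541

theorem c_1542_1545 : allTr (chkV P V lk) tr_1542_1545 = true := allTr_mk ck_1543 c_1542_1543 c_1544_1545

theorem c_1546_1549 : allTr (chkV P V lk) tr_1546_1549 = true := allTr_mk ck_1547 c_1546_1547 c_1548_1549

theorem c_1550_1553 : allTr (chkV P V lk) tr_1550_1553 = true := allTr_mk ck_1551 c_1550_1551 c_1552_1553

theorem c_1559_1562 : allTr (chkV P V lk) tr_1559_1562 = true := allTr_mk ck_1560 c_1559_1560 c_1561_1562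

theorem c_1563_1566 : allTr (chkV P V lk) tr_1563_1566 = true := allTr_mk ck_1564 c_1563_1564 c_1565_1566

theorem c_1567_1570 : allTr (chkV P V lk) tr_1567_1570 = true := allTr_mk ck_1568 c_1567_1568 c_1569_1570

theorem c_1571_1574 : allTr (chkV P V lk) tr_1571_1574 = true := allTr_mk ck_1572 c_1571_1572 c_1573_1574

theorem c_1575_1578 : allTr (chkV P V lk) tr_1575_1578 = true := allTr_mk ck_1576 c_1575_1576 c_1577_1578

theorem c_1579_1582 : allTr (chkV P V lk) tr_1579_1582 = true := allTr_mk ck_1580 c_1579_1580 c_1581_1582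

theorem c_1583_1586 : allTr (chkV P V lk) tr_1583_1586 = true := allTr_mk ck_1584 c_1583_1584 c_1585_1586

theorem c_1592_1595 : allTr (chkV P V lk) tr_1592_1595 = true := allTr_mk ck_1593 c_1592_1593 c_1594_1595

theorem c_1596_1599 : allTr (chkV P V lk) tr_1596_1599 = true := allTr_mk ck_1597 c_1596_1597 c_1598_1599

theorem c_1600_1603 : allTr (chkV P V lk) tr_1600_1603 = true := allTr_mk ck_1601 c_1600_1601 c_1602_1603

theorem c_1609_1612 : allTr (chkV P V lk) tr_1609_1612 = true := allTr_mk ck_1610 c_1609_1610 c_1611_1612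

theorem c_1613_1616 : allTr (chkV P V lk) tr_1613_1616 = true := allTr_mk ck_1614 c_1613_1614 c_1615_1616

theorem c_1617_1620 : allTr (chkV P V lk) tr_1617_1620 = true := allTr_mk ck_1618 c_1617_1618 c_1619_1620

theorem c_1626_1629 : allTr (chkV P V lk) tr_1626_1629 = true := allTr_mk ck_1627 c_1626_1627 c_1628_1629

theorem c_1630_1633 : allTr (chkV P V lk) tr_1630_1633 = true := allTr_mk ck_1631 c_1630_1631 c_1632_1633

theorem c_1634_1637 : allTr (chkV P V lk) tr_1634_1637 = true := allTr_mk ck_1635 c_1634_1635 c_1636_1637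

theorem c_1638_1641 : allTr (chkV P V lk) tr_1638_1641 = true := allTr_mk ck_1639 c_1638_1639 c_1640_1641

theorem c_1642_1645 : allTr (chkV P V lk) tr_1642_1645 = true := allTr_mk ck_1643 c_1642_1643 c_1644_1645

theorem c_1646_1649 : allTr (chkV P V lk) tr_1646_1649 = true := allTr_mk ck_1647 c_1646_1647 c_1648_1649

theorem c_1650_1653 : allTr (chkV P V lk) tr_1650_1653 = true := allTr_mk ck_1651 c_1650_1651 c_1652_1653

theorem c_1659_1662 : allTr (chkV P V lk) tr_1659_1662 = true := allTr_mk ck_1660 c_1659_1660 c_1661_1662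

theorem c_1663_1666 : allTr (chkV P V lk) tr_1663_1666 = true := allTr_mk ck_1664 c_1663_1664 c_1665_1666

theorem c_1667_1670 : allTr (chkV P V lk) tr_1667_1670 = true := allTr_mk ck_1668 c_1667_1668 c_1669_1670

theorem c_1671_1674 : allTr (chkV P V lk) tr_1671_1674 = true := allTr_mk ck_1672 c_1671_1672 c_1673_1674

theorem c_1675_1678 : allTr (chkV P V lk) tr_1675_1678 = true := allTr_mk ck_1676 c_1675_1676 c_1677_1678

theorem c_1679_1682 : allTr (chkV P V lk) tr_1679_1682 = true := allTr_mk ck_1680 c_1679_1680 c_1681_1682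

theorem c_1683_1686 : allTr (chkV P V lk) tr_1683_1686 = true := allTr_mk ck_1684 c_1683_1684 c_1685_1686

theorem c_1692_1695 : allTr (chkV P V lk) tr_1692_1695 = true := allTr_mk ck_1693 c_1692_1693 c_1694_1695

theorem c_1696_1699 : allTr (chkV P V lk) tr_1696_1699 = true := allTr_mk ck_1697 c_1696_1697 c_1698_1699

theorem c_1700_1703 : allTr (chkV P V lk) tr_1700_1703 = true := allTr_mk ck_1701 c_1700_1701 c_1702_1703

theorem c_1704_1707 : allTr (chkV P V lk) tr_1704_1707 = true := allTr_mk ck_1705 c_1704_1705 c_1706_1707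

theorem c_1708_1711 : allTr (chkV P V lk) tr_1708_1711 = true := allTr_mk ck_1709 c_1708_1709 c_1710_1711

theorem c_1712_1715 : allTr (chkV P V lk) tr_1712_1715 = true := allTr_mk ck_1713 c_1712_1713 c_1714_1715

theorem c_1716_1719 : allTr (chkV P V lk) tr_1716_1719 = true := allTr_mk ck_1717 c_1716_1717 c_1718_1719

theorem c_1725_1728 : allTr (chkV P V lk) tr_1725_1728 = true := allTr_mk ck_1726 c_1725_1726 c_1727_1728

theorem c_1729_1732 : allTr (chkV P V lk) tr_1729_1732 = true := allTr_mk ck_1730 c_1729_1730 c_1731_1732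

theorem c_1733_1736 : allTr (chkV P V lk) tr_1733_1736 = true := allTr_mk ck_1734 c_1733_1734 c_1735_1736

theorem c_1737_1740 : allTr (chkV P V lk) tr_1737_1740 = true := allTr_mk ck_1738 c_1737_1738 c_1739_1740

theorem c_1741_1744 : allTr (chkV P V lk) tr_1741_1744 = true := allTr_mk ck_1742 c_1741_1742 c_1743_1744

theorem c_1745_1748 : allTr (chkV P V lk) tr_1745_1748 = true := allTr_mk ck_1746 c_1745_1746 c_1747_1748

theorem c_1749_1752 : allTr (chkV P V lk) tr_1749_1752 = true := allTr_mk ck_1750 c_1749_1750 c_1751_1752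

theorem c_1758_1761 : allTr (chkV P V lk) tr_1758_1761 = true := allTr_mk ck_1759 c_1758_1759 c_1760_1761

theorem c_1762_1765 : allTr (chkV P V lk) tr_1762_1765 = true := allTr_mk ck_1763 c_1762_1763 c_1764_1765

theorem c_1766_1769 : allTr (chkV P V lk) tr_1766_1769 = true := allTr_mk ck_1767 c_1766_1767 c_1768_1769

theorem c_1770_1773 : allTr (chkV P V lk) tr_1770_1773 = true := allTr_mk ck_1771 c_1770_1771 c_1772_1773

theorem c_1774_1777 : allTr (chkV P V lk) tr_1774_1777 = true := allTr_mk ck_1775 c_1774_1775 c_1776_1777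

theorem c_1778_1781 : allTr (chkV P V lk) tr_1778_1781 = true := allTr_mk ck_1779 c_1778_1779 c_1780_1781

theorem c_1782_1785 : allTr (chkV P V lk) tr_1782_1785 = true := allTr_mk ck_1783 c_1782_1783 c_1784_1785

theorem c_1791_1794 : allTr (chkV P V lk) tr_1791_1794 = true := allTr_mk ck_1792 c_1791_1792 c_1793_1794

theorem c_1795_1798 : allTr (chkV P V lk) tr_1795_1798 = true := allTr_mk ck_1796 c_1795_1796 c_1797_1798

theorem c_1799_1802 : allTr (chkV P V lk) tr_1799_1802 = true := allTr_mk ck_1800 c_1799_1800 c_1801_1802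

theorem c_1803_1806 : allTr (chkV P V lk) tr_1803_1806 = true := allTr_mk ck_1804 c_1803_1804 c_1805_1806

theorem c_1807_1810 : allTr (chkV P V lk) tr_1807_1810 = true := allTr_mk ck_1808 c_1807_1808 c_1809_1810

theorem c_1811_1814 : allTr (chkV P V lk) tr_1811_1814 = true := allTr_mk ck_1812 c_1811_1812 c_1813_1814

theorem c_1815_1818 : allTr (chkV P V lk) tr_1815_1818 = true := allTr_mk ck_1816 c_1815_1816 c_1817_1818

theorem c_1824_1827 : allTr (chkV P V lk) tr_1824_1827 = true := allTr_mk ck_1825 c_1824_1825 c_1826_1827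

theorem c_1828_1831 : allTr (chkV P V lk) tr_1828_1831 = true := allTr_mk ck_1829 c_1828_1829 c_1830_1831

theorem c_1832_1835 : allTr (chkV P V lk) tr_1832_1835 = true := allTr_mk ck_1833 c_1832_1833 c_1834_1835

theorem c_1836_1839 : allTr (chkV P V lk) tr_1836_1839 = true := allTr_mk ck_1837 c_1836_1837 c_1838_1839

theorem c_1840_1843 : allTr (chkV P V lk) tr_1840_1843 = true := allTr_mk ck_1841 c_1840_1841 c_1842_1843

theorem c_1844_1847 : allTr (chkV P V lk) tr_1844_1847 = true := allTr_mk ck_1845 c_1844_1845 c_1846_1847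

theorem c_1848_1851 : allTr (chkV P V lk) tr_1848_1851 = true := allTr_mk ck_1849 c_1848_1849 c_1850_1851

theorem c_1857_1860 : allTr (chkV P V lk) tr_1857_1860 = true := allTr_mk ck_1858 c_1857_1858 c_1859_1860

theorem c_1861_1864 : allTr (chkV P V lk) tr_1861_1864 = true := allTr_mk ck_1862 c_1861_1862 c_1863_1864

theorem c_1865_1868 : allTr (chkV P V lk) tr_1865_1868 = true := allTr_mk ck_1866 c_1865_1866 c_1867_1868

theorem c_1869_1872 : allTr (chkV P V lk) tr_1869_1872 = true := allTr_mk ck_1870 c_1869_1870 c_1871_1872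

theorem c_1873_1876 : allTr (chkV P V lk) tr_1873_1876 = true := allTr_mk ck_1874 c_1873_1874 c_1875_1876

theorem c_1877_1880 : allTr (chkV P V lk) tr_1877_1880 = true := allTr_mk ck_1878 c_1877_1878 c_1879_1880

theorem c_1881_1884 : allTr (chkV P V lk) tr_1881_1884 = true := allTr_mk ck_1882 c_1881_1882 c_1883_1884

theorem c_1890_1893 : allTr (chkV P V lk) tr_1890_1893 = true := allTr_mk ck_1891 c_1890_1891 c_1892_1893

theorem c_1894_1897 : allTr (chkV P V lk) tr_1894_1897 = true := allTr_mk ck_1895 c_1894_1895 c_1896_1897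

theorem c_1898_1901 : allTr (chkV P V lk) tr_1898_1901 = true := allTr_mk ck_1899 c_1898_1899 c_1900_1901

theorem c_1902_1905 : allTr (chkV P V lk) tr_1902_1905 = true := allTr_mk ck_1903 c_1902_1903 c_1904_1905

theorem c_1906_1909 : allTr (chkV P V lk) tr_1906_1909 = true := allTr_mk ck_1907 c_1906_1907 c_1908_1909

theorem c_1910_1913 : allTr (chkV P V lk) tr_1910_1913 = true := allTr_mk ck_1911 c_1910_1911 c_1912_1913

theorem c_1914_1917 : allTr (chkV P V lk) tr_1914_1917 = true := allTr_mk ck_1915 c_1914_1915 c_1916_1917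

theorem c_1923_1926 : allTr (chkV P V lk) tr_1923_1926 = true := allTr_mk ck_1924 c_1923_1924 c_1925_1926

theorem c_1927_1930 : allTr (chkV P V lk) tr_1927_1930 = true := allTr_mk ck_1928 c_1927_1928 c_1929_1930

theorem c_1931_1934 : allTr (chkV P V lk) tr_1931_1934 = true := allTr_mk ck_1932 c_1931_1932 c_1933_1934

theorem c_1935_1938 : allTr (chkV P V lk) tr_1935_1938 = true := allTr_mk ck_1936 c_1935_1936 c_1937_1938

theorem c_1939_1942 : allTr (chkV P V lk) tr_1939_1942 = true := allTr_mk ck_1940 c_1939_1940 c_1941_1942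

theorem c_1943_1946 : allTr (chkV P V lk) tr_1943_1946 = true := allTr_mk ck_1944 c_1943_1944 c_1945_1946

theorem c_1947_1950 : allTr (chkV P V lk) tr_1947_1950 = true := allTr_mk ck_1948 c_1947_1948 c_1949_1950

theorem c_1956_1959 : allTr (chkV P V lk) tr_1956_1959 = true := allTr_mk ck_1957 c_1956_1957 c_1958_1959

theorem c_1960_1963 : allTr (chkV P V lk) tr_1960_1963 = true := allTr_mk ck_1961 c_1960_1961 c_1962_1963

theorem c_1964_1967 : allTr (chkV P V lk) tr_1964_1967 = true := allTr_mk ck_1965 c_1964_1965 c_1966_1967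

theorem c_1968_1971 : allTr (chkV P V lk) tr_1968_1971 = true := allTr_mk ck_1969 c_1968_1969 c_1970_1971

theorem c_1972_1975 : allTr (chkV P V lk) tr_1972_1975 = true := allTr_mk ck_1973 c_1972_1973 c_1974_1975

theorem c_1976_1979 : allTr (chkV P V lk) tr_1976_1979 = true := allTr_mk ck_1977 c_1976_1977 c_1978_1979

theorem c_1980_1983 : allTr (chkV P V lk) tr_1980_1983 = true := allTr_mk ck_1981 c_1980_1981 c_1982_1983

theorem c_1989_1992 : allTr (chkV P V lk) tr_1989_1992 = true := allTr_mk ck_1990 c_1989_1990 c_1991_1992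

theorem c_1993_1996 : allTr (chkV P V lk) tr_1993_1996 = true := allTr_mk ck_1994 c_1993_1994 c_1995_1996

theorem c_1997_2000 : allTr (chkV P V lk) tr_1997_2000 = true := allTr_mk ck_1998 c_1997_1998 c_1999_2000

theorem c_2001_2004 : allTr (chkV P V lk) tr_2001_2004 = true := allTr_mk ck_2002 c_2001_2002 c_2003_2004

theorem c_2005_2008 : allTr (chkV P V lk) tr_2005_2008 = true := allTr_mk ck_2006 c_2005_2006 c_2007_2008

theorem c_2009_2012 : allTr (chkV P V lk) tr_2009_2012 = true := allTr_mk ck_2010 c_2009_2010 c_2011_2012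

theorem c_2013_2016 : allTr (chkV P V lk) tr_2013_2016 = true := allTr_mk ck_2014 c_2013_2014 c_2015_2016

theorem c_2022_2025 : allTr (chkV P V lk) tr_2022_2025 = true := allTr_mk ck_2023 c_2022_2023 c_2024_2025

theorem c_2026_2029 : allTr (chkV P V lk) tr_2026_2029 = true := allTr_mk ck_2027 c_2026_2027 c_2028_2029

theorem c_2030_2033 : allTr (chkV P V lk) tr_2030_2033 = true := allTr_mk ck_2031 c_2030_2031 c_2032_2033

theorem c_2034_2037 : allTr (chkV P V lk) tr_2034_2037 = true := allTr_mk ck_2035 c_2034_2035 c_2036_2037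

theorem c_2038_2041 : allTr (chkV P V lk) tr_2038_2041 = true := allTr_mk ck_2039 c_2038_2039 c_2040_2041

theorem c_2042_2045 : allTr (chkV P V lk) tr_2042_2045 = true := allTr_mk ck_2043 c_2042_2043 c_2044_2045

theorem c_2046_2049 : allTr (chkV P V lk) tr_2046_2049 = true := allTr_mk ck_2047 c_2046_2047 c_2048_2049

theorem c_2055_2058 : allTr (chkV P V lk) tr_2055_2058 = true := allTr_mk ck_2056 c_2055_2056 c_2057_2058

theorem c_2059_2062 : allTr (chkV P V lk) tr_2059_2062 = true := allTr_mk ck_2060 c_2059_2060 c_2061_2062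

theorem c_2063_2066 : allTr (chkV P V lk) tr_2063_2066 = true := allTr_mk ck_2064 c_2063_2064 c_2065_2066

theorem c_2067_2070 : allTr (chkV P V lk) tr_2067_2070 = true := allTr_mk ck_2068 c_2067_2068 c_2069_2070

theorem c_2071_2074 : allTr (chkV P V lk) tr_2071_2074 = true := allTr_mk ck_2072 c_2071_2072 c_2073_2074

theorem c_2075_2078 : allTr (chkV P V lk) tr_2075_2078 = true := allTr_mk ck_2076 c_2075_2076 c_2077_2078

theorem c_2079_2082 : allTr (chkV P V lk) tr_2079_2082 = true := allTr_mk ck_2080 c_2079_2080 c_2081_2082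

theorem c_2088_2091 : allTr (chkV P V lk) tr_2088_2091 = true := allTr_mk ck_2089 c_2088_2089 c_2090_2091

theorem c_2092_2095 : allTr (chkV P V lk) tr_2092_2095 = true := allTr_mk ck_2093 c_2092_2093 c_2094_2095

theorem c_2096_2099 : allTr (chkV P V lk) tr_2096_2099 = true := allTr_mk ck_2097 c_2096_2097 c_2098_2099

theorem c_2100_2103 : allTr (chkV P V lk) tr_2100_2103 = true := allTr_mk ck_2101 c_2100_2101 c_2102_2103

theorem c_2104_2107 : allTr (chkV P V lk) tr_2104_2107 = true := allTr_mk ck_2105 c_2104_2105 c_2106_2107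

theorem c_2108_2111 : allTr (chkV P V lk) tr_2108_2111 = true := allTr_mk ck_2109 c_2108_2109 c_2110_2111

theorem c_2112_2115 : allTr (chkV P V lk) tr_2112_2115 = true := allTr_mk ck_2113 c_2112_2113 c_2114_2115

theorem c_1290_1294 : allTr (chkV P V lk) tr_1290_1294 = true := allTr_mk ck_1292 c_1290_1292 c_1293_1294

theorem c_1323_1327 : allTr (chkV P V lk) tr_1323_1327 = true := allTr_mk ck_1325 c_1323_1325 c_1326_1327

theorem c_1356_1360 : allTr (chkV P V lk) tr_1356_1360 = true := allTr_mk ck_1358 c_1356_1358 c_1359_1360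

theorem c_1389_1393 : allTr (chkV P V lk) tr_1389_1393 = true := allTr_mk ck_1391 c_1389_1391 c_1392_1393

theorem c_1422_1426 : allTr (chkV P V lk) tr_1422_1426 = true := allTr_mk ck_1424 c_1422_1424 c_1425_1426

theorem c_1455_1459 : allTr (chkV P V lk) tr_1455_1459 = true := allTr_mk ck_1457 c_1455_1457 c_1458_1459

theorem c_1488_1492 : allTr (chkV P V lk) tr_1488_1492 = true := allTr_mk ck_1490 c_1488_1490 c_1491_1492

theorem c_1521_1525 : allTr (chkV P V lk) tr_1521_1525 = true := allTr_mk ck_1523 c_1521_1523 c_1524_1525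

theorem c_1554_1558 : allTr (chkV P V lk) tr_1554_1558 = true := allTr_mk ck_1556 c_1554_1556 c_1557_1558

theorem c_1587_1591 : allTr (chkV P V lk) tr_1587_1591 = true := allTr_mk ck_1589 c_1587_1589 c_1590_1591

theorem c_1604_1608 : allTr (chkV P V lk) tr_1604_1608 = true := allTr_mk ck_1606 c_1604_1606 c_1607_1608

theorem c_1621_1625 : allTr (chkV P V lk) tr_1621_1625 = true := allTr_mk ck_1623 c_1621_1623 c_1624_1625

theorem c_1654_1658 : allTr (chkV P V lk) tr_1654_1658 = true := allTr_mk ck_1656 c_1654_1656 c_1657_1658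

theorem c_1687_1691 : allTr (chkV P V lk) tr_1687_1691 = true := allTr_mk ck_1689 c_1687_1689 c_1690_1691

theorem c_1720_1724 : allTr (chkV P V lk) tr_1720_1724 = true := allTr_mk ck_1722 c_1720_1722 c_1723_1724

theorem c_1753_1757 : allTr (chkV P V lk) tr_1753_1757 = true := allTr_mk ck_1755 c_1753_1755 c_1756_1757

theorem c_1786_1790 : allTr (chkV P V lk) tr_1786_1790 = true := allTr_mk ck_1788 c_1786_1788 c_1789_1790

theorem c_1819_1823 : allTr (chkV P V lk) tr_1819_1823 = true := allTr_mk ck_1821 c_1819_1821 c_1822_1823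

theorem c_1852_1856 : allTr (chkV P V lk) tr_1852_1856 = true := allTr_mk ck_1854 c_1852_1854 c_1855_1856

theorem c_1885_1889 : allTr (chkV P V lk) tr_1885_1889 = true := allTr_mk ck_1887 c_1885_1887 c_1888_1889

theorem c_1918_1922 : allTr (chkV P V lk) tr_1918_1922 = true := allTr_mk ck_1920 c_1918_1920 c_1921_1922

theorem c_1951_1955 : allTr (chkV P V lk) tr_1951_1955 = true := allTr_mk ck_1953 c_1951_1953 c_1954_1955

theorem c_1984_1988 : allTr (chkV P V lk) tr_1984_1988 = true := allTr_mk ck_1986 c_1984_1986 c_1987_1988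

theorem c_2017_2021 : allTr (chkV P V lk) tr_2017_2021 = true := allTr_mk ck_2019 c_2017_2019 c_2020_2021

theorem c_2050_2054 : allTr (chkV P V lk) tr_2050_2054 = true := allTr_mk ck_2052 c_2050_2052 c_2053_2054

theorem c_2083_2087 : allTr (chkV P V lk) tr_2083_2087 = true := allTr_mk ck_2085 c_2083_2085 c_2086_2087

theorem c_117_124 : allTr (chkV P V lk) tr_117_124 = true := allTr_mk ck_120 c_117_120 c_121_124

theorem c_183_190 : allTr (chkV P V lk) tr_183_190 = true := allTr_mk ck_186 c_183_186 c_187_190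

theorem c_241_248 : allTr (chkV P V lk) tr_241_248 = true := allTr_mk ck_244 c_241_244 c_245_248

theorem c_340_347 : allTr (chkV P V lk) tr_340_347 = true := allTr_mk ck_343 c_340_343 c_344_347

theorem c_902_909 : allTr (chkV P V lk) tr_902_909 = true := allTr_mk ck_905 c_902_905 c_906_909

theorem c_951_958 : allTr (chkV P V lk) tr_951_958 = true := allTr_mk ck_954 c_951_954 c_955_958

theorem c_1084_1091 : allTr (chkV P V lk) tr_1084_1091 = true := allTr_mk ck_1087 c_1084_1087 c_1088_1091

theorem c_1150_1157 : allTr (chkV P V lk) tr_1150_1157 = true := allTr_mk ck_1153 c_1150_1153 c_1154_1157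

theorem c_1208_1215 : allTr (chkV P V lk) tr_1208_1215 = true := allTr_mk ck_1211 c_1208_1211 c_1212_1215

theorem c_1233_1240 : allTr (chkV P V lk) tr_1233_1240 = true := allTr_mk ck_1236 c_1233_1236 c_1237_1240

theorem c_1274_1281 : allTr (chkV P V lk) tr_1274_1281 = true := allTr_mk ck_1277 c_1274_1277 c_1278_1281

theorem c_1282_1289 : allTr (chkV P V lk) tr_1282_1289 = true := allTr_mk ck_1285 c_1282_1285 c_1286_1289

theorem c_1299_1306 : allTr (chkV P V lk) tr_1299_1306 = true := allTr_mk ck_1302 c_1299_1302 c_1303_1306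

theorem c_1307_1314 : allTr (chkV P V lk) tr_1307_1314 = true := allTr_mk ck_1310 c_1307_1310 c_1311_1314

theorem c_1315_1322 : allTr (chkV P V lk) tr_1315_1322 = true := allTr_mk ck_1318 c_1315_1318 c_1319_1322

theorem c_1332_1339 : allTr (chkV P V lk) tr_1332_1339 = true := allTr_mk ck_1335 c_1332_1335 c_1336_1339

theorem c_1340_1347 : allTr (chkV P V lk) tr_1340_1347 = true := allTr_mk ck_1343 c_1340_1343 c_1344_1347

theorem c_1348_1355 : allTr (chkV P V lk) tr_1348_1355 = true := allTr_mk ck_1351 c_1348_1351 c_1352_1355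

theorem c_1365_1372 : allTr (chkV P V lk) tr_1365_1372 = true := allTr_mk ck_1368 c_1365_1368 c_1369_1372

theorem c_1373_1380 : allTr (chkV P V lk) tr_1373_1380 = true := allTr_mk ck_1376 c_1373_1376 c_1377_1380

theorem c_1381_1388 : allTr (chkV P V lk) tr_1381_1388 = true := allTr_mk ck_1384 c_1381_1384 c_1385_1388

theorem c_1398_1405 : allTr (chkV P V lk) tr_1398_1405 = true := allTr_mk ck_1401 c_1398_1401 c_1402_1405

theorem c_1406_1413 : allTr (chkV P V lk) tr_1406_1413 = true := allTr_mk ck_1409 c_1406_1409 c_1410_1413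

theorem c_1414_1421 : allTr (chkV P V lk) tr_1414_1421 = true := allTr_mk ck_1417 c_1414_1417 c_1418_1421

theorem c_1431_1438 : allTr (chkV P V lk) tr_1431_1438 = true := allTr_mk ck_1434 c_1431_1434 c_1435_1438

theorem c_1439_1446 : allTr (chkV P V lk) tr_1439_1446 = true := allTr_mk ck_1442 c_1439_1442 c_1443_1446

theorem c_1464_1471 : allTr (chkV P V lk) tr_1464_1471 = true := allTr_mk ck_1467 c_1464_1467 c_1468_1471

theorem c_1472_1479 : allTr (chkV P V lk) tr_1472_1479 = true := allTr_mk ck_1475 c_1472_1475 c_1476_1479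

theorem c_1480_1487 : allTr (chkV P V lk) tr_1480_1487 = true := allTr_mk ck_1483 c_1480_1483 c_1484_1487

theorem c_1497_1504 : allTr (chkV P V lk) tr_1497_1504 = true := allTr_mk ck_1500 c_1497_1500 c_1501_1504

theorem c_1505_1512 : allTr (chkV P V lk) tr_1505_1512 = true := allTr_mk ck_1508 c_1505_1508 c_1509_1512

theorem c_1513_1520 : allTr (chkV P V lk) tr_1513_1520 = true := allTr_mk ck_1516 c_1513_1516 c_1517_1520

theorem c_1530_1537 : allTr (chkV P V lk) tr_1530_1537 = true := allTr_mk ck_1533 c_1530_1533 c_1534_1537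

theorem c_1538_1545 : allTr (chkV P V lk) tr_1538_1545 = true := allTr_mk ck_1541 c_1538_1541 c_1542_1545

theorem c_1546_1553 : allTr (chkV P V lk) tr_1546_1553 = true := allTr_mk ck_1549 c_1546_1549 c_1550_1553

theorem c_1563_1570 : allTr (chkV P V lk) tr_1563_1570 = true := allTr_mk ck_1566 c_1563_1566 c_1567_1570

theorem c_1571_1578 : allTr (chkV P V lk) tr_1571_1578 = true := allTr_mk ck_1574 c_1571_1574 c_1575_1578

theorem c_1579_1586 : allTr (chkV P V lk) tr_1579_1586 = true := allTr_mk ck_1582 c_1579_1582 c_1583_1586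

theorem c_1596_1603 : allTr (chkV P V lk) tr_1596_1603 = true := allTr_mk ck_1599 c_1596_1599 c_1600_1603

theorem c_1613_1620 : allTr (chkV P V lk) tr_1613_1620 = true := allTr_mk ck_1616 c_1613_1616 c_1617_1620

theorem c_1630_1637 : allTr (chkV P V lk) tr_1630_1637 = true := allTr_mk ck_1633 c_1630_1633 c_1634_1637

theorem c_1638_1645 : allTr (chkV P V lk) tr_1638_1645 = true := allTr_mk ck_1641 c_1638_1641 c_1642_1645

theorem c_1646_1653 : allTr (chkV P V lk) tr_1646_1653 = true := allTr_mk ck_1649 c_1646_1649 c_1650_1653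

theorem c_1663_1670 : allTr (chkV P V lk) tr_1663_1670 = true := allTr_mk ck_1666 c_1663_1666 c_1667_1670

theorem c_1671_1678 : allTr (chkV P V lk) tr_1671_1678 = true := allTr_mk ck_1674 c_1671_1674 c_1675_1678

theorem c_1679_1686 : allTr (chkV P V lk) tr_1679_1686 = true := allTr_mk ck_1682 c_1679_1682 c_1683_1686

theorem c_1696_1703 : allTr (chkV P V lk) tr_1696_1703 = true := allTr_mk ck_1699 c_1696_1699 c_1700_1703

theorem c_1704_1711 : allTr (chkV P V lk) tr_1704_1711 = true := allTr_mk ck_1707 c_1704_1707 c_1708_1711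

theorem c_1712_1719 : allTr (chkV P V lk) tr_1712_1719 = true := allTr_mk ck_1715 c_1712_1715 c_1716_1719

theorem c_1729_1736 : allTr (chkV P V lk) tr_1729_1736 = true := allTr_mk ck_1732 c_1729_1732 c_1733_1736

theorem c_1737_1744 : allTr (chkV P V lk) tr_1737_1744 = true := allTr_mk ck_1740 c_1737_1740 c_1741_1744

theorem c_1745_1752 : allTr (chkV P V lk) tr_1745_1752 = true := allTr_mk ck_1748 c_1745_1748 c_1749_1752

theorem c_1762_1769 : allTr (chkV P V lk) tr_1762_1769 = true := allTr_mk ck_1765 c_1762_1765 c_1766_1769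

theorem c_1770_1777 : allTr (chkV P V lk) tr_1770_1777 = true := allTr_mk ck_1773 c_1770_1773 c_1774_1777

theorem c_1778_1785 : allTr (chkV P V lk) tr_1778_1785 = true := allTr_mk ck_1781 c_1778_1781 c_1782_1785

theorem c_1795_1802 : allTr (chkV P V lk) tr_1795_1802 = true := allTr_mk ck_1798 c_1795_1798 c_1799_1802

theorem c_1803_1810 : allTr (chkV P V lk) tr_1803_1810 = true := allTr_mk ck_1806 c_1803_1806 c_1807_1810

theorem c_1811_1818 : allTr (chkV P V lk) tr_1811_1818 = true := allTr_mk ck_1814 c_1811_1814 c_1815_1818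

theorem c_1828_1835 : allTr (chkV P V lk) tr_1828_1835 = true := allTr_mk ck_1831 c_1828_1831 c_1832_1835

theorem c_1836_1843 : allTr (chkV P V lk) tr_1836_1843 = true := allTr_mk ck_1839 c_1836_1839 c_1840_1843

theorem c_1844_1851 : allTr (chkV P V lk) tr_1844_1851 = true := allTr_mk ck_1847 c_1844_1847 c_1848_1851

theorem c_1861_1868 : allTr (chkV P V lk) tr_1861_1868 = true := allTr_mk ck_1864 c_1861_1864 c_1865_1868

theorem c_1869_1876 : allTr (chkV P V lk) tr_1869_1876 = true := allTr_mk ck_1872 c_1869_1872 c_1873_1876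

theorem c_1877_1884 : allTr (chkV P V lk) tr_1877_1884 = true := allTr_mk ck_1880 c_1877_1880 c_1881_1884

theorem c_1894_1901 : allTr (chkV P V lk) tr_1894_1901 = true := allTr_mk ck_1897 c_1894_1897 c_1898_1901

theorem c_1902_1909 : allTr (chkV P V lk) tr_1902_1909 = true := allTr_mk ck_1905 c_1902_1905 c_1906_1909

theorem c_1910_1917 : allTr (chkV P V lk) tr_1910_1917 = true := allTr_mk ck_1913 c_1910_1913 c_1914_1917

theorem c_1927_1934 : allTr (chkV P V lk) tr_1927_1934 = true := allTr_mk ck_1930 c_1927_1930 c_1931_1934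

theorem c_1935_1942 : allTr (chkV P V lk) tr_1935_1942 = true := allTr_mk ck_1938 c_1935_1938 c_1939_1942

theorem c_1943_1950 : allTr (chkV P V lk) tr_1943_1950 = true := allTr_mk ck_1946 c_1943_1946 c_1947_1950

theorem c_1960_1967 : allTr (chkV P V lk) tr_1960_1967 = true := allTr_mk ck_1963 c_1960_1963 c_1964_1967

theorem c_1968_1975 : allTr (chkV P V lk) tr_1968_1975 = true := allTr_mk ck_1971 c_1968_1971 c_1972_1975

theorem c_1976_1983 : allTr (chkV P V lk) tr_1976_1983 = true := allTr_mk ck_1979 c_1976_1979 c_1980_1983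

theorem c_1993_2000 : allTr (chkV P V lk) tr_1993_2000 = true := allTr_mk ck_1996 c_1993_1996 c_1997_2000

theorem c_2001_2008 : allTr (chkV P V lk) tr_2001_2008 = true := allTr_mk ck_2004 c_2001_2004 c_2005_2008

theorem c_2009_2016 : allTr (chkV P V lk) tr_2009_2016 = true := allTr_mk ck_2012 c_2009_2012 c_2013_2016

theorem c_2026_2033 : allTr (chkV P V lk) tr_2026_2033 = true := allTr_mk ck_2029 c_2026_2029 c_2030_2033

theorem c_2034_2041 : allTr (chkV P V lk) tr_2034_2041 = true := allTr_mk ck_2037 c_2034_2037 c_2038_2041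

theorem c_2042_2049 : allTr (chkV P V lk) tr_2042_2049 = true := allTr_mk ck_2045 c_2042_2045 c_2046_2049

theorem c_2059_2066 : allTr (chkV P V lk) tr_2059_2066 = true := allTr_mk ck_2062 c_2059_2062 c_2063_2066

theorem c_2067_2074 : allTr (chkV P V lk) tr_2067_2074 = true := allTr_mk ck_2070 c_2067_2070 c_2071_2074

theorem c_2075_2082 : allTr (chkV P V lk) tr_2075_2082 = true := allTr_mk ck_2078 c_2075_2078 c_2079_2082

theorem c_2092_2099 : allTr (chkV P V lk) tr_2092_2099 = true := allTr_mk ck_2095 c_2092_2095 c_2096_2099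

theorem c_2100_2107 : allTr (chkV P V lk) tr_2100_2107 = true := allTr_mk ck_2103 c_2100_2103 c_2104_2107

theorem c_2108_2115 : allTr (chkV P V lk) tr_2108_2115 = true := allTr_mk ck_2111 c_2108_2111 c_2112_2115

theorem c_166_174 : allTr (chkV P V lk) tr_166_174 = true := allTr_mk ck_170 c_166_170 c_171_174

theorem c_232_240 : allTr (chkV P V lk) tr_232_240 = true := allTr_mk ck_236 c_232_236 c_237_240

theorem c_331_339 : allTr (chkV P V lk) tr_331_339 = true := allTr_mk ck_335 c_331_335 c_336_339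

theorem c_364_372 : allTr (chkV P V lk) tr_364_372 = true := allTr_mk ck_368 c_364_368 c_369_372

theorem c_463_471 : allTr (chkV P V lk) tr_463_471 = true := allTr_mk ck_467 c_463_467 c_468_471

theorem c_496_504 : allTr (chkV P V lk) tr_496_504 = true := allTr_mk ck_500 c_496_500 c_501_504

theorem c_1075_1083 : allTr (chkV P V lk) tr_1075_1083 = true := allTr_mk ck_1079 c_1075_1079 c_1080_1083

theorem c_1191_1199 : allTr (chkV P V lk) tr_1191_1199 = true := allTr_mk ck_1195 c_1191_1195 c_1196_1199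

theorem c_1290_1298 : allTr (chkV P V lk) tr_1290_1298 = true := allTr_mk ck_1294 c_1290_1294 c_1295_1298

theorem c_1323_1331 : allTr (chkV P V lk) tr_1323_1331 = true := allTr_mk ck_1327 c_1323_1327 c_1328_1331

theorem c_1356_1364 : allTr (chkV P V lk) tr_1356_1364 = true := allTr_mk ck_1360 c_1356_1360 c_1361_1364

theorem c_1389_1397 : allTr (chkV P V lk) tr_1389_1397 = true := allTr_mk ck_1393 c_1389_1393 c_1394_1397

theorem c_1422_1430 : allTr (chkV P V lk) tr_1422_1430 = true := allTr_mk ck_1426 c_1422_1426 c_1427_1430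

theorem c_1455_1463 : allTr (chkV P V lk) tr_1455_1463 = true := allTr_mk ck_1459 c_1455_1459 c_1460_1463

theorem c_1488_1496 : allTr (chkV P V lk) tr_1488_1496 = true := allTr_mk ck_1492 c_1488_1492 c_1493_1496

theorem c_1521_1529 : allTr (chkV P V lk) tr_1521_1529 = true := allTr_mk ck_1525 c_1521_1525 c_1526_1529

theorem c_1554_1562 : allTr (chkV P V lk) tr_1554_1562 = true := allTr_mk ck_1558 c_1554_1558 c_1559_1562

theorem c_1587_1595 : allTr (chkV P V lk) tr_1587_1595 = true := allTr_mk ck_1591 c_1587_1591 c_1592_1595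

theorem c_1604_1612 : allTr (chkV P V lk) tr_1604_1612 = true := allTr_mk ck_1608 c_1604_1608 c_1609_1612

theorem c_1621_1629 : allTr (chkV P V lk) tr_1621_1629 = true := allTr_mk ck_1625 c_1621_1625 c_1626_1629

theorem c_1654_1662 : allTr (chkV P V lk) tr_1654_1662 = true := allTr_mk ck_1658 c_1654_1658 c_1659_1662

theorem c_1687_1695 : allTr (chkV P V lk) tr_1687_1695 = true := allTr_mk ck_1691 c_1687_1691 c_1692_1695

theorem c_1720_1728 : allTr (chkV P V lk) tr_1720_1728 = true := allTr_mk ck_1724 c_1720_1724 c_1725_1728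

theorem c_1753_1761 : allTr (chkV P V lk) tr_1753_1761 = true := allTr_mk ck_1757 c_1753_1757 c_1758_1761

theorem c_1786_1794 : allTr (chkV P V lk) tr_1786_1794 = true := allTr_mk ck_1790 c_1786_1790 c_1791_1794

theorem c_1819_1827 : allTr (chkV P V lk) tr_1819_1827 = true := allTr_mk ck_1823 c_1819_1823 c_1824_1827

theorem c_1852_1860 : allTr (chkV P V lk) tr_1852_1860 = true := allTr_mk ck_1856 c_1852_1856 c_1857_1860

theorem c_1885_1893 : allTr (chkV P V lk) tr_1885_1893 = true := allTr_mk ck_1889 c_1885_1889 c_1890_1893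

theorem c_1918_1926 : allTr (chkV P V lk) tr_1918_1926 = true := allTr_mk ck_1922 c_1918_1922 c_1923_1926

theorem c_1951_1959 : allTr (chkV P V lk) tr_1951_1959 = true := allTr_mk ck_1955 c_1951_1955 c_1956_1959

theorem c_1984_1992 : allTr (chkV P V lk) tr_1984_1992 = true := allTr_mk ck_1988 c_1984_1988 c_1989_1992

theorem c_2017_2025 : allTr (chkV P V lk) tr_2017_2025 = true := allTr_mk ck_2021 c_2017_2021 c_2022_2025

theorem c_2050_2058 : allTr (chkV P V lk) tr_2050_2058 = true := allTr_mk ck_2054 c_2050_2054 c_2055_2058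

theorem c_2083_2091 : allTr (chkV P V lk) tr_2083_2091 = true := allTr_mk ck_2087 c_2083_2087 c_2088_2091

theorem c_117_132 : allTr (chkV P V lk) tr_117_132 = true := allTr_mk ck_124 c_117_124 c_125_132

theorem c_183_198 : allTr (chkV P V lk) tr_183_198 = true := allTr_mk ck_190 c_183_190 c_191_198

theorem c_249_264 : allTr (chkV P V lk) tr_249_264 = true := allTr_mk ck_256 c_249_256 c_257_264

theorem c_348_363 : allTr (chkV P V lk) tr_348_363 = true := allTr_mk ck_355 c_348_355 c_356_363

theorem c_447_462 : allTr (chkV P V lk) tr_447_462 = true := allTr_mk ck_454 c_447_454 c_455_462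

theorem c_480_495 : allTr (chkV P V lk) tr_480_495 = true := allTr_mk ck_487 c_480_487 c_488_495

theorem c_580_595 : allTr (chkV P V lk) tr_580_595 = true := allTr_mk ck_587 c_580_587 c_588_595

theorem c_679_694 : allTr (chkV P V lk) tr_679_694 = true := allTr_mk ck_686 c_679_686 c_687_694

theorem c_712_727 : allTr (chkV P V lk) tr_712_727 = true := allTr_mk ck_719 c_712_719 c_720_727

theorem c_811_826 : allTr (chkV P V lk) tr_811_826 = true := allTr_mk ck_818 c_811_818 c_819_826

theorem c_844_859 : allTr (chkV P V lk) tr_844_859 = true := allTr_mk ck_851 c_844_851 c_852_859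

theorem c_910_925 : allTr (chkV P V lk) tr_910_925 = true := allTr_mk ck_917 c_910_917 c_918_925

theorem c_943_958 : allTr (chkV P V lk) tr_943_958 = true := allTr_mk ck_950 c_943_950 c_951_958

theorem c_1042_1057 : allTr (chkV P V lk) tr_1042_1057 = true := allTr_mk ck_1049 c_1042_1049 c_1050_1057

theorem c_1142_1157 : allTr (chkV P V lk) tr_1142_1157 = true := allTr_mk ck_1149 c_1142_1149 c_1150_1157

theorem c_1175_1190 : allTr (chkV P V lk) tr_1175_1190 = true := allTr_mk ck_1182 c_1175_1182 c_1183_1190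

theorem c_1208_1223 : allTr (chkV P V lk) tr_1208_1223 = true := allTr_mk ck_1215 c_1208_1215 c_1216_1223

theorem c_1274_1289 : allTr (chkV P V lk) tr_1274_1289 = true := allTr_mk ck_1281 c_1274_1281 c_1282_1289

theorem c_1307_1322 : allTr (chkV P V lk) tr_1307_1322 = true := allTr_mk ck_1314 c_1307_1314 c_1315_1322

theorem c_1340_1355 : allTr (chkV P V lk) tr_1340_1355 = true := allTr_mk ck_1347 c_1340_1347 c_1348_1355

theorem c_1373_1388 : allTr (chkV P V lk) tr_1373_1388 = true := allTr_mk ck_1380 c_1373_1380 c_1381_1388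

theorem c_1406_1421 : allTr (chkV P V lk) tr_1406_1421 = true := allTr_mk ck_1413 c_1406_1413 c_1414_1421

theorem c_1439_1454 : allTr (chkV P V lk) tr_1439_1454 = true := allTr_mk ck_1446 c_1439_1446 c_1447_1454

theorem c_1472_1487 : allTr (chkV P V lk) tr_1472_1487 = true := allTr_mk ck_1479 c_1472_1479 c_1480_1487

theorem c_1505_1520 : allTr (chkV P V lk) tr_1505_1520 = true := allTr_mk ck_1512 c_1505_1512 c_1513_1520

theorem c_1538_1553 : allTr (chkV P V lk) tr_1538_1553 = true := allTr_mk ck_1545 c_1538_1545 c_1546_1553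

theorem c_1571_1586 : allTr (chkV P V lk) tr_1571_1586 = true := allTr_mk ck_1578 c_1571_1578 c_1579_1586

theorem c_1638_1653 : allTr (chkV P V lk) tr_1638_1653 = true := allTr_mk ck_1645 c_1638_1645 c_1646_1653

theorem c_1671_1686 : allTr (chkV P V lk) tr_1671_1686 = true := allTr_mk ck_1678 c_1671_1678 c_1679_1686

theorem c_1704_1719 : allTr (chkV P V lk) tr_1704_1719 = true := allTr_mk ck_1711 c_1704_1711 c_1712_1719

theorem c_1737_1752 : allTr (chkV P V lk) tr_1737_1752 = true := allTr_mk ck_1744 c_1737_1744 c_1745_1752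

theorem c_1770_1785 : allTr (chkV P V lk) tr_1770_1785 = true := allTr_mk ck_1777 c_1770_1777 c_1778_1785

theorem c_1803_1818 : allTr (chkV P V lk) tr_1803_1818 = true := allTr_mk ck_1810 c_1803_1810 c_1811_1818

theorem c_1836_1851 : allTr (chkV P V lk) tr_1836_1851 = true := allTr_mk ck_1843 c_1836_1843 c_1844_1851

theorem c_1869_1884 : allTr (chkV P V lk) tr_1869_1884 = true := allTr_mk ck_1876 c_1869_1876 c_1877_1884

theorem c_1902_1917 : allTr (chkV P V lk) tr_1902_1917 = true := allTr_mk ck_1909 c_1902_1909 c_1910_1917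

theorem c_1935_1950 : allTr (chkV P V lk) tr_1935_1950 = true := allTr_mk ck_1942 c_1935_1942 c_1943_1950

theorem c_1968_1983 : allTr (chkV P V lk) tr_1968_1983 = true := allTr_mk ck_1975 c_1968_1975 c_1976_1983

theorem c_2001_2016 : allTr (chkV P V lk) tr_2001_2016 = true := allTr_mk ck_2008 c_2001_2008 c_2009_2016

theorem c_2034_2049 : allTr (chkV P V lk) tr_2034_2049 = true := allTr_mk ck_2041 c_2034_2041 c_2042_2049

theorem c_2067_2082 : allTr (chkV P V lk) tr_2067_2082 = true := allTr_mk ck_2074 c_2067_2074 c_2075_2082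

theorem c_2100_2115 : allTr (chkV P V lk) tr_2100_2115 = true := allTr_mk ck_2107 c_2100_2107 c_2108_2115

theorem c_166_182 : allTr (chkV P V lk) tr_166_182 = true := allTr_mk ck_174 c_166_174 c_175_182

theorem c_232_248 : allTr (chkV P V lk) tr_232_248 = true := allTr_mk ck_240 c_232_240 c_241_248

theorem c_265_281 : allTr (chkV P V lk) tr_265_281 = true := allTr_mk ck_273 c_265_273 c_274_281

theorem c_331_347 : allTr (chkV P V lk) tr_331_347 = true := allTr_mk ck_339 c_331_339 c_340_347

theorem c_364_380 : allTr (chkV P V lk) tr_364_380 = true := allTr_mk ck_372 c_364_372 c_373_380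

theorem c_430_446 : allTr (chkV P V lk) tr_430_446 = true := allTr_mk ck_438 c_430_438 c_439_446

theorem c_463_479 : allTr (chkV P V lk) tr_463_479 = true := allTr_mk ck_471 c_463_471 c_472_479

theorem c_496_512 : allTr (chkV P V lk) tr_496_512 = true := allTr_mk ck_504 c_496_504 c_505_512

theorem c_546_562 : allTr (chkV P V lk) tr_546_562 = true := allTr_mk ck_554 c_546_554 c_555_562

theorem c_563_579 : allTr (chkV P V lk) tr_563_579 = true := allTr_mk ck_571 c_563_571 c_572_579

theorem c_596_612 : allTr (chkV P V lk) tr_596_612 = true := allTr_mk ck_604 c_596_604 c_605_612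

theorem c_662_678 : allTr (chkV P V lk) tr_662_678 = true := allTr_mk ck_670 c_662_670 c_671_678

theorem c_695_711 : allTr (chkV P V lk) tr_695_711 = true := allTr_mk ck_703 c_695_703 c_704_711

theorem c_728_744 : allTr (chkV P V lk) tr_728_744 = true := allTr_mk ck_736 c_728_736 c_737_744

theorem c_794_810 : allTr (chkV P V lk) tr_794_810 = true := allTr_mk ck_802 c_794_802 c_803_810

theorem c_827_843 : allTr (chkV P V lk) tr_827_843 = true := allTr_mk ck_835 c_827_835 c_836_843

theorem c_893_909 : allTr (chkV P V lk) tr_893_909 = true := allTr_mk ck_901 c_893_901 c_902_909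

theorem c_926_942 : allTr (chkV P V lk) tr_926_942 = true := allTr_mk ck_934 c_926_934 c_935_942

theorem c_959_975 : allTr (chkV P V lk) tr_959_975 = true := allTr_mk ck_967 c_959_967 c_968_975

theorem c_1025_1041 : allTr (chkV P V lk) tr_1025_1041 = true := allTr_mk ck_1033 c_1025_1033 c_1034_1041

theorem c_1058_1074 : allTr (chkV P V lk) tr_1058_1074 = true := allTr_mk ck_1066 c_1058_1066 c_1067_1074

theorem c_1075_1091 : allTr (chkV P V lk) tr_1075_1091 = true := allTr_mk ck_1083 c_1075_1083 c_1084_1091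

theorem c_1092_1108 : allTr (chkV P V lk) tr_1092_1108 = true := allTr_mk ck_1100 c_1092_1100 c_1101_1108

theorem c_1191_1207 : allTr (chkV P V lk) tr_1191_1207 = true := allTr_mk ck_1199 c_1191_1199 c_1200_1207

theorem c_1224_1240 : allTr (chkV P V lk) tr_1224_1240 = true := allTr_mk ck_1232 c_1224_1232 c_1233_1240

theorem c_1290_1306 : allTr (chkV P V lk) tr_1290_1306 = true := allTr_mk ck_1298 c_1290_1298 c_1299_1306

theorem c_1323_1339 : allTr (chkV P V lk) tr_1323_1339 = true := allTr_mk ck_1331 c_1323_1331 c_1332_1339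

theorem c_1356_1372 : allTr (chkV P V lk) tr_1356_1372 = true := allTr_mk ck_1364 c_1356_1364 c_1365_1372

theorem c_1389_1405 : allTr (chkV P V lk) tr_1389_1405 = true := allTr_mk ck_1397 c_1389_1397 c_1398_1405

theorem c_1422_1438 : allTr (chkV P V lk) tr_1422_1438 = true := allTr_mk ck_1430 c_1422_1430 c_1431_1438

theorem c_1455_1471 : allTr (chkV P V lk) tr_1455_1471 = true := allTr_mk ck_1463 c_1455_1463 c_1464_1471

theorem c_1488_1504 : allTr (chkV P V lk) tr_1488_1504 = true := allTr_mk ck_1496 c_1488_1496 c_1497_1504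

theorem c_1521_1537 : allTr (chkV P V lk) tr_1521_1537 = true := allTr_mk ck_1529 c_1521_1529 c_1530_1537

theorem c_1554_1570 : allTr (chkV P V lk) tr_1554_1570 = true := allTr_mk ck_1562 c_1554_1562 c_1563_1570

theorem c_1587_1603 : allTr (chkV P V lk) tr_1587_1603 = true := allTr_mk ck_1595 c_1587_1595 c_1596_1603

theorem c_1604_1620 : allTr (chkV P V lk) tr_1604_1620 = true := allTr_mk ck_1612 c_1604_1612 c_1613_1620

theorem c_1621_1637 : allTr (chkV P V lk) tr_1621_1637 = true := allTr_mk ck_1629 c_1621_1629 c_1630_1637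

theorem c_1654_1670 : allTr (chkV P V lk) tr_1654_1670 = true := allTr_mk ck_1662 c_1654_1662 c_1663_1670

theorem c_1687_1703 : allTr (chkV P V lk) tr_1687_1703 = true := allTr_mk ck_1695 c_1687_1695 c_1696_1703

theorem c_1720_1736 : allTr (chkV P V lk) tr_1720_1736 = true := allTr_mk ck_1728 c_1720_1728 c_1729_1736

theorem c_1753_1769 : allTr (chkV P V lk) tr_1753_1769 = true := allTr_mk ck_1761 c_1753_1761 c_1762_1769

theorem c_1786_1802 : allTr (chkV P V lk) tr_1786_1802 = true := allTr_mk ck_1794 c_1786_1794 c_1795_1802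

theorem c_1819_1835 : allTr (chkV P V lk) tr_1819_1835 = true := allTr_mk ck_1827 c_1819_1827 c_1828_1835

theorem c_1852_1868 : allTr (chkV P V lk) tr_1852_1868 = true := allTr_mk ck_1860 c_1852_1860 c_1861_1868

theorem c_1885_1901 : allTr (chkV P V lk) tr_1885_1901 = true := allTr_mk ck_1893 c_1885_1893 c_1894_1901

theorem c_1918_1934 : allTr (chkV P V lk) tr_1918_1934 = true := allTr_mk ck_1926 c_1918_1926 c_1927_1934

theorem c_1951_1967 : allTr (chkV P V lk) tr_1951_1967 = true := allTr_mk ck_1959 c_1951_1959 c_1960_1967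

theorem c_1984_2000 : allTr (chkV P V lk) tr_1984_2000 = true := allTr_mk ck_1992 c_1984_1992 c_1993_2000

theorem c_2017_2033 : allTr (chkV P V lk) tr_2017_2033 = true := allTr_mk ck_2025 c_2017_2025 c_2026_2033

theorem c_2050_2066 : allTr (chkV P V lk) tr_2050_2066 = true := allTr_mk ck_2058 c_2050_2058 c_2059_2066

theorem c_2083_2099 : allTr (chkV P V lk) tr_2083_2099 = true := allTr_mk ck_2091 c_2083_2091 c_2092_2099

theorem c_67_99 : allTr (chkV P V lk) tr_67_99 = true := allTr_mk ck_83 c_67_83 c_84_99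

theorem c_100_132 : allTr (chkV P V lk) tr_100_132 = true := allTr_mk ck_116 c_100_116 c_117_132

theorem c_133_165 : allTr (chkV P V lk) tr_133_165 = true := allTr_mk ck_149 c_133_149 c_150_165

theorem c_166_198 : allTr (chkV P V lk) tr_166_198 = true := allTr_mk ck_182 c_166_182 c_183_198

theorem c_232_264 : allTr (chkV P V lk) tr_232_264 = true := allTr_mk ck_248 c_232_248 c_249_264

theorem c_265_297 : allTr (chkV P V lk) tr_265_297 = true := allTr_mk ck_281 c_265_281 c_282_297

theorem c_298_330 : allTr (chkV P V lk) tr_298_330 = true := allTr_mk ck_314 c_298_314 c_315_330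

theorem c_331_363 : allTr (chkV P V lk) tr_331_363 = true := allTr_mk ck_347 c_331_347 c_348_363

theorem c_364_396 : allTr (chkV P V lk) tr_364_396 = true := allTr_mk ck_380 c_364_380 c_381_396

theorem c_430_462 : allTr (chkV P V lk) tr_430_462 = true := allTr_mk ck_446 c_430_446 c_447_462

theorem c_463_495 : allTr (chkV P V lk) tr_463_495 = true := allTr_mk ck_479 c_463_479 c_480_495

theorem c_496_528 : allTr (chkV P V lk) tr_496_528 = true := allTr_mk ck_512 c_496_512 c_513_528

theorem c_563_595 : allTr (chkV P V lk) tr_563_595 = true := allTr_mk ck_579 c_563_579 c_580_595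

theorem c_596_628 : allTr (chkV P V lk) tr_596_628 = true := allTr_mk ck_612 c_596_612 c_613_628

theorem c_629_661 : allTr (chkV P V lk) tr_629_661 = true := allTr_mk ck_645 c_629_645 c_646_661

theorem c_662_694 : allTr (chkV P V lk) tr_662_694 = true := allTr_mk ck_678 c_662_678 c_679_694

theorem c_695_727 : allTr (chkV P V lk) tr_695_727 = true := allTr_mk ck_711 c_695_711 c_712_727

theorem c_728_760 : allTr (chkV P V lk) tr_728_760 = true := allTr_mk ck_744 c_728_744 c_745_760

theorem c_794_826 : allTr (chkV P V lk) tr_794_826 = true := allTr_mk ck_810 c_794_810 c_811_826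

theorem c_827_859 : allTr (chkV P V lk) tr_827_859 = true := allTr_mk ck_843 c_827_843 c_844_859

theorem c_893_925 : allTr (chkV P V lk) tr_893_925 = true := allTr_mk ck_909 c_893_909 c_910_925

theorem c_926_958 : allTr (chkV P V lk) tr_926_958 = true := allTr_mk ck_942 c_926_942 c_943_958

theorem c_959_991 : allTr (chkV P V lk) tr_959_991 = true := allTr_mk ck_975 c_959_975 c_976_991

theorem c_1025_1057 : allTr (chkV P V lk) tr_1025_1057 = true := allTr_mk ck_1041 c_1025_1041 c_1042_1057

theorem c_1092_1124 : allTr (chkV P V lk) tr_1092_1124 = true := allTr_mk ck_1108 c_1092_1108 c_1109_1124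

theorem c_1125_1157 : allTr (chkV P V lk) tr_1125_1157 = true := allTr_mk ck_1141 c_1125_1141 c_1142_1157

theorem c_1158_1190 : allTr (chkV P V lk) tr_1158_1190 = true := allTr_mk ck_1174 c_1158_1174 c_1175_1190

theorem c_1191_1223 : allTr (chkV P V lk) tr_1191_1223 = true := allTr_mk ck_1207 c_1191_1207 c_1208_1223

theorem c_1224_1256 : allTr (chkV P V lk) tr_1224_1256 = true := allTr_mk ck_1240 c_1224_1240 c_1241_1256

theorem c_1257_1289 : allTr (chkV P V lk) tr_1257_1289 = true := allTr_mk ck_1273 c_1257_1273 c_1274_1289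

theorem c_1290_1322 : allTr (chkV P V lk) tr_1290_1322 = true := allTr_mk ck_1306 c_1290_1306 c_1307_1322

theorem c_1323_1355 : allTr (chkV P V lk) tr_1323_1355 = true := allTr_mk ck_1339 c_1323_1339 c_1340_1355

theorem c_1356_1388 : allTr (chkV P V lk) tr_1356_1388 = true := allTr_mk ck_1372 c_1356_1372 c_1373_1388

theorem c_1389_1421 : allTr (chkV P V lk) tr_1389_1421 = true := allTr_mk ck_1405 c_1389_1405 c_1406_1421

theorem c_1422_1454 : allTr (chkV P V lk) tr_1422_1454 = true := allTr_mk ck_1438 c_1422_1438 c_1439_1454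

theorem c_1455_1487 : allTr (chkV P V lk) tr_1455_1487 = true := allTr_mk ck_1471 c_1455_1471 c_1472_1487

theorem c_1488_1520 : allTr (chkV P V lk) tr_1488_1520 = true := allTr_mk ck_1504 c_1488_1504 c_1505_1520

theorem c_1521_1553 : allTr (chkV P V lk) tr_1521_1553 = true := allTr_mk ck_1537 c_1521_1537 c_1538_1553

theorem c_1554_1586 : allTr (chkV P V lk) tr_1554_1586 = true := allTr_mk ck_1570 c_1554_1570 c_1571_1586

theorem c_1621_1653 : allTr (chkV P V lk) tr_1621_1653 = true := allTr_mk ck_1637 c_1621_1637 c_1638_1653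

theorem c_1654_1686 : allTr (chkV P V lk) tr_1654_1686 = true := allTr_mk ck_1670 c_1654_1670 c_1671_1686

theorem c_1687_1719 : allTr (chkV P V lk) tr_1687_1719 = true := allTr_mk ck_1703 c_1687_1703 c_1704_1719

theorem c_1720_1752 : allTr (chkV P V lk) tr_1720_1752 = true := allTr_mk ck_1736 c_1720_1736 c_1737_1752

theorem c_1753_1785 : allTr (chkV P V lk) tr_1753_1785 = true := allTr_mk ck_1769 c_1753_1769 c_1770_1785

theorem c_1786_1818 : allTr (chkV P V lk) tr_1786_1818 = true := allTr_mk ck_1802 c_1786_1802 c_1803_1818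

theorem c_1819_1851 : allTr (chkV P V lk) tr_1819_1851 = true := allTr_mk ck_1835 c_1819_1835 c_1836_1851

theorem c_1852_1884 : allTr (chkV P V lk) tr_1852_1884 = true := allTr_mk ck_1868 c_1852_1868 c_1869_1884

theorem c_1885_1917 : allTr (chkV P V lk) tr_1885_1917 = true := allTr_mk ck_1901 c_1885_1901 c_1902_1917

theorem c_1918_1950 : allTr (chkV P V lk) tr_1918_1950 = true := allTr_mk ck_1934 c_1918_1934 c_1935_1950

theorem c_1951_1983 : allTr (chkV P V lk) tr_1951_1983 = true := allTr_mk ck_1967 c_1951_1967 c_1968_1983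

theorem c_1984_2016 : allTr (chkV P V lk) tr_1984_2016 = true := allTr_mk ck_2000 c_1984_2000 c_2001_2016

theorem c_2017_2049 : allTr (chkV P V lk) tr_2017_2049 = true := allTr_mk ck_2033 c_2017_2033 c_2034_2049

theorem c_2050_2082 : allTr (chkV P V lk) tr_2050_2082 = true := allTr_mk ck_2066 c_2050_2066 c_2067_2082

theorem c_2083_2115 : allTr (chkV P V lk) tr_2083_2115 = true := allTr_mk ck_2099 c_2083_2099 c_2100_2115

theorem c_529_562 : allTr (chkV P V lk) tr_529_562 = true := allTr_mk ck_545 c_529_545 c_546_562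

theorem c_1058_1091 : allTr (chkV P V lk) tr_1058_1091 = true := allTr_mk ck_1074 c_1058_1074 c_1075_1091

theorem c_1587_1620 : allTr (chkV P V lk) tr_1587_1620 = true := allTr_mk ck_1603 c_1587_1603 c_1604_1620

theorem c_67_132 : allTr (chkV P V lk) tr_67_132 = true := allTr_mk ck_99 c_67_99 c_100_132

theorem c_133_198 : allTr (chkV P V lk) tr_133_198 = true := allTr_mk ck_165 c_133_165 c_166_198

theorem c_199_264 : allTr (chkV P V lk) tr_199_264 = true := allTr_mk ck_231 c_199_231 c_232_264

theorem c_265_330 : allTr (chkV P V lk) tr_265_330 = true := allTr_mk ck_297 c_265_297 c_298_330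

theorem c_331_396 : allTr (chkV P V lk) tr_331_396 = true := allTr_mk ck_363 c_331_363 c_364_396

theorem c_397_462 : allTr (chkV P V lk) tr_397_462 = true := allTr_mk ck_429 c_397_429 c_430_462

theorem c_463_528 : allTr (chkV P V lk) tr_463_528 = true := allTr_mk ck_495 c_463_495 c_496_528

theorem c_596_661 : allTr (chkV P V lk) tr_596_661 = true := allTr_mk ck_628 c_596_628 c_629_661

theorem c_662_727 : allTr (chkV P V lk) tr_662_727 = true := allTr_mk ck_694 c_662_694 c_695_727

theorem c_728_793 : allTr (chkV P V lk) tr_728_793 = true := allTr_mk ck_760 c_728_760 c_761_793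

theorem c_794_859 : allTr (chkV P V lk) tr_794_859 = true := allTr_mk ck_826 c_794_826 c_827_859

theorem c_860_925 : allTr (chkV P V lk) tr_860_925 = true := allTr_mk ck_892 c_860_892 c_893_925

theorem c_926_991 : allTr (chkV P V lk) tr_926_991 = true := allTr_mk ck_958 c_926_958 c_959_991

theorem c_992_1057 : allTr (chkV P V lk) tr_992_1057 = true := allTr_mk ck_1024 c_992_1024 c_1025_1057

theorem c_1125_1190 : allTr (chkV P V lk) tr_1125_1190 = true := allTr_mk ck_1157 c_1125_1157 c_1158_1190

theorem c_1191_1256 : allTr (chkV P V lk) tr_1191_1256 = true := allTr_mk ck_1223 c_1191_1223 c_1224_1256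

theorem c_1257_1322 : allTr (chkV P V lk) tr_1257_1322 = true := allTr_mk ck_1289 c_1257_1289 c_1290_1322

theorem c_1323_1388 : allTr (chkV P V lk) tr_1323_1388 = true := allTr_mk ck_1355 c_1323_1355 c_1356_1388

theorem c_1389_1454 : allTr (chkV P V lk) tr_1389_1454 = true := allTr_mk ck_1421 c_1389_1421 c_1422_1454

theorem c_1455_1520 : allTr (chkV P V lk) tr_1455_1520 = true := allTr_mk ck_1487 c_1455_1487 c_1488_1520

theorem c_1521_1586 : allTr (chkV P V lk) tr_1521_1586 = true := allTr_mk ck_1553 c_1521_1553 c_1554_1586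

theorem c_1654_1719 : allTr (chkV P V lk) tr_1654_1719 = true := allTr_mk ck_1686 c_1654_1686 c_1687_1719

theorem c_1720_1785 : allTr (chkV P V lk) tr_1720_1785 = true := allTr_mk ck_1752 c_1720_1752 c_1753_1785

theorem c_1786_1851 : allTr (chkV P V lk) tr_1786_1851 = true := allTr_mk ck_1818 c_1786_1818 c_1819_1851

theorem c_1852_1917 : allTr (chkV P V lk) tr_1852_1917 = true := allTr_mk ck_1884 c_1852_1884 c_1885_1917

theorem c_1918_1983 : allTr (chkV P V lk) tr_1918_1983 = true := allTr_mk ck_1950 c_1918_1950 c_1951_1983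

theorem c_1984_2049 : allTr (chkV P V lk) tr_1984_2049 = true := allTr_mk ck_2016 c_1984_2016 c_2017_2049

theorem c_2050_2115 : allTr (chkV P V lk) tr_2050_2115 = true := allTr_mk ck_2082 c_2050_2082 c_2083_2115

theorem c_529_595 : allTr (chkV P V lk) tr_529_595 = true := allTr_mk ck_562 c_529_562 c_563_595

theorem c_1058_1124 : allTr (chkV P V lk) tr_1058_1124 = true := allTr_mk ck_1091 c_1058_1091 c_1092_1124

theorem c_1587_1653 : allTr (chkV P V lk) tr_1587_1653 = true := allTr_mk ck_1620 c_1587_1620 c_1621_1653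

theorem c_133_264 : allTr (chkV P V lk) tr_133_264 = true := allTr_mk ck_198 c_133_198 c_199_264

theorem c_265_396 : allTr (chkV P V lk) tr_265_396 = true := allTr_mk ck_330 c_265_330 c_331_396

theorem c_397_528 : allTr (chkV P V lk) tr_397_528 = true := allTr_mk ck_462 c_397_462 c_463_528

theorem c_662_793 : allTr (chkV P V lk) tr_662_793 = true := allTr_mk ck_727 c_662_727 c_728_793

theorem c_794_925 : allTr (chkV P V lk) tr_794_925 = true := allTr_mk ck_859 c_794_859 c_860_925

theorem c_926_1057 : allTr (chkV P V lk) tr_926_1057 = true := allTr_mk ck_991 c_926_991 c_992_1057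

theorem c_1191_1322 : allTr (chkV P V lk) tr_1191_1322 = true := allTr_mk ck_1256 c_1191_1256 c_1257_1322

theorem c_1323_1454 : allTr (chkV P V lk) tr_1323_1454 = true := allTr_mk ck_1388 c_1323_1388 c_1389_1454

theorem c_1455_1586 : allTr (chkV P V lk) tr_1455_1586 = true := allTr_mk ck_1520 c_1455_1520 c_1521_1586

theorem c_1720_1851 : allTr (chkV P V lk) tr_1720_1851 = true := allTr_mk ck_1785 c_1720_1785 c_1786_1851

theorem c_1852_1983 : allTr (chkV P V lk) tr_1852_1983 = true := allTr_mk ck_1917 c_1852_1917 c_1918_1983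

theorem c_1984_2115 : allTr (chkV P V lk) tr_1984_2115 = true := allTr_mk ck_2049 c_1984_2049 c_2050_2115

theorem c_0_132 : allTr (chkV P V lk) tr_0_132 = true := allTr_mk ck_66 c_0_66 c_67_132

theorem c_529_661 : allTr (chkV P V lk) tr_529_661 = true := allTr_mk ck_595 c_529_595 c_596_661

theorem c_1058_1190 : allTr (chkV P V lk) tr_1058_1190 = true := allTr_mk ck_1124 c_1058_1124 c_1125_1190

theorem c_1587_1719 : allTr (chkV P V lk) tr_1587_1719 = true := allTr_mk ck_1653 c_1587_1653 c_1654_1719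

theorem c_265_528 : allTr (chkV P V lk) tr_265_528 = true := allTr_mk ck_396 c_265_396 c_397_528

theorem c_794_1057 : allTr (chkV P V lk) tr_794_1057 = true := allTr_mk ck_925 c_794_925 c_926_1057

theorem c_1323_1586 : allTr (chkV P V lk) tr_1323_1586 = true := allTr_mk ck_1454 c_1323_1454 c_1455_1586

theorem c_1852_2115 : allTr (chkV P V lk) tr_1852_2115 = true := allTr_mk ck_1983 c_1852_1983 c_1984_2115

theorem c_0_264 : allTr (chkV P V lk) tr_0_264 = true := allTr_mk ck_132 c_0_132 c_133_264

theorem c_529_793 : allTr (chkV P V lk) tr_529_793 = true := allTr_mk ck_661 c_529_661 c_662_793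

theorem c_1058_1322 : allTr (chkV P V lk) tr_1058_1322 = true := allTr_mk ck_1190 c_1058_1190 c_1191_1322

theorem c_1587_1851 : allTr (chkV P V lk) tr_1587_1851 = true := allTr_mk ck_1719 c_1587_1719 c_1720_1851

theorem c_0_528 : allTr (chkV P V lk) tr_0_528 = true := allTr_mk ck_264 c_0_264 c_265_528

theorem c_529_1057 : allTr (chkV P V lk) tr_529_1057 = true := allTr_mk ck_793 c_529_793 c_794_1057

theorem c_1058_1586 : allTr (chkV P V lk) tr_1058_1586 = true := allTr_mk ck_1322 c_1058_1322 c_1323_1586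

theorem c_1587_2115 : allTr (chkV P V lk) tr_1587_2115 = true := allTr_mk ck_1851 c_1587_1851 c_1852_2115

theorem c_0_1057 : allTr (chkV P V lk) tr_0_1057 = true := allTr_mk ck_528 c_0_528 c_529_1057

theorem c_1058_2115 : allTr (chkV P V lk) tr_1058_2115 = true := allTr_mk ck_1586 c_1058_1586 c_1587_2115

theorem c_0_2115 : allTr (chkV P V lk) tr_0_2115 = true := allTr_mk ck_1057 c_0_1057 c_1058_2115

theorem o_2017_2019 : allTr oF tr_2017_2019 = true := allTr_mk ok_2018 o_2017_2018 rfl

theorem o_2050_2052 : allTr oF tr_2050_2052 = true := allTr_mk ok_2051 o_2050_2051 rfl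

theorem o_2083_2085 : allTr oF tr_2083_2085 = true := allTr_mk ok_2084 o_2083_2084 rfl

theorem o_1460_1463 : allTr oF tr_1460_1463 = true := allTr_mk ok_1461 o_1460_1461 o_1462_1463

theorem o_1997_2000 : allTr oF tr_1997_2000 = true := allTr_mk ok_1998 o_1997_1998 o_1999_2000

theorem o_2022_2025 : allTr oF tr_2022_2025 = true := allTr_mk ok_2023 o_2022_2023 o_2024_2025

theorem o_2026_2029 : allTr oF tr_2026_2029 = true := allTr_mk ok_2027 o_2026_2027 o_2028_2029

theorem o_2030_2033 : allTr oF tr_2030_2033 = true := allTr_mk ok_2031 o_2030_2031 o_2032_2033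

theorem o_2034_2037 : allTr oF tr_2034_2037 = true := allTr_mk ok_2035 o_2034_2035 o_2036_2037

theorem o_2038_2041 : allTr oF tr_2038_2041 = true := allTr_mk ok_2039 o_2038_2039 o_2040_2041

theorem o_2042_2045 : allTr oF tr_2042_2045 = true := allTr_mk ok_2043 o_2042_2043 o_2044_2045

theorem o_2046_2049 : allTr oF tr_2046_2049 = true := allTr_mk ok_2047 o_2046_2047 o_2048_2049

theorem o_2055_2058 : allTr oF tr_2055_2058 = true := allTr_mk ok_2056 o_2055_2056 o_2057_2058

theorem o_2059_2062 : allTr oF tr_2059_2062 = true := allTr_mk ok_2060 o_2059_2060 o_2061_2062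

theorem o_2063_2066 : allTr oF tr_2063_2066 = true := allTr_mk ok_2064 o_2063_2064 o_2065_2066

theorem o_2067_2070 : allTr oF tr_2067_2070 = true := allTr_mk ok_2068 o_2067_2068 o_2069_2070

theorem o_2071_2074 : allTr oF tr_2071_2074 = true := allTr_mk ok_2072 o_2071_2072 o_2073_2074

theorem o_2075_2078 : allTr oF tr_2075_2078 = true := allTr_mk ok_2076 o_2075_2076 o_2077_2078

theorem o_2079_2082 : allTr oF tr_2079_2082 = true := allTr_mk ok_2080 o_2079_2080 o_2081_2082

theorem o_2088_2091 : allTr oF tr_2088_2091 = true := allTr_mk ok_2089 o_2088_2089 o_2090_2091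

theorem o_2092_2095 : allTr oF tr_2092_2095 = true := allTr_mk ok_2093 o_2092_2093 o_2094_2095

theorem o_2096_2099 : allTr oF tr_2096_2099 = true := allTr_mk ok_2097 o_2096_2097 o_2098_2099

theorem o_2100_2103 : allTr oF tr_2100_2103 = true := allTr_mk ok_2101 o_2100_2101 o_2102_2103

theorem o_2104_2107 : allTr oF tr_2104_2107 = true := allTr_mk ok_2105 o_2104_2105 o_2106_2107

theorem o_2108_2111 : allTr oF tr_2108_2111 = true := allTr_mk ok_2109 o_2108_2109 o_2110_2111

theorem o_2112_2115 : allTr oF tr_2112_2115 = true := allTr_mk ok_2113 o_2112_2113 o_2114_2115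

theorem o_1290_1294 : allTr oF tr_1290_1294 = true := allTr_mk ok_1292 o_1290_1292 o_1293_1294

theorem o_1323_1327 : allTr oF tr_1323_1327 = true := allTr_mk ok_1325 o_1323_1325 o_1326_1327

theorem o_1356_1360 : allTr oF tr_1356_1360 = true := allTr_mk ok_1358 o_1356_1358 o_1359_1360

theorem o_1422_1426 : allTr oF tr_1422_1426 = true := allTr_mk ok_1424 o_1422_1424 o_1425_1426

theorem o_1455_1459 : allTr oF tr_1455_1459 = true := allTr_mk ok_1457 o_1455_1457 o_1458_1459

theorem o_1521_1525 : allTr oF tr_1521_1525 = true := allTr_mk ok_1523 o_1521_1523 o_1524_1525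

theorem o_1554_1558 : allTr oF tr_1554_1558 = true := allTr_mk ok_1556 o_1554_1556 o_1557_1558

theorem o_1654_1658 : allTr oF tr_1654_1658 = true := allTr_mk ok_1656 o_1654_1656 o_1657_1658

theorem o_1687_1691 : allTr oF tr_1687_1691 = true := allTr_mk ok_1689 o_1687_1689 o_1690_1691

theorem o_1720_1724 : allTr oF tr_1720_1724 = true := allTr_mk ok_1722 o_1720_1722 o_1723_1724

theorem o_1753_1757 : allTr oF tr_1753_1757 = true := allTr_mk ok_1755 o_1753_1755 o_1756_1757

theorem o_1852_1856 : allTr oF tr_1852_1856 = true := allTr_mk ok_1854 o_1852_1854 o_1855_1856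

theorem o_1918_1922 : allTr oF tr_1918_1922 = true := allTr_mk ok_1920 o_1918_1920 o_1921_1922

theorem o_1984_1988 : allTr oF tr_1984_1988 = true := allTr_mk ok_1986 o_1984_1986 o_1987_1988

theorem o_2017_2021 : allTr oF tr_2017_2021 = true := allTr_mk ok_2019 o_2017_2019 o_2020_2021

theorem o_2050_2054 : allTr oF tr_2050_2054 = true := allTr_mk ok_2052 o_2050_2052 o_2053_2054

theorem o_2083_2087 : allTr oF tr_2083_2087 = true := allTr_mk ok_2085 o_2083_2085 o_2086_2087

theorem o_1150_1157 : allTr oF tr_1150_1157 = true := allTr_mk ok_1153 o_1150_1153 o_1154_1157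

theorem o_1233_1240 : allTr oF tr_1233_1240 = true := allTr_mk ok_1236 o_1233_1236 o_1237_1240

theorem o_1274_1281 : allTr oF tr_1274_1281 = true := allTr_mk ok_1277 o_1274_1277 o_1278_1281

theorem o_1282_1289 : allTr oF tr_1282_1289 = true := allTr_mk ok_1285 o_1282_1285 o_1286_1289

theorem o_1299_1306 : allTr oF tr_1299_1306 = true := allTr_mk ok_1302 o_1299_1302 o_1303_1306

theorem o_1307_1314 : allTr oF tr_1307_1314 = true := allTr_mk ok_1310 o_1307_1310 o_1311_1314

theorem o_1315_1322 : allTr oF tr_1315_1322 = true := allTr_mk ok_1318 o_1315_1318 o_1319_1322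

theorem o_1332_1339 : allTr oF tr_1332_1339 = true := allTr_mk ok_1335 o_1332_1335 o_1336_1339

theorem o_1340_1347 : allTr oF tr_1340_1347 = true := allTr_mk ok_1343 o_1340_1343 o_1344_1347

theorem o_1348_1355 : allTr oF tr_1348_1355 = true := allTr_mk ok_1351 o_1348_1351 o_1352_1355

theorem o_1365_1372 : allTr oF tr_1365_1372 = true := allTr_mk ok_1368 o_1365_1368 o_1369_1372

theorem o_1373_1380 : allTr oF tr_1373_1380 = true := allTr_mk ok_1376 o_1373_1376 o_1377_1380

theorem o_1381_1388 : allTr oF tr_1381_1388 = true := allTr_mk ok_1384 o_1381_1384 o_1385_1388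

theorem o_1398_1405 : allTr oF tr_1398_1405 = true := allTr_mk ok_1401 o_1398_1401 o_1402_1405

theorem o_1406_1413 : allTr oF tr_1406_1413 = true := allTr_mk ok_1409 o_1406_1409 o_1410_1413

theorem o_1414_1421 : allTr oF tr_1414_1421 = true := allTr_mk ok_1417 o_1414_1417 o_1418_1421

theorem o_1431_1438 : allTr oF tr_1431_1438 = true := allTr_mk ok_1434 o_1431_1434 o_1435_1438

theorem o_1464_1471 : allTr oF tr_1464_1471 = true := allTr_mk ok_1467 o_1464_1467 o_1468_1471

theorem o_1472_1479 : allTr oF tr_1472_1479 = true := allTr_mk ok_1475 o_1472_1475 o_1476_1479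

theorem o_1480_1487 : allTr oF tr_1480_1487 = true := allTr_mk ok_1483 o_1480_1483 o_1484_1487

theorem o_1497_1504 : allTr oF tr_1497_1504 = true := allTr_mk ok_1500 o_1497_1500 o_1501_1504

theorem o_1505_1512 : allTr oF tr_1505_1512 = true := allTr_mk ok_1508 o_1505_1508 o_1509_1512

theorem o_1513_1520 : allTr oF tr_1513_1520 = true := allTr_mk ok_1516 o_1513_1516 o_1517_1520

theorem o_1530_1537 : allTr oF tr_1530_1537 = true := allTr_mk ok_1533 o_1530_1533 o_1534_1537

theorem o_1538_1545 : allTr oF tr_1538_1545 = true := allTr_mk ok_1541 o_1538_1541 o_1542_1545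

theorem o_1546_1553 : allTr oF tr_1546_1553 = true := allTr_mk ok_1549 o_1546_1549 o_1550_1553

theorem o_1563_1570 : allTr oF tr_1563_1570 = true := allTr_mk ok_1566 o_1563_1566 o_1567_1570

theorem o_1571_1578 : allTr oF tr_1571_1578 = true := allTr_mk ok_1574 o_1571_1574 o_1575_1578

theorem o_1579_1586 : allTr oF tr_1579_1586 = true := allTr_mk ok_1582 o_1579_1582 o_1583_1586

theorem o_1596_1603 : allTr oF tr_1596_1603 = true := allTr_mk ok_1599 o_1596_1599 o_1600_1603

theorem o_1613_1620 : allTr oF tr_1613_1620 = true := allTr_mk ok_1616 o_1613_1616 o_1617_1620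

theorem o_1630_1637 : allTr oF tr_1630_1637 = true := allTr_mk ok_1633 o_1630_1633 o_1634_1637

theorem o_1638_1645 : allTr oF tr_1638_1645 = true := allTr_mk ok_1641 o_1638_1641 o_1642_1645

theorem o_1646_1653 : allTr oF tr_1646_1653 = true := allTr_mk ok_1649 o_1646_1649 o_1650_1653

theorem o_1663_1670 : allTr oF tr_1663_1670 = true := allTr_mk ok_1666 o_1663_1666 o_1667_1670

theorem o_1671_1678 : allTr oF tr_1671_1678 = true := allTr_mk ok_1674 o_1671_1674 o_1675_1678

theorem o_1679_1686 : allTr oF tr_1679_1686 = true := allTr_mk ok_1682 o_1679_1682 o_1683_1686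

theorem o_1696_1703 : allTr oF tr_1696_1703 = true := allTr_mk ok_1699 o_1696_1699 o_1700_1703

theorem o_1704_1711 : allTr oF tr_1704_1711 = true := allTr_mk ok_1707 o_1704_1707 o_1708_1711

theorem o_1712_1719 : allTr oF tr_1712_1719 = true := allTr_mk ok_1715 o_1712_1715 o_1716_1719

theorem o_1729_1736 : allTr oF tr_1729_1736 = true := allTr_mk ok_1732 o_1729_1732 o_1733_1736

theorem o_1737_1744 : allTr oF tr_1737_1744 = true := allTr_mk ok_1740 o_1737_1740 o_1741_1744

theorem o_1745_1752 : allTr oF tr_1745_1752 = true := allTr_mk ok_1748 o_1745_1748 o_1749_1752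

theorem o_1762_1769 : allTr oF tr_1762_1769 = true := allTr_mk ok_1765 o_1762_1765 o_1766_1769

theorem o_1770_1777 : allTr oF tr_1770_1777 = true := allTr_mk ok_1773 o_1770_1773 o_1774_1777

theorem o_1778_1785 : allTr oF tr_1778_1785 = true := allTr_mk ok_1781 o_1778_1781 o_1782_1785

theorem o_1795_1802 : allTr oF tr_1795_1802 = true := allTr_mk ok_1798 o_1795_1798 o_1799_1802

theorem o_1803_1810 : allTr oF tr_1803_1810 = true := allTr_mk ok_1806 o_1803_1806 o_1807_1810

theorem o_1811_1818 : allTr oF tr_1811_1818 = true := allTr_mk ok_1814 o_1811_1814 o_1815_1818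

theorem o_1828_1835 : allTr oF tr_1828_1835 = true := allTr_mk ok_1831 o_1828_1831 o_1832_1835

theorem o_1836_1843 : allTr oF tr_1836_1843 = true := allTr_mk ok_1839 o_1836_1839 o_1840_1843

theorem o_1844_1851 : allTr oF tr_1844_1851 = true := allTr_mk ok_1847 o_1844_1847 o_1848_1851

theorem o_1861_1868 : allTr oF tr_1861_1868 = true := allTr_mk ok_1864 o_1861_1864 o_1865_1868

theorem o_1869_1876 : allTr oF tr_1869_1876 = true := allTr_mk ok_1872 o_1869_1872 o_1873_1876

theorem o_1877_1884 : allTr oF tr_1877_1884 = true := allTr_mk ok_1880 o_1877_1880 o_1881_1884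

theorem o_1894_1901 : allTr oF tr_1894_1901 = true := allTr_mk ok_1897 o_1894_1897 o_1898_1901

theorem o_1902_1909 : allTr oF tr_1902_1909 = true := allTr_mk ok_1905 o_1902_1905 o_1906_1909

theorem o_1910_1917 : allTr oF tr_1910_1917 = true := allTr_mk ok_1913 o_1910_1913 o_1914_1917

theorem o_1927_1934 : allTr oF tr_1927_1934 = true := allTr_mk ok_1930 o_1927_1930 o_1931_1934

theorem o_1935_1942 : allTr oF tr_1935_1942 = true := allTr_mk ok_1938 o_1935_1938 o_1939_1942

theorem o_1943_1950 : allTr oF tr_1943_1950 = true := allTr_mk ok_1946 o_1943_1946 o_1947_1950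

theorem o_1960_1967 : allTr oF tr_1960_1967 = true := allTr_mk ok_1963 o_1960_1963 o_1964_1967

theorem o_1968_1975 : allTr oF tr_1968_1975 = true := allTr_mk ok_1971 o_1968_1971 o_1972_1975

theorem o_1976_1983 : allTr oF tr_1976_1983 = true := allTr_mk ok_1979 o_1976_1979 o_1980_1983

theorem o_1993_2000 : allTr oF tr_1993_2000 = true := allTr_mk ok_1996 o_1993_1996 o_1997_2000

theorem o_2001_2008 : allTr oF tr_2001_2008 = true := allTr_mk ok_2004 o_2001_2004 o_2005_2008

theorem o_2009_2016 : allTr oF tr_2009_2016 = true := allTr_mk ok_2012 o_2009_2012 o_2013_2016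

theorem o_2026_2033 : allTr oF tr_2026_2033 = true := allTr_mk ok_2029 o_2026_2029 o_2030_2033

theorem o_2034_2041 : allTr oF tr_2034_2041 = true := allTr_mk ok_2037 o_2034_2037 o_2038_2041

theorem o_2042_2049 : allTr oF tr_2042_2049 = true := allTr_mk ok_2045 o_2042_2045 o_2046_2049

theorem o_2059_2066 : allTr oF tr_2059_2066 = true := allTr_mk ok_2062 o_2059_2062 o_2063_2066

theorem o_2067_2074 : allTr oF tr_2067_2074 = true := allTr_mk ok_2070 o_2067_2070 o_2071_2074

theorem o_2075_2082 : allTr oF tr_2075_2082 = true := allTr_mk ok_2078 o_2075_2078 o_2079_2082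

theorem o_2092_2099 : allTr oF tr_2092_2099 = true := allTr_mk ok_2095 o_2092_2095 o_2096_2099

theorem o_2100_2107 : allTr oF tr_2100_2107 = true := allTr_mk ok_2103 o_2100_2103 o_2104_2107

theorem o_2108_2115 : allTr oF tr_2108_2115 = true := allTr_mk ok_2111 o_2108_2111 o_2112_2115

theorem o_331_339 : allTr oF tr_331_339 = true := allTr_mk ok_335 o_331_335 o_336_339

theorem o_1075_1083 : allTr oF tr_1075_1083 = true := allTr_mk ok_1079 o_1075_1079 o_1080_1083

theorem o_1191_1199 : allTr oF tr_1191_1199 = true := allTr_mk ok_1195 o_1191_1195 o_1196_1199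

theorem o_1290_1298 : allTr oF tr_1290_1298 = true := allTr_mk ok_1294 o_1290_1294 o_1295_1298

theorem o_1323_1331 : allTr oF tr_1323_1331 = true := allTr_mk ok_1327 o_1323_1327 o_1328_1331

theorem o_1356_1364 : allTr oF tr_1356_1364 = true := allTr_mk ok_1360 o_1356_1360 o_1361_1364

theorem o_1389_1397 : allTr oF tr_1389_1397 = true := allTr_mk ok_1393 o_1389_1393 o_1394_1397

theorem o_1422_1430 : allTr oF tr_1422_1430 = true := allTr_mk ok_1426 o_1422_1426 o_1427_1430

theorem o_1455_1463 : allTr oF tr_1455_1463 = true := allTr_mk ok_1459 o_1455_1459 o_1460_1463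

theorem o_1488_1496 : allTr oF tr_1488_1496 = true := allTr_mk ok_1492 o_1488_1492 o_1493_1496

theorem o_1521_1529 : allTr oF tr_1521_1529 = true := allTr_mk ok_1525 o_1521_1525 o_1526_1529

theorem o_1554_1562 : allTr oF tr_1554_1562 = true := allTr_mk ok_1558 o_1554_1558 o_1559_1562

theorem o_1587_1595 : allTr oF tr_1587_1595 = true := allTr_mk ok_1591 o_1587_1591 o_1592_1595

theorem o_1604_1612 : allTr oF tr_1604_1612 = true := allTr_mk ok_1608 o_1604_1608 o_1609_1612

theorem o_1621_1629 : allTr oF tr_1621_1629 = true := allTr_mk ok_1625 o_1621_1625 o_1626_1629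

theorem o_1654_1662 : allTr oF tr_1654_1662 = true := allTr_mk ok_1658 o_1654_1658 o_1659_1662

theorem o_1687_1695 : allTr oF tr_1687_1695 = true := allTr_mk ok_1691 o_1687_1691 o_1692_1695

theorem o_1720_1728 : allTr oF tr_1720_1728 = true := allTr_mk ok_1724 o_1720_1724 o_1725_1728

theorem o_1753_1761 : allTr oF tr_1753_1761 = true := allTr_mk ok_1757 o_1753_1757 o_1758_1761

theorem o_1786_1794 : allTr oF tr_1786_1794 = true := allTr_mk ok_1790 o_1786_1790 o_1791_1794

theorem o_1819_1827 : allTr oF tr_1819_1827 = true := allTr_mk ok_1823 o_1819_1823 o_1824_1827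

theorem o_1852_1860 : allTr oF tr_1852_1860 = true := allTr_mk ok_1856 o_1852_1856 o_1857_1860

theorem o_1885_1893 : allTr oF tr_1885_1893 = true := allTr_mk ok_1889 o_1885_1889 o_1890_1893

theorem o_1918_1926 : allTr oF tr_1918_1926 = true := allTr_mk ok_1922 o_1918_1922 o_1923_1926

theorem o_1951_1959 : allTr oF tr_1951_1959 = true := allTr_mk ok_1955 o_1951_1955 o_1956_1959

theorem o_1984_1992 : allTr oF tr_1984_1992 = true := allTr_mk ok_1988 o_1984_1988 o_1989_1992

theorem o_2017_2025 : allTr oF tr_2017_2025 = true := allTr_mk ok_2021 o_2017_2021 o_2022_2025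

theorem o_2050_2058 : allTr oF tr_2050_2058 = true := allTr_mk ok_2054 o_2050_2054 o_2055_2058

theorem o_2083_2091 : allTr oF tr_2083_2091 = true := allTr_mk ok_2087 o_2083_2087 o_2088_2091

theorem o_84_99 : allTr oF tr_84_99 = true := allTr_mk ok_91 o_84_91 o_92_99

theorem o_117_132 : allTr oF tr_117_132 = true := allTr_mk ok_124 o_117_124 o_125_132

theorem o_183_198 : allTr oF tr_183_198 = true := allTr_mk ok_190 o_183_190 o_191_198

theorem o_249_264 : allTr oF tr_249_264 = true := allTr_mk ok_256 o_249_256 o_257_264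

theorem o_348_363 : allTr oF tr_348_363 = true := allTr_mk ok_355 o_348_355 o_356_363

theorem o_447_462 : allTr oF tr_447_462 = true := allTr_mk ok_454 o_447_454 o_455_462

theorem o_679_694 : allTr oF tr_679_694 = true := allTr_mk ok_686 o_679_686 o_687_694

theorem o_811_826 : allTr oF tr_811_826 = true := allTr_mk ok_818 o_811_818 o_819_826

theorem o_910_925 : allTr oF tr_910_925 = true := allTr_mk ok_917 o_910_917 o_918_925

theorem o_1142_1157 : allTr oF tr_1142_1157 = true := allTr_mk ok_1149 o_1142_1149 o_1150_1157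

theorem o_1208_1223 : allTr oF tr_1208_1223 = true := allTr_mk ok_1215 o_1208_1215 o_1216_1223

theorem o_1274_1289 : allTr oF tr_1274_1289 = true := allTr_mk ok_1281 o_1274_1281 o_1282_1289

theorem o_1307_1322 : allTr oF tr_1307_1322 = true := allTr_mk ok_1314 o_1307_1314 o_1315_1322

theorem o_1340_1355 : allTr oF tr_1340_1355 = true := allTr_mk ok_1347 o_1340_1347 o_1348_1355

theorem o_1373_1388 : allTr oF tr_1373_1388 = true := allTr_mk ok_1380 o_1373_1380 o_1381_1388

theorem o_1406_1421 : allTr oF tr_1406_1421 = true := allTr_mk ok_1413 o_1406_1413 o_1414_1421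

theorem o_1472_1487 : allTr oF tr_1472_1487 = true := allTr_mk ok_1479 o_1472_1479 o_1480_1487

theorem o_1505_1520 : allTr oF tr_1505_1520 = true := allTr_mk ok_1512 o_1505_1512 o_1513_1520

theorem o_1538_1553 : allTr oF tr_1538_1553 = true := allTr_mk ok_1545 o_1538_1545 o_1546_1553

theorem o_1571_1586 : allTr oF tr_1571_1586 = true := allTr_mk ok_1578 o_1571_1578 o_1579_1586

theorem o_1638_1653 : allTr oF tr_1638_1653 = true := allTr_mk ok_1645 o_1638_1645 o_1646_1653

theorem o_1671_1686 : allTr oF tr_1671_1686 = true := allTr_mk ok_1678 o_1671_1678 o_1679_1686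

theorem o_1704_1719 : allTr oF tr_1704_1719 = true := allTr_mk ok_1711 o_1704_1711 o_1712_1719

theorem o_1737_1752 : allTr oF tr_1737_1752 = true := allTr_mk ok_1744 o_1737_1744 o_1745_1752

theorem o_1770_1785 : allTr oF tr_1770_1785 = true := allTr_mk ok_1777 o_1770_1777 o_1778_1785

theorem o_1803_1818 : allTr oF tr_1803_1818 = true := allTr_mk ok_1810 o_1803_1810 o_1811_1818

theorem o_1836_1851 : allTr oF tr_1836_1851 = true := allTr_mk ok_1843 o_1836_1843 o_1844_1851

theorem o_1869_1884 : allTr oF tr_1869_1884 = true := allTr_mk ok_1876 o_1869_1876 o_1877_1884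

theorem o_1902_1917 : allTr oF tr_1902_1917 = true := allTr_mk ok_1909 o_1902_1909 o_1910_1917

theorem o_1935_1950 : allTr oF tr_1935_1950 = true := allTr_mk ok_1942 o_1935_1942 o_1943_1950

theorem o_1968_1983 : allTr oF tr_1968_1983 = true := allTr_mk ok_1975 o_1968_1975 o_1976_1983

theorem o_2001_2016 : allTr oF tr_2001_2016 = true := allTr_mk ok_2008 o_2001_2008 o_2009_2016

theorem o_2034_2049 : allTr oF tr_2034_2049 = true := allTr_mk ok_2041 o_2034_2041 o_2042_2049

theorem o_2067_2082 : allTr oF tr_2067_2082 = true := allTr_mk ok_2074 o_2067_2074 o_2075_2082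

theorem o_2100_2115 : allTr oF tr_2100_2115 = true := allTr_mk ok_2107 o_2100_2107 o_2108_2115

theorem o_166_182 : allTr oF tr_166_182 = true := allTr_mk ok_174 o_166_174 o_175_182

theorem o_232_248 : allTr oF tr_232_248 = true := allTr_mk ok_240 o_232_240 o_241_248

theorem o_265_281 : allTr oF tr_265_281 = true := allTr_mk ok_273 o_265_273 o_274_281

theorem o_331_347 : allTr oF tr_331_347 = true := allTr_mk ok_339 o_331_339 o_340_347

theorem o_364_380 : allTr oF tr_364_380 = true := allTr_mk ok_372 o_364_372 o_373_380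

theorem o_430_446 : allTr oF tr_430_446 = true := allTr_mk ok_438 o_430_438 o_439_446

theorem o_496_512 : allTr oF tr_496_512 = true := allTr_mk ok_504 o_496_504 o_505_512

theorem o_563_579 : allTr oF tr_563_579 = true := allTr_mk ok_571 o_563_571 o_572_579

theorem o_596_612 : allTr oF tr_596_612 = true := allTr_mk ok_604 o_596_604 o_605_612

theorem o_794_810 : allTr oF tr_794_810 = true := allTr_mk ok_802 o_794_802 o_803_810

theorem o_827_843 : allTr oF tr_827_843 = true := allTr_mk ok_835 o_827_835 o_836_843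

theorem o_959_975 : allTr oF tr_959_975 = true := allTr_mk ok_967 o_959_967 o_968_975

theorem o_1025_1041 : allTr oF tr_1025_1041 = true := allTr_mk ok_1033 o_1025_1033 o_1034_1041

theorem o_1058_1074 : allTr oF tr_1058_1074 = true := allTr_mk ok_1066 o_1058_1066 o_1067_1074

theorem o_1075_1091 : allTr oF tr_1075_1091 = true := allTr_mk ok_1083 o_1075_1083 o_1084_1091

theorem o_1092_1108 : allTr oF tr_1092_1108 = true := allTr_mk ok_1100 o_1092_1100 o_1101_1108

theorem o_1191_1207 : allTr oF tr_1191_1207 = true := allTr_mk ok_1199 o_1191_1199 o_1200_1207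

theorem o_1224_1240 : allTr oF tr_1224_1240 = true := allTr_mk ok_1232 o_1224_1232 o_1233_1240

theorem o_1290_1306 : allTr oF tr_1290_1306 = true := allTr_mk ok_1298 o_1290_1298 o_1299_1306

theorem o_1323_1339 : allTr oF tr_1323_1339 = true := allTr_mk ok_1331 o_1323_1331 o_1332_1339

theorem o_1356_1372 : allTr oF tr_1356_1372 = true := allTr_mk ok_1364 o_1356_1364 o_1365_1372

theorem o_1389_1405 : allTr oF tr_1389_1405 = true := allTr_mk ok_1397 o_1389_1397 o_1398_1405

theorem o_1422_1438 : allTr oF tr_1422_1438 = true := allTr_mk ok_1430 o_1422_1430 o_1431_1438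

theorem o_1455_1471 : allTr oF tr_1455_1471 = true := allTr_mk ok_1463 o_1455_1463 o_1464_1471

theorem o_1488_1504 : allTr oF tr_1488_1504 = true := allTr_mk ok_1496 o_1488_1496 o_1497_1504

theorem o_1521_1537 : allTr oF tr_1521_1537 = true := allTr_mk ok_1529 o_1521_1529 o_1530_1537

theorem o_1554_1570 : allTr oF tr_1554_1570 = true := allTr_mk ok_1562 o_1554_1562 o_1563_1570

theorem o_1587_1603 : allTr oF tr_1587_1603 = true := allTr_mk ok_1595 o_1587_1595 o_1596_1603

theorem o_1604_1620 : allTr oF tr_1604_1620 = true := allTr_mk ok_1612 o_1604_1612 o_1613_1620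

theorem o_1621_1637 : allTr oF tr_1621_1637 = true := allTr_mk ok_1629 o_1621_1629 o_1630_1637

theorem o_1654_1670 : allTr oF tr_1654_1670 = true := allTr_mk ok_1662 o_1654_1662 o_1663_1670

theorem o_1687_1703 : allTr oF tr_1687_1703 = true := allTr_mk ok_1695 o_1687_1695 o_1696_1703

theorem o_1720_1736 : allTr oF tr_1720_1736 = true := allTr_mk ok_1728 o_1720_1728 o_1729_1736

theorem o_1753_1769 : allTr oF tr_1753_1769 = true := allTr_mk ok_1761 o_1753_1761 o_1762_1769

theorem o_1786_1802 : allTr oF tr_1786_1802 = true := allTr_mk ok_1794 o_1786_1794 o_1795_1802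

theorem o_1819_1835 : allTr oF tr_1819_1835 = true := allTr_mk ok_1827 o_1819_1827 o_1828_1835

theorem o_1852_1868 : allTr oF tr_1852_1868 = true := allTr_mk ok_1860 o_1852_1860 o_1861_1868

theorem o_1885_1901 : allTr oF tr_1885_1901 = true := allTr_mk ok_1893 o_1885_1893 o_1894_1901

theorem o_1918_1934 : allTr oF tr_1918_1934 = true := allTr_mk ok_1926 o_1918_1926 o_1927_1934

theorem o_1951_1967 : allTr oF tr_1951_1967 = true := allTr_mk ok_1959 o_1951_1959 o_1960_1967

theorem o_1984_2000 : allTr oF tr_1984_2000 = true := allTr_mk ok_1992 o_1984_1992 o_1993_2000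

theorem o_2017_2033 : allTr oF tr_2017_2033 = true := allTr_mk ok_2025 o_2017_2025 o_2026_2033

theorem o_2050_2066 : allTr oF tr_2050_2066 = true := allTr_mk ok_2058 o_2050_2058 o_2059_2066

theorem o_2083_2099 : allTr oF tr_2083_2099 = true := allTr_mk ok_2091 o_2083_2091 o_2092_2099

theorem o_67_99 : allTr oF tr_67_99 = true := allTr_mk ok_83 o_67_83 o_84_99

theorem o_100_132 : allTr oF tr_100_132 = true := allTr_mk ok_116 o_100_116 o_117_132

theorem o_166_198 : allTr oF tr_166_198 = true := allTr_mk ok_182 o_166_182 o_183_198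

theorem o_232_264 : allTr oF tr_232_264 = true := allTr_mk ok_248 o_232_248 o_249_264

theorem o_265_297 : allTr oF tr_265_297 = true := allTr_mk ok_281 o_265_281 o_282_297

theorem o_331_363 : allTr oF tr_331_363 = true := allTr_mk ok_347 o_331_347 o_348_363

theorem o_364_396 : allTr oF tr_364_396 = true := allTr_mk ok_380 o_364_380 o_381_396

theorem o_430_462 : allTr oF tr_430_462 = true := allTr_mk ok_446 o_430_446 o_447_462

theorem o_463_495 : allTr oF tr_463_495 = true := allTr_mk ok_479 o_463_479 o_480_495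

theorem o_496_528 : allTr oF tr_496_528 = true := allTr_mk ok_512 o_496_512 o_513_528

theorem o_563_595 : allTr oF tr_563_595 = true := allTr_mk ok_579 o_563_579 o_580_595

theorem o_596_628 : allTr oF tr_596_628 = true := allTr_mk ok_612 o_596_612 o_613_628

theorem o_662_694 : allTr oF tr_662_694 = true := allTr_mk ok_678 o_662_678 o_679_694

theorem o_695_727 : allTr oF tr_695_727 = true := allTr_mk ok_711 o_695_711 o_712_727

theorem o_728_760 : allTr oF tr_728_760 = true := allTr_mk ok_744 o_728_744 o_745_760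

theorem o_794_826 : allTr oF tr_794_826 = true := allTr_mk ok_810 o_794_810 o_811_826

theorem o_827_859 : allTr oF tr_827_859 = true := allTr_mk ok_843 o_827_843 o_844_859

theorem o_893_925 : allTr oF tr_893_925 = true := allTr_mk ok_909 o_893_909 o_910_925

theorem o_926_958 : allTr oF tr_926_958 = true := allTr_mk ok_942 o_926_942 o_943_958

theorem o_959_991 : allTr oF tr_959_991 = true := allTr_mk ok_975 o_959_975 o_976_991

theorem o_1025_1057 : allTr oF tr_1025_1057 = true := allTr_mk ok_1041 o_1025_1041 o_1042_1057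

theorem o_1092_1124 : allTr oF tr_1092_1124 = true := allTr_mk ok_1108 o_1092_1108 o_1109_1124

theorem o_1125_1157 : allTr oF tr_1125_1157 = true := allTr_mk ok_1141 o_1125_1141 o_1142_1157

theorem o_1158_1190 : allTr oF tr_1158_1190 = true := allTr_mk ok_1174 o_1158_1174 o_1175_1190

theorem o_1191_1223 : allTr oF tr_1191_1223 = true := allTr_mk ok_1207 o_1191_1207 o_1208_1223

theorem o_1224_1256 : allTr oF tr_1224_1256 = true := allTr_mk ok_1240 o_1224_1240 o_1241_1256

theorem o_1257_1289 : allTr oF tr_1257_1289 = true := allTr_mk ok_1273 o_1257_1273 o_1274_1289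

theorem o_1290_1322 : allTr oF tr_1290_1322 = true := allTr_mk ok_1306 o_1290_1306 o_1307_1322

theorem o_1323_1355 : allTr oF tr_1323_1355 = true := allTr_mk ok_1339 o_1323_1339 o_1340_1355

theorem o_1356_1388 : allTr oF tr_1356_1388 = true := allTr_mk ok_1372 o_1356_1372 o_1373_1388

theorem o_1389_1421 : allTr oF tr_1389_1421 = true := allTr_mk ok_1405 o_1389_1405 o_1406_1421

theorem o_1422_1454 : allTr oF tr_1422_1454 = true := allTr_mk ok_1438 o_1422_1438 o_1439_1454

theorem o_1455_1487 : allTr oF tr_1455_1487 = true := allTr_mk ok_1471 o_1455_1471 o_1472_1487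

theorem o_1488_1520 : allTr oF tr_1488_1520 = true := allTr_mk ok_1504 o_1488_1504 o_1505_1520

theorem o_1521_1553 : allTr oF tr_1521_1553 = true := allTr_mk ok_1537 o_1521_1537 o_1538_1553

theorem o_1554_1586 : allTr oF tr_1554_1586 = true := allTr_mk ok_1570 o_1554_1570 o_1571_1586

theorem o_1621_1653 : allTr oF tr_1621_1653 = true := allTr_mk ok_1637 o_1621_1637 o_1638_1653

theorem o_1654_1686 : allTr oF tr_1654_1686 = true := allTr_mk ok_1670 o_1654_1670 o_1671_1686

theorem o_1687_1719 : allTr oF tr_1687_1719 = true := allTr_mk ok_1703 o_1687_1703 o_1704_1719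

theorem o_1720_1752 : allTr oF tr_1720_1752 = true := allTr_mk ok_1736 o_1720_1736 o_1737_1752

theorem o_1753_1785 : allTr oF tr_1753_1785 = true := allTr_mk ok_1769 o_1753_1769 o_1770_1785

theorem o_1786_1818 : allTr oF tr_1786_1818 = true := allTr_mk ok_1802 o_1786_1802 o_1803_1818

theorem o_1819_1851 : allTr oF tr_1819_1851 = true := allTr_mk ok_1835 o_1819_1835 o_1836_1851

theorem o_1852_1884 : allTr oF tr_1852_1884 = true := allTr_mk ok_1868 o_1852_1868 o_1869_1884

theorem o_1885_1917 : allTr oF tr_1885_1917 = true := allTr_mk ok_1901 o_1885_1901 o_1902_1917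

theorem o_1918_1950 : allTr oF tr_1918_1950 = true := allTr_mk ok_1934 o_1918_1934 o_1935_1950

theorem o_1951_1983 : allTr oF tr_1951_1983 = true := allTr_mk ok_1967 o_1951_1967 o_1968_1983

theorem o_1984_2016 : allTr oF tr_1984_2016 = true := allTr_mk ok_2000 o_1984_2000 o_2001_2016

theorem o_2017_2049 : allTr oF tr_2017_2049 = true := allTr_mk ok_2033 o_2017_2033 o_2034_2049

theorem o_2050_2082 : allTr oF tr_2050_2082 = true := allTr_mk ok_2066 o_2050_2066 o_2067_2082

theorem o_2083_2115 : allTr oF tr_2083_2115 = true := allTr_mk ok_2099 o_2083_2099 o_2100_2115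

theorem o_529_562 : allTr oF tr_529_562 = true := allTr_mk ok_545 o_529_545 o_546_562

theorem o_1058_1091 : allTr oF tr_1058_1091 = true := allTr_mk ok_1074 o_1058_1074 o_1075_1091

theorem o_1587_1620 : allTr oF tr_1587_1620 = true := allTr_mk ok_1603 o_1587_1603 o_1604_1620

theorem o_67_132 : allTr oF tr_67_132 = true := allTr_mk ok_99 o_67_99 o_100_132

theorem o_133_198 : allTr oF tr_133_198 = true := allTr_mk ok_165 o_133_165 o_166_198

theorem o_199_264 : allTr oF tr_199_264 = true := allTr_mk ok_231 o_199_231 o_232_264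

theorem o_265_330 : allTr oF tr_265_330 = true := allTr_mk ok_297 o_265_297 o_298_330

theorem o_331_396 : allTr oF tr_331_396 = true := allTr_mk ok_363 o_331_363 o_364_396

theorem o_397_462 : allTr oF tr_397_462 = true := allTr_mk ok_429 o_397_429 o_430_462

theorem o_463_528 : allTr oF tr_463_528 = true := allTr_mk ok_495 o_463_495 o_496_528

theorem o_596_661 : allTr oF tr_596_661 = true := allTr_mk ok_628 o_596_628 o_629_661

theorem o_662_727 : allTr oF tr_662_727 = true := allTr_mk ok_694 o_662_694 o_695_727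

theorem o_728_793 : allTr oF tr_728_793 = true := allTr_mk ok_760 o_728_760 o_761_793

theorem o_794_859 : allTr oF tr_794_859 = true := allTr_mk ok_826 o_794_826 o_827_859

theorem o_860_925 : allTr oF tr_860_925 = true := allTr_mk ok_892 o_860_892 o_893_925

theorem o_926_991 : allTr oF tr_926_991 = true := allTr_mk ok_958 o_926_958 o_959_991

theorem o_992_1057 : allTr oF tr_992_1057 = true := allTr_mk ok_1024 o_992_1024 o_1025_1057

theorem o_1125_1190 : allTr oF tr_1125_1190 = true := allTr_mk ok_1157 o_1125_1157 o_1158_1190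

theorem o_1191_1256 : allTr oF tr_1191_1256 = true := allTr_mk ok_1223 o_1191_1223 o_1224_1256

theorem o_1257_1322 : allTr oF tr_1257_1322 = true := allTr_mk ok_1289 o_1257_1289 o_1290_1322

theorem o_1323_1388 : allTr oF tr_1323_1388 = true := allTr_mk ok_1355 o_1323_1355 o_1356_1388

theorem o_1389_1454 : allTr oF tr_1389_1454 = true := allTr_mk ok_1421 o_1389_1421 o_1422_1454

theorem o_1455_1520 : allTr oF tr_1455_1520 = true := allTr_mk ok_1487 o_1455_1487 o_1488_1520

theorem o_1521_1586 : allTr oF tr_1521_1586 = true := allTr_mk ok_1553 o_1521_1553 o_1554_1586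

theorem o_1654_1719 : allTr oF tr_1654_1719 = true := allTr_mk ok_1686 o_1654_1686 o_1687_1719

theorem o_1720_1785 : allTr oF tr_1720_1785 = true := allTr_mk ok_1752 o_1720_1752 o_1753_1785

theorem o_1786_1851 : allTr oF tr_1786_1851 = true := allTr_mk ok_1818 o_1786_1818 o_1819_1851

theorem o_1852_1917 : allTr oF tr_1852_1917 = true := allTr_mk ok_1884 o_1852_1884 o_1885_1917

theorem o_1918_1983 : allTr oF tr_1918_1983 = true := allTr_mk ok_1950 o_1918_1950 o_1951_1983

theorem o_1984_2049 : allTr oF tr_1984_2049 = true := allTr_mk ok_2016 o_1984_2016 o_2017_2049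

theorem o_2050_2115 : allTr oF tr_2050_2115 = true := allTr_mk ok_2082 o_2050_2082 o_2083_2115

theorem o_529_595 : allTr oF tr_529_595 = true := allTr_mk ok_562 o_529_562 o_563_595

theorem o_1058_1124 : allTr oF tr_1058_1124 = true := allTr_mk ok_1091 o_1058_1091 o_1092_1124

theorem o_1587_1653 : allTr oF tr_1587_1653 = true := allTr_mk ok_1620 o_1587_1620 o_1621_1653

theorem o_133_264 : allTr oF tr_133_264 = true := allTr_mk ok_198 o_133_198 o_199_264

theorem o_265_396 : allTr oF tr_265_396 = true := allTr_mk ok_330 o_265_330 o_331_396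

theorem o_397_528 : allTr oF tr_397_528 = true := allTr_mk ok_462 o_397_462 o_463_528

theorem o_662_793 : allTr oF tr_662_793 = true := allTr_mk ok_727 o_662_727 o_728_793

theorem o_794_925 : allTr oF tr_794_925 = true := allTr_mk ok_859 o_794_859 o_860_925

theorem o_926_1057 : allTr oF tr_926_1057 = true := allTr_mk ok_991 o_926_991 o_992_1057

theorem o_1191_1322 : allTr oF tr_1191_1322 = true := allTr_mk ok_1256 o_1191_1256 o_1257_1322

theorem o_1323_1454 : allTr oF tr_1323_1454 = true := allTr_mk ok_1388 o_1323_1388 o_1389_1454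

theorem o_1455_1586 : allTr oF tr_1455_1586 = true := allTr_mk ok_1520 o_1455_1520 o_1521_1586

theorem o_1720_1851 : allTr oF tr_1720_1851 = true := allTr_mk ok_1785 o_1720_1785 o_1786_1851

theorem o_1852_1983 : allTr oF tr_1852_1983 = true := allTr_mk ok_1917 o_1852_1917 o_1918_1983

theorem o_1984_2115 : allTr oF tr_1984_2115 = true := allTr_mk ok_2049 o_1984_2049 o_2050_2115

theorem o_0_132 : allTr oF tr_0_132 = true := allTr_mk ok_66 o_0_66 o_67_132

theorem o_529_661 : allTr oF tr_529_661 = true := allTr_mk ok_595 o_529_595 o_596_661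

theorem o_1058_1190 : allTr oF tr_1058_1190 = true := allTr_mk ok_1124 o_1058_1124 o_1125_1190

theorem o_1587_1719 : allTr oF tr_1587_1719 = true := allTr_mk ok_1653 o_1587_1653 o_1654_1719

theorem o_265_528 : allTr oF tr_265_528 = true := allTr_mk ok_396 o_265_396 o_397_528

theorem o_794_1057 : allTr oF tr_794_1057 = true := allTr_mk ok_925 o_794_925 o_926_1057

theorem o_1323_1586 : allTr oF tr_1323_1586 = true := allTr_mk ok_1454 o_1323_1454 o_1455_1586

theorem o_1852_2115 : allTr oF tr_1852_2115 = true := allTr_mk ok_1983 o_1852_1983 o_1984_2115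

theorem o_0_264 : allTr oF tr_0_264 = true := allTr_mk ok_132 o_0_132 o_133_264

theorem o_529_793 : allTr oF tr_529_793 = true := allTr_mk ok_661 o_529_661 o_662_793

theorem o_1058_1322 : allTr oF tr_1058_1322 = true := allTr_mk ok_1190 o_1058_1190 o_1191_1322

theorem o_1587_1851 : allTr oF tr_1587_1851 = true := allTr_mk ok_1719 o_1587_1719 o_1720_1851

theorem o_0_528 : allTr oF tr_0_528 = true := allTr_mk ok_264 o_0_264 o_265_528

theorem o_529_1057 : allTr oF tr_529_1057 = true := allTr_mk ok_793 o_529_793 o_794_1057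

theorem o_1058_1586 : allTr oF tr_1058_1586 = true := allTr_mk ok_1322 o_1058_1322 o_1323_1586

theorem o_1587_2115 : allTr oF tr_1587_2115 = true := allTr_mk ok_1851 o_1587_1851 o_1852_2115

theorem o_0_1057 : allTr oF tr_0_1057 = true := allTr_mk ok_528 o_0_528 o_529_1057

theorem o_1058_2115 : allTr oF tr_1058_2115 = true := allTr_mk ok_1586 o_1058_1586 o_1587_2115

theorem o_0_2115 : allTr oF tr_0_2115 = true := allTr_mk ok_1057 o_0_1057 o_1058_2115

/-- the sequence of types -/
noncomputable def y : ℕ → ℕ := gs T.M T.mul T.w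

theorem y_isG : IsG T.γ T.M T.mul T.w y := gs_isG gp (by decide +kernel) t_w (by decide +kernel)

theorem hlk : ∀ ia ib ic ie t, lk ia ib ic ie t = true → chkV P V lk t = true :=
  fun _ _ _ _ _ h => memTr_spec c_0_2115 h

theorem hbf : ∀ i, i < P.M → bf Q i = bf Q 0 := by decide +kernel

theorem hout : ∀ ia ib ic ie t, ia < P.M → ib < P.M → ic < P.M → ie < P.M →
    lk ia ib ic ie t = true → chkOV P VO Q t ia ib ic ie = true :=
  fun _ _ _ _ _ ha hb hc he h => chkOV_one hbf ha hb hc he (memTr_spec o_0_2115 h)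

theorem zero : ∃ t, chkV P V lk t = true ∧ Match P.n P.A P.B 16384 T.mul T.inv y T.vc t 0 0 0 0 := by
  refine ⟨0x1000100010007000100000000000040004000400040004000400040004000400040004000, memTr_spec c_0_2115 (by decide +kernel), ?_⟩
  apply match_zero gp y_isG.lt <;> decide +kernel

/-- `𝒜(s,11)` holds for all `s` above the threshold -/
theorem avoid (s : ℝ) (hs1 : 1 < s) (hs2 : (1 : ℝ) < (s - 1) * (6 + 1)) : Avoid s 11 := by
  have h := avoid_mainV chyp vok y_isG cert hlk hout zero act le_rfl vok' ohyp ocert s hs1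
    (by
      have e1 : ((P.B : ℕ) : ℝ) = 1 := by norm_num [P]
      have e2 : ((P.A : ℕ) : ℝ) = 6 := by norm_num [P]
      rw [e1, e2]
      exact hs2)
  exact h

end MPbbea99G.E11
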