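import Pool.Agent.Lib.Pbbea99G.E11.Data

/-!
# MP_bbea99_co: the tables
-/

namespace MPbbea99G.E11

open MPbbea99S MPbbea99T MPbbea99G Finset

theorem tg00 : ∀ j, j < 28 → nthL P.gT (T.γ * 0 + (0 + j)) = T.gTf P.WL 0 (0 + j) := by
  decide +kernel

theorem ts00 : ∀ j, j < 28 → nthL P.sT (T.γ * 0 + (0 + j)) = T.sTf P.WS 0 (0 + j) := by
  decide +kernel

theorem tx00 : ∀ j, j < 28 → chkX T P 0 (0 + j) = true := by decide +kernel

end MPbbea99G.E11
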